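import Pool.Agent.H61.LS.Law
import Pool.Agent.H61.GX.Pole
import Pool.Graph.R_seed8.H578R3.SgnCyc
import Pool.Graph.R_pool_sql_team_seeded_3997aac3.Q55.ZeroOne

/-!
# Algebraic cycles and the parity operator
-/

open CategoryTheory AlgebraicGeometry

universe u v

namespace Pool.Agent.H61.LS

open Module Filter Topology
open Pool.Agent.H914 Pool.Agent.H914.VarClass Pool.Agent.H914.VarClass.Obj
  Pool.Agent.H914.WeilCohomology Pool.Agent.Y133.Half Pool.Agent.H61.GX Pool.Agent.H61.ZX
  Pool.Agent.H447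

variable {k : Type u} [Field k] {𝒱 : VarClass k} {ops : CycleOps 𝒱}
  {W : WeilCohomology.{u, v} ops} {X Y Z : 𝒱.Obj}

lemma gop_of_cyc {P : (X.prod X).Cycles} (hP : (X.prod X).IsCyc X.dim P) :
    W.corr (W.cl (X.prod X) P) ∈ GOp (algSys W) X X 0 := by
  refine GOp.corr (d := (X.dim : ℤ)) ?_ (by ring)
  rw [gc_alg]
  exact Pool.Agent.H447.mem_span_cl hP

/-- The sign conjecture: the parity operator is algebraic. -/
lemma par_of_sign (h : SignStd W X) : par (W.isInternal X) ∈ GOp (algSys W) X X 0 := by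
  obtain ⟨P, hP, hP'⟩ := h
  have h1 := gop_of_cyc (W := W) hP
  rw [isEvenProj_iff.1 hP'] at h1
  rw [Pool.Agent.H578R3.Sgn.par_eq]
  exact Submodule.sub_mem _ h1 (Submodule.sub_mem _ GOp.id h1)

/-- The Künneth projectors are algebraic: the parity operator is algebraic. -/
lemma par_of_kunneth (h : KunnethStd W X) : par (W.isInternal X) ∈ GOp (algSys W) X X 0 := by
  rw [par, scal_eq_sum (W.isInternal X) (N := 2 * X.dim + 1) fun i hi =>
    W.gr_eq_bot X i (by omega)]
  refine Submodule.sum_mem _ fun i _ => Submodule.smul_mem _ _ ?_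
  obtain ⟨P, hP, hP'⟩ := h i
  have h1 : H914.proj (W.isInternal X) i = W.corr (W.cl _ P) := by
    apply gr_ext (W.isInternal X)
    intro j a ha
    have h1 := hP' j a ha
    rw [h1]
    split_ifs with hij
    · subst hij; exact proj_same _ ha
    · exact proj_ne _ ha hij
  rw [h1]
  exact gop_of_cyc hP

/-- If homological and numerical equivalence agree on the square of `X` and hard Lefschetz holds
for one divisor, the parity operator is algebraic. -/
lemma par_of_homEqNum {D : X.Cycles} (hD : X.IsCyc 1 D) (hHL : HardLefschetz W X D)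
    (h : ∀ n, HomEqNum W (pw X n)) : par (W.isInternal X) ∈ GOp (algSys W) X X 0 :=
  par_of_kunneth (Pool.Agent.Q55.kunneth_of_lefschetzB hD hHL
    (Pool.Agent.Q55.lefschetzB_of_square hD hHL (Pool.Agent.Q55.homEqNum_square_pw h 0)))

/-- The codimensions near the middle are at most the dimension. -/
lemma le_of_near' {Z X : 𝒱.Obj} (hd : 0 < X.dim) {n j J : ℕ} (hn : J ≤ n)
    (hJ : |2 * (j : ℤ) - (n + 1) * X.dim| ≤ J) : j ≤ (Z.prod (pw X n)).dim := by
  rw [dim_prod, dim_pw]
  have h1 := (abs_le.1 hJ).2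
  have h2 : (J : ℤ) ≤ (n + 1) * X.dim := by
    have h3 : (J : ℤ) ≤ n := by exact_mod_cast hn
    have h4 : (1 : ℤ) ≤ X.dim := by exact_mod_cast hd
    nlinarith
  have h3 : (j : ℤ) ≤ Z.dim + (n + 1) * X.dim := by linarith
  exact_mod_cast h3

end Pool.Agent.H61.LS
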