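import Mathlib
import Pool.Graph.R_pool_sql_team_seeded_35f281b4.K7.H8.TH.Fin

/-!
# A local limit theorem for the weights of representations of `sl(2)`
-/

set_option autoImplicit false
set_option linter.unusedSectionVars false

open Finset MeasureTheory

namespace Pool.Agent.H61.LS

open Pool.Agent.K7.H8.TH

/-! ### One string -/

lemma cos_quad (y : ℝ) : |Real.cos y - (1 - y ^ 2 / 2)| ≤ 3 * y ^ 4 := by
  by_cases h : |y| ≤ 1
  · have h1 := Real.cos_bound h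
    have h2 : |y| ^ 4 = y ^ 4 := by
      rw [show (4 : ℕ) = 2 * 2 by rfl, pow_mul, sq_abs, ← pow_mul]
    rw [h2] at h1
    have h3 : (0 : ℝ) ≤ y ^ 4 := by positivity
    linarith
  · push Not at h
    have h1 : 1 ≤ y ^ 2 := by
      rw [← sq_abs]
      exact one_le_pow₀ h.le
    have h2 : y ^ 4 = y ^ 2 * y ^ 2 := by ring
    have h3 := Real.cos_le_one y
    have h4 := Real.neg_one_le_cos y
    rw [abs_le, h2]
    constructor <;> nlinarith

lemma exp_quad {z : ℝ} (hz : 0 ≤ z) : |Real.exp (-z) - (1 - z)| ≤ z ^ 2 := by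
  by_cases h : z ≤ 1
  · have h1 := Real.abs_exp_sub_one_sub_id_le (x := -z) (by rw [abs_neg, abs_of_nonneg hz]; exact h)
    have e : Real.exp (-z) - (1 - z) = Real.exp (-z) - 1 - -z := by ring
    rw [e]
    refine h1.trans (le_of_eq ?_)
    ring
  · push Not at h
    have h1 : Real.exp (-z) ≤ 1 := Real.exp_le_one_iff.2 (by linarith)
    have h2 : 0 < Real.exp (-z) := Real.exp_pos _
    rw [abs_le]
    constructor <;> nlinarith

lemma sum_sq_range (L : ℝ) (n : ℕ) : ∑ i ∈ range n, (L - 2 * (i : ℝ)) ^ 2 =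
    n * L ^ 2 - 2 * L * n * (n - 1) + 2 * n * (n - 1) * (2 * n - 1) / 3 := by
  induction n with
  | zero => simp
  | succ n ih =>
    rw [sum_range_succ, ih]
    push_cast
    ring

/-- The second moment of the weights of a string. -/
noncomputable def var1 (l : ℕ) : ℝ := (l : ℝ) * (l + 2) / 3

lemma X_cos (l : ℕ) (x : ℝ) :
    X l x = ∑ i ∈ range (l + 1), Real.cos (((l : ℝ) - 2 * (i : ℝ)) * x) := by
  have h := congrArg Complex.re (sum_exp l x)
  rw [Complex.re_sum, Complex.ofReal_re] at h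
  rw [← h]
  refine sum_congr rfl fun i _ => ?_
  rw [Complex.exp_ofReal_mul_I_re]
  push_cast
  rfl

lemma X_gauss (l : ℕ) : ∃ A : ℝ, 0 ≤ A ∧ ∀ x : ℝ,
    |X l x - (l + 1) * Real.exp (-(var1 l * x ^ 2 / 2))| ≤ (l + 1) * (A * x ^ 4) := by
  refine ⟨3 * (l : ℝ) ^ 4 + (var1 l) ^ 2 / 4, by positivity, fun x => ?_⟩
  have hv : 0 ≤ var1 l := by unfold var1; positivity
  have h1 : |X l x - (l + 1) * (1 - var1 l * x ^ 2 / 2)| ≤ (l + 1) * (3 * (l : ℝ) ^ 4 * x ^ 4) := by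
    have e : (l + 1) * (1 - var1 l * x ^ 2 / 2) =
        ∑ i ∈ range (l + 1), (1 - (((l : ℝ) - 2 * (i : ℝ)) * x) ^ 2 / 2) := by
      have h2 := sum_sq_range l (l + 1)
      have h3 : ∑ i ∈ range (l + 1), (1 - (((l : ℝ) - 2 * (i : ℝ)) * x) ^ 2 / 2) =
          (l + 1) - (∑ i ∈ range (l + 1), ((l : ℝ) - 2 * (i : ℝ)) ^ 2) * (x ^ 2 / 2) := by
        rw [sum_sub_distrib, sum_mul, sum_const, card_range, nsmul_eq_mul, mul_one]
        push_cast
        congr 1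
        refine sum_congr rfl fun i _ => ?_
        ring
      rw [h3, h2, var1]
      push_cast
      ring
    rw [e, X_cos, ← sum_sub_distrib]
    refine (abs_sum_le_sum_abs _ _).trans ?_
    have h4 : ∀ i ∈ range (l + 1), |Real.cos (((l : ℝ) - 2 * (i : ℝ)) * x) -
        (1 - (((l : ℝ) - 2 * (i : ℝ)) * x) ^ 2 / 2)| ≤ 3 * (l : ℝ) ^ 4 * x ^ 4 := by
      intro i hi
      refine (cos_quad _).trans ?_
      have h5 : (i : ℝ) ≤ l := by exact_mod_cast Nat.lt_succ_iff.1 (mem_range.1 hi)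
      have h6 : (0 : ℝ) ≤ i := Nat.cast_nonneg _
      have h7 : ((l : ℝ) - 2 * (i : ℝ)) ^ 2 ≤ (l : ℝ) ^ 2 := by nlinarith
      have h8 : ((l : ℝ) - 2 * (i : ℝ)) ^ 4 ≤ (l : ℝ) ^ 4 := by
        have e1 : ((l : ℝ) - 2 * (i : ℝ)) ^ 4 = (((l : ℝ) - 2 * (i : ℝ)) ^ 2) ^ 2 := by ring
        have e2 : (l : ℝ) ^ 4 = ((l : ℝ) ^ 2) ^ 2 := by ring
        rw [e1, e2]
        exact pow_le_pow_left₀ (sq_nonneg _) h7 2
      rw [mul_pow]
      have h9 : (0 : ℝ) ≤ x ^ 4 := by positivity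
      nlinarith
    refine (sum_le_sum h4).trans (le_of_eq ?_)
    rw [sum_const, card_range, nsmul_eq_mul]
    push_cast
    ring
  have h2 := exp_quad (z := var1 l * x ^ 2 / 2) (by positivity)
  have hl : (0 : ℝ) ≤ (l + 1 : ℝ) := by positivity
  have h3 : |(l + 1 : ℝ) * (1 - var1 l * x ^ 2 / 2) -
      (l + 1) * Real.exp (-(var1 l * x ^ 2 / 2))| ≤
      (l + 1) * ((var1 l) ^ 2 / 4 * x ^ 4) := by
    rw [← mul_sub, abs_mul, abs_of_nonneg hl, abs_sub_comm]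
    refine mul_le_mul_of_nonneg_left (h2.trans (le_of_eq ?_)) hl
    ring
  have h4 := abs_sub_le (X l x) ((l + 1) * (1 - var1 l * x ^ 2 / 2))
    ((l + 1) * Real.exp (-(var1 l * x ^ 2 / 2)))
  refine h4.trans ((add_le_add h1 h3).trans (le_of_eq ?_))
  ring

/-! ### Gaussian approximation of the characters -/

lemma gg_pow_gauss (k : ℕ) {x : ℝ} (hx : |x| ≤ Real.pi / 2) :
    gg x ^ k ≤ Real.exp (-((k : ℝ) * x ^ 2 / 10)) := by
  have h1 : gg x ^ k ≤ Real.exp (-(Real.sin x ^ 2 / 3)) ^ k :=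
    pow_le_pow_left₀ (gg_nonneg x) (gg_le x) k
  refine h1.trans ?_
  rw [← Real.exp_nat_mul]
  apply Real.exp_le_exp.2
  have h2 := sin_lower hx
  have hpi := Real.pi_pos
  have hpi2 : Real.pi ^ 2 ≤ 10 := by
    have := Real.pi_lt_d2
    nlinarith
  have h3 : (4 : ℝ) / 10 ≤ 4 / Real.pi ^ 2 :=
    div_le_div_of_nonneg_left (by norm_num) (by positivity) hpi2
  have h4 : x ^ 2 / 10 ≤ Real.sin x ^ 2 / 3 := by
    have : (4 : ℝ) / 10 * x ^ 2 ≤ 4 / Real.pi ^ 2 * x ^ 2 :=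
      mul_le_mul_of_nonneg_right h3 (sq_nonneg _)
    nlinarith [sq_nonneg x]
  have hk : (0 : ℝ) ≤ k := Nat.cast_nonneg _
  nlinarith

section gau

variable {I Θ I' Θ' : Type} [Fintype I] [DecidableEq Θ] [Fintype I'] [DecidableEq Θ']

/-- Gaussian approximation of the characters of the various types. -/
structure Gau (a : I → ℤ) (ty : I → Θ) (k : Θ → ℕ) (vv : Θ → ℝ) (A : ℝ) : Prop where
  vk : ∀ θ, (k θ : ℝ) ≤ vv θ
  vz : ∀ θ, k θ = 0 → vv θ = 0
  gau : ∀ θ (x : ℝ), |x| ≤ Real.pi / 2 →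
    ‖∑ i ∈ fib ty θ, Complex.exp (((a i : ℝ) * x : ℝ) * Complex.I) -
      (((fib ty θ).card * Real.exp (-(vv θ * x ^ 2 / 2)) : ℝ) : ℂ)‖ ≤
    (fib ty θ).card * (A * k θ * x ^ 4 * Real.exp (-(((k θ : ℝ) - 1) * x ^ 2 / 10)))

variable {a : I → ℤ} {ty : I → Θ} {k : Θ → ℕ} {v : ℝ} {vv : Θ → ℝ} {a' : I' → ℤ} {ty' : I' → Θ'}
  {k' : Θ' → ℕ} {v' : ℝ} {vv' : Θ' → ℝ} {A : ℝ}

lemma Gau.prod (hA : 0 ≤ A) (W' : Wts a' ty' k' v') (U : Gau a ty k vv A)
    (U' : Gau a' ty' k' vv' A) :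
    Gau (fun p : I × I' => a p.1 + a' p.2) (fun p : I × I' => (ty p.1, ty' p.2))
      (fun θ : Θ × Θ' => k θ.1 + k' θ.2) (fun θ => vv θ.1 + vv' θ.2) A := by
  refine ⟨fun θ => ?_, fun θ h => ?_, fun θ x hx => ?_⟩
  · push_cast
    exact add_le_add (U.vk _) (U'.vk _)
  · show vv θ.1 + vv' θ.2 = 0
    have h' : k θ.1 + k' θ.2 = 0 := h
    rw [U.vz _ (by omega), U'.vz _ (by omega), add_zero]
  rw [fib_prod, card_product]
  have h1 : ∑ p ∈ fib ty θ.1 ×ˢ fib ty' θ.2,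
      Complex.exp ((((a p.1 + a' p.2 : ℤ) : ℝ) * x : ℝ) * Complex.I) =
      (∑ i ∈ fib ty θ.1, Complex.exp (((a i : ℝ) * x : ℝ) * Complex.I)) *
      ∑ j ∈ fib ty' θ.2, Complex.exp (((a' j : ℝ) * x : ℝ) * Complex.I) := by
    rw [sum_mul_sum, sum_product]
    refine sum_congr rfl fun i _ => sum_congr rfl fun j _ => ?_
    rw [← Complex.exp_add]
    congr 1
    push_cast
    ring
  rw [h1]
  set S := ∑ i ∈ fib ty θ.1, Complex.exp (((a i : ℝ) * x : ℝ) * Complex.I) with hS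
  set S' := ∑ j ∈ fib ty' θ.2, Complex.exp (((a' j : ℝ) * x : ℝ) * Complex.I) with hS'
  have g1 := U.gau θ.1 x hx
  have g2 := U'.gau θ.2 x hx
  rw [← hS] at g1
  rw [← hS'] at g2
  set n1 : ℝ := ((fib ty θ.1).card : ℝ) with hn1
  set n2 : ℝ := ((fib ty' θ.2).card : ℝ) with hn2
  set E1 := Real.exp (-(vv θ.1 * x ^ 2 / 2)) with hE1
  set E2 := Real.exp (-(vv' θ.2 * x ^ 2 / 2)) with hE2
  set k1 : ℝ := (k θ.1 : ℝ) with hk1
  set k2 : ℝ := (k' θ.2 : ℝ) with hk2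
  have hn1' : 0 ≤ n1 := Nat.cast_nonneg _
  have hn2' : 0 ≤ n2 := Nat.cast_nonneg _
  have hk1' : 0 ≤ k1 := Nat.cast_nonneg _
  have hk2' : 0 ≤ k2 := Nat.cast_nonneg _
  have f2 : ‖S'‖ ≤ n2 * Real.exp (-(k2 * x ^ 2 / 10)) := by
    refine (W'.chr θ.2 x).trans (mul_le_mul_of_nonneg_left ?_ hn2')
    exact gg_pow_gauss _ hx
  have f1 : E1 ≤ Real.exp (-(k1 * x ^ 2 / 10)) := by
    apply Real.exp_le_exp.2
    have h2 := U.vk θ.1
    have h3 := mul_le_mul_of_nonneg_right h2 (sq_nonneg x)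
    have h4 := mul_nonneg hk1' (sq_nonneg x)
    linarith
  have e1 : S * S' - (((n1 * n2 : ℝ) * Real.exp (-((vv θ.1 + vv' θ.2) * x ^ 2 / 2)) : ℝ) : ℂ) =
      (S - ((n1 * E1 : ℝ) : ℂ)) * S' + ((n1 * E1 : ℝ) : ℂ) * (S' - ((n2 * E2 : ℝ) : ℂ)) := by
    have h2 : Real.exp (-((vv θ.1 + vv' θ.2) * x ^ 2 / 2)) = E1 * E2 := by
      rw [hE1, hE2, ← Real.exp_add]
      congr 1
      ring
    rw [h2]
    push_cast
    ring
  have e2 : (((fib ty θ.1).card * (fib ty' θ.2).card : ℕ) : ℝ) = n1 * n2 := by push_cast; rfl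
  rw [e2, e1]
  refine (norm_add_le _ _).trans ?_
  rw [norm_mul, norm_mul, Complex.norm_real, Real.norm_eq_abs,
    abs_of_nonneg (mul_nonneg hn1' (Real.exp_pos _).le)]
  have hE1p : 0 ≤ E1 := (Real.exp_pos _).le
  have t1 : ‖S - ((n1 * E1 : ℝ) : ℂ)‖ * ‖S'‖ ≤
      (n1 * (A * k1 * x ^ 4 * Real.exp (-((k1 - 1) * x ^ 2 / 10)))) *
        (n2 * Real.exp (-(k2 * x ^ 2 / 10))) :=
    mul_le_mul g1 f2 (norm_nonneg _) (by positivity)
  have t2 : n1 * E1 * ‖S' - ((n2 * E2 : ℝ) : ℂ)‖ ≤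
      (n1 * Real.exp (-(k1 * x ^ 2 / 10))) *
        (n2 * (A * k2 * x ^ 4 * Real.exp (-((k2 - 1) * x ^ 2 / 10)))) :=
    mul_le_mul (mul_le_mul_of_nonneg_left f1 hn1') g2 (norm_nonneg _) (by positivity)
  refine (add_le_add t1 t2).trans (le_of_eq ?_)
  have e3 : Real.exp (-((k1 - 1) * x ^ 2 / 10)) * Real.exp (-(k2 * x ^ 2 / 10)) =
      Real.exp (-((((k θ.1 + k' θ.2 : ℕ) : ℝ) - 1) * x ^ 2 / 10)) := by
    rw [← Real.exp_add]
    congr 1
    push_cast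
    ring
  have e4 : Real.exp (-(k1 * x ^ 2 / 10)) * Real.exp (-((k2 - 1) * x ^ 2 / 10)) =
      Real.exp (-((((k θ.1 + k' θ.2 : ℕ) : ℝ) - 1) * x ^ 2 / 10)) := by
    rw [← Real.exp_add]
    congr 1
    push_cast
    ring
  calc n1 * (A * k1 * x ^ 4 * Real.exp (-((k1 - 1) * x ^ 2 / 10))) *
        (n2 * Real.exp (-(k2 * x ^ 2 / 10))) +
      n1 * Real.exp (-(k1 * x ^ 2 / 10)) *
        (n2 * (A * k2 * x ^ 4 * Real.exp (-((k2 - 1) * x ^ 2 / 10))))
      = n1 * n2 * (A * k1 * x ^ 4 * (Real.exp (-((k1 - 1) * x ^ 2 / 10)) *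
          Real.exp (-(k2 * x ^ 2 / 10)))) +
        n1 * n2 * (A * k2 * x ^ 4 * (Real.exp (-(k1 * x ^ 2 / 10)) *
          Real.exp (-((k2 - 1) * x ^ 2 / 10)))) := by ring
    _ = _ := by
      rw [e3, e4]
      push_cast
      ring

/-- The base case. -/
lemma gau_strings {ι : Type} [Fintype ι] [DecidableEq ι] (len : ι → ℕ) : ∃ A₀ : ℝ, 0 ≤ A₀ ∧
    ∀ A ≥ A₀, Gau (I := Σ s : ι, Fin (len s + 1)) (Θ := ι)
      (fun p => (len p.1 : ℤ) - 2 * (p.2 : ℕ)) (fun p => p.1)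
      (fun s => if len s = 0 then 0 else 1) (fun s => var1 (len s)) A := by
  choose B hB hB' using X_gauss
  refine ⟨∑ s, B (len s), sum_nonneg fun s _ => hB _, fun A hA => ⟨fun s => ?_, fun s h => ?_,
    fun s x hx => ?_⟩⟩
  · show (((if len s = 0 then 0 else 1 : ℕ)) : ℝ) ≤ var1 (len s)
    split_ifs with h
    · unfold var1
      rw [Nat.cast_zero]
      positivity
    · have : (1 : ℝ) ≤ len s := by exact_mod_cast Nat.one_le_iff_ne_zero.2 h
      unfold var1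
      push_cast
      nlinarith
  · have h' : (if len s = 0 then 0 else 1 : ℕ) = 0 := h
    have h2 : len s = 0 := by
      by_contra hne
      rw [if_neg hne] at h'
      omega
    show var1 (len s) = 0
    rw [var1, h2]
    simp
  have hfib : ∀ s : ι, fib (fun p : Σ s : ι, Fin (len s + 1) => p.1) s =
      (univ : Finset (Fin (len s + 1))).map ⟨fun i => ⟨s, i⟩, fun i j h => by simpa using h⟩ := by
    intro s
    ext ⟨s', i⟩
    rw [mem_fib, mem_map]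
    constructor
    · rintro rfl
      exact ⟨i, mem_univ _, rfl⟩
    · rintro ⟨j, -, hj⟩
      exact (congrArg Sigma.fst hj).symm
  have hcard : (fib (fun p : Σ s : ι, Fin (len s + 1) => p.1) s).card = len s + 1 := by
    rw [hfib, card_map, card_univ, Fintype.card_fin]
  rw [hcard, hfib, sum_map]
  have h1 : ∑ i : Fin (len s + 1), Complex.exp (((((len s : ℤ) - 2 * ((i : ℕ) : ℤ) : ℤ) : ℝ) *
      x : ℝ) * Complex.I) = X (len s) x := by
    rw [← sum_exp]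
    exact Fin.sum_univ_eq_sum_range (fun i => Complex.exp (((((len s : ℤ) -
      2 * (i : ℤ) : ℤ) : ℝ) * x : ℝ) * Complex.I)) (len s + 1)
  show ‖∑ i : Fin (len s + 1), Complex.exp (((((len s : ℤ) - 2 * ((i : ℕ) : ℤ) : ℤ) : ℝ) *
      x : ℝ) * Complex.I) - _‖ ≤ _
  rw [h1, ← Complex.ofReal_sub, Complex.norm_real, Real.norm_eq_abs]
  split_ifs with h
  · rw [h]
    simp [X, var1]
  · have h2 := hB' (len s) x
    have h3 : B (len s) ≤ A := (single_le_sum (f := fun s => B (len s))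
      (fun _ _ => hB _) (mem_univ s)).trans hA
    push_cast
    rw [sub_self, zero_mul, zero_div, neg_zero, Real.exp_zero, mul_one, mul_one]
    refine h2.trans (mul_le_mul_of_nonneg_left (mul_le_mul_of_nonneg_right h3 ?_) ?_)
    · positivity
    · positivity

end gau

end Pool.Agent.H61.LS
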