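import Pool.Agent.H61.LS.Clt

/-!
# A local limit theorem for the weights of representations of `sl(2)`, II
-/

set_option autoImplicit false
set_option linter.unusedSectionVars false

open Finset MeasureTheory

namespace Pool.Agent.H61.LS

open Pool.Agent.K7.H8.TH

/-- The bound of the error terms. -/
noncomputable def hb (k : ℕ) (x : ℝ) : ℝ :=
  Real.sin x ^ 2 * Real.exp (-((k : ℝ) * Real.sin x ^ 2 / 20))

lemma hb_nonneg (k : ℕ) (x : ℝ) : 0 ≤ hb k x := by
  unfold hb; positivity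

lemma hb_cont (k : ℕ) : Continuous (hb k) := by
  unfold hb; fun_prop

lemma mul_exp_le (y : ℝ) {c : ℝ} (hc : 0 < c) : y * Real.exp (-(y / c)) ≤ c := by
  have h1 := Real.add_one_le_exp (y / c)
  have h2 : Real.exp (-(y / c)) = (Real.exp (y / c))⁻¹ := Real.exp_neg _
  rw [h2, ← div_eq_mul_inv, div_le_iff₀ (Real.exp_pos _)]
  have h3 : y = c * (y / c) := by field_simp
  have h4 : c * (y / c) ≤ c * Real.exp (y / c) := mul_le_mul_of_nonneg_left (by linarith) hc.le
  linarith

lemma int_hb (k : ℕ) : ∫ x in (-Real.pi)..Real.pi, hb k x ≤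
    5040 / ((k + 1 : ℝ) * √(k + 1 : ℝ)) := by
  have hpi := Real.pi_pos
  have hk : (0 : ℝ) < (k + 1 : ℝ) := by positivity
  have h1 : ∫ x in (-Real.pi)..Real.pi, hb k x ≤
      ∫ x in (-Real.pi)..Real.pi, (80 / (k + 1 : ℝ)) *
        Real.exp (-((k + 1 : ℝ) / 40 * Real.sin x ^ 2)) := by
    apply intervalIntegral.integral_mono_on (by linarith)
    · exact (hb_cont k).intervalIntegrable _ _
    · apply Continuous.intervalIntegrable
      fun_prop
    · intro x _
      set s := Real.sin x ^ 2 with hs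
      have hs0 : 0 ≤ s := sq_nonneg _
      have hs1 : s ≤ 1 := sin_sq_le x
      set E := Real.exp (-((k + 1 : ℝ) / 40 * s)) with hE
      have h5 : Real.exp (-((k : ℝ) * s / 20)) = Real.exp (s / 20) * (E * E) := by
        rw [hE, ← Real.exp_add, ← Real.exp_add]
        congr 1
        ring
      have h6 : Real.exp (s / 20) ≤ 2 := by
        have h7 : Real.exp (s / 20) ≤ Real.exp (1 / 2) := Real.exp_le_exp.2 (by linarith)
        have h8 : Real.exp (1 / 2) * Real.exp (1 / 2) < 4 := by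
          rw [← Real.exp_add]
          norm_num
          exact Real.exp_one_lt_d9.trans (by norm_num)
        have h9 : 0 < Real.exp (1 / 2) := Real.exp_pos _
        nlinarith
      have h7 : (k + 1 : ℝ) * s * E ≤ 40 := by
        have h8 := mul_exp_le ((k + 1 : ℝ) * s) (c := 40) (by norm_num)
        have h9 : (k + 1 : ℝ) * s / 40 = (k + 1 : ℝ) / 40 * s := by ring
        rw [h9] at h8
        exact h8
      have hE0 : 0 < E := Real.exp_pos _
      show s * Real.exp (-((k : ℝ) * s / 20)) ≤ _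
      rw [h5]
      have h8 : s * E ≤ 40 / (k + 1 : ℝ) := by
        rw [le_div_iff₀ hk]
        calc s * E * (k + 1) = (k + 1 : ℝ) * s * E := by ring
          _ ≤ 40 := h7
      calc s * (Real.exp (s / 20) * (E * E)) = Real.exp (s / 20) * ((s * E) * E) := by ring
        _ ≤ 2 * ((40 / (k + 1 : ℝ)) * E) := by
            apply mul_le_mul h6 (mul_le_mul_of_nonneg_right h8 hE0.le) (by positivity)
              (by norm_num)
        _ = _ := by ring
  rw [intervalIntegral.integral_const_mul] at h1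
  have h2 := int_exp_sin ((k + 1 : ℝ) / 40) (by positivity)
  have h3 : 9 / √((k + 1 : ℝ) / 40) ≤ 63 / √(k + 1 : ℝ) := by
    rw [Real.sqrt_div hk.le]
    have h4 : √(40 : ℝ) ≤ 7 := by
      rw [Real.sqrt_le_left (by norm_num)]
      norm_num
    have h5 : 0 < √(k + 1 : ℝ) := Real.sqrt_pos.2 hk
    rw [div_div_eq_mul_div]
    exact div_le_div_of_nonneg_right (by linarith) h5.le
  refine h1.trans ((mul_le_mul_of_nonneg_left (h2.trans h3) (by positivity)).trans (le_of_eq ?_))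
  rw [div_mul_div_comm]
  norm_num

/-- The mass of the normal distribution of variance `v` at the origin, twice. -/
noncomputable def Gs (v : ℝ) : ℝ := √(2 / (Real.pi * v))

lemma Gs_nonneg (v : ℝ) : 0 ≤ Gs v := Real.sqrt_nonneg _

lemma two_pi_Gs {v : ℝ} (hv : 0 < v) : 2 * Real.pi * Gs v = 2 * √(Real.pi / (v / 2)) := by
  have hpi := Real.pi_pos
  rw [Gs, mul_assoc]
  congr 1
  have h : Real.pi = √(Real.pi ^ 2) := (Real.sqrt_sq hpi.le).symm
  conv_lhs => rw [h]
  rw [← Real.sqrt_mul (by positivity), Real.sqrt_sq hpi.le]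
  congr 1
  field_simp

lemma int_gauss (v : ℝ) (hv : 0 < v) :
    |2 * Real.pi * Gs v - ∫ x in (-(Real.pi / 2))..(Real.pi / 2),
      2 * Real.exp (-(v * x ^ 2 / 2))| ≤ 16 / (v * √v) := by
  have hpi := Real.pi_pos
  have hpi3 := Real.pi_gt_three
  have hf : ∀ c : ℝ, 0 < c → Integrable fun x : ℝ => Real.exp (-(c * x ^ 2)) := by
    intro c hc
    have := integrable_exp_neg_mul_sq hc
    refine this.congr (Filter.Eventually.of_forall fun x => ?_)
    simp only [neg_mul]
  have hval : ∀ c : ℝ, 0 < c → ∫ x : ℝ, Real.exp (-(c * x ^ 2)) = √(Real.pi / c) := by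
    intro c hc
    rw [← integral_gaussian c]
    simp only [neg_mul]
  set f : ℝ → ℝ := fun x => Real.exp (-(v / 2 * x ^ 2)) with hfdef
  set g : ℝ → ℝ := fun x => Real.exp (-(v / 4 * x ^ 2)) with hgdef
  set s : Set ℝ := Set.Ioc (-(Real.pi / 2)) (Real.pi / 2) with hs
  have h1 : ∫ x in (-(Real.pi / 2))..(Real.pi / 2), 2 * Real.exp (-(v * x ^ 2 / 2)) =
      2 * ∫ x in s, f x := by
    rw [intervalIntegral.integral_const_mul, intervalIntegral.integral_of_le (by linarith)]
    congr 2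
    funext x
    rw [hfdef]
    dsimp only
    congr 1
    ring
  have h2 : (∫ x in s, f x) + ∫ x in sᶜ, f x = √(Real.pi / (v / 2)) := by
    rw [integral_add_compl measurableSet_Ioc (hf _ (by positivity)), hval _ (by positivity)]
  have h3 : 2 * Real.pi * Gs v - ∫ x in (-(Real.pi / 2))..(Real.pi / 2),
      2 * Real.exp (-(v * x ^ 2 / 2)) = 2 * ∫ x in sᶜ, f x := by
    rw [h1, two_pi_Gs hv, ← h2]
    ring
  have h4 : 0 ≤ ∫ x in sᶜ, f x := integral_nonneg fun x => (Real.exp_pos _).le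
  rw [h3, abs_of_nonneg (by linarith)]
  -- the tail
  have h5 : ∫ x in sᶜ, f x ≤ Real.exp (-(v / 4 * (Real.pi / 2) ^ 2)) * √(Real.pi / (v / 4)) := by
    have h6 : ∫ x in sᶜ, f x ≤ ∫ x in sᶜ, Real.exp (-(v / 4 * (Real.pi / 2) ^ 2)) * g x := by
      apply setIntegral_mono_on (hf _ (by positivity)).integrableOn
        ((hf (v / 4) (by positivity)).const_mul _).integrableOn measurableSet_Ioc.compl
      intro x hx
      show Real.exp (-(v / 2 * x ^ 2)) ≤ Real.exp (-(v / 4 * (Real.pi / 2) ^ 2)) *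
        Real.exp (-(v / 4 * x ^ 2))
      rw [← Real.exp_add]
      apply Real.exp_le_exp.2
      have h7 : (Real.pi / 2) ^ 2 ≤ x ^ 2 := by
        rw [Set.mem_compl_iff, Set.mem_Ioc, not_and_or] at hx
        rcases hx with h | h
        · push Not at h
          nlinarith
        · push Not at h
          nlinarith
      nlinarith
    refine h6.trans ?_
    rw [integral_const_mul]
    apply mul_le_mul_of_nonneg_left _ (Real.exp_pos _).le
    rw [← hval (v / 4) (by positivity)]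
    exact setIntegral_le_integral (hf _ (by positivity))
      (Filter.Eventually.of_forall fun x => (Real.exp_pos _).le)
  have h6 : Real.exp (-(v / 4 * (Real.pi / 2) ^ 2)) ≤ 2 / v := by
    have h7 := mul_exp_le v (c := 2) (by norm_num)
    have h8 : Real.exp (-(v / 4 * (Real.pi / 2) ^ 2)) ≤ Real.exp (-(v / 2)) := by
      apply Real.exp_le_exp.2
      have h9 : (2 : ℝ) ≤ (Real.pi / 2) ^ 2 := by nlinarith
      nlinarith
    refine h8.trans ?_
    rw [le_div_iff₀ hv]
    linarith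
  have h7 : √(Real.pi / (v / 4)) ≤ 4 / √v := by
    have h8 : Real.pi / (v / 4) ≤ 16 / v := by
      rw [div_div_eq_mul_div]
      apply div_le_div_of_nonneg_right _ hv.le
      linarith [Real.pi_le_four]
    refine (Real.sqrt_le_sqrt h8).trans (le_of_eq ?_)
    rw [Real.sqrt_div (by norm_num), show (16 : ℝ) = 4 ^ 2 by norm_num, Real.sqrt_sq (by norm_num)]
  have h8 : ∫ x in sᶜ, f x ≤ 2 / v * (4 / √v) :=
    h5.trans (mul_le_mul h6 h7 (Real.sqrt_nonneg _) (by positivity))
  calc 2 * ∫ x in sᶜ, f x ≤ 2 * (2 / v * (4 / √v)) := by linarith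
    _ = 16 / (v * √v) := by
      rw [div_mul_div_comm]
      ring

/-- The error of one term. -/
lemma int_gauss' {v : ℝ} {k : ℕ} (hv : (k : ℝ) ≤ v) (hz : k = 0 → v = 0) :
    |2 * Real.pi * Gs v - ∫ x in (-(Real.pi / 2))..(Real.pi / 2),
      2 * Real.exp (-(v * x ^ 2 / 2))| ≤ 64 / ((k + 1 : ℝ) * √(k + 1 : ℝ)) := by
  have hpi := Real.pi_pos
  have hk : (0 : ℝ) < (k + 1 : ℝ) := by positivity
  rcases Nat.eq_zero_or_pos k with h | h
  · have hv0 := hz h
    subst hv0
    subst h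
    have e1 : Gs 0 = 0 := by rw [Gs]; simp
    have e2 : ∫ x in (-(Real.pi / 2))..(Real.pi / 2), 2 * Real.exp (-(0 * x ^ 2 / 2)) =
        2 * Real.pi := by
      simp
      ring
    rw [e1, e2]
    have h4 := Real.pi_le_four
    norm_num
    rw [abs_of_pos hpi]
    linarith
  · have hk1 : (1 : ℝ) ≤ k := by exact_mod_cast h
    have hv0 : 0 < v := by linarith
    refine (int_gauss v hv0).trans ?_
    have h1 : (k + 1 : ℝ) ≤ 2 * v := by linarith
    have h2 : √(k + 1 : ℝ) ≤ 2 * √v := by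
      have h3 : √(k + 1 : ℝ) ≤ √(4 * v) := Real.sqrt_le_sqrt (by linarith)
      rwa [Real.sqrt_mul (by norm_num), show (4 : ℝ) = 2 ^ 2 by norm_num,
        Real.sqrt_sq (by norm_num)] at h3
    have hsv : 0 < √v := Real.sqrt_pos.2 hv0
    have hsk : 0 < √(k + 1 : ℝ) := Real.sqrt_pos.2 hk
    rw [div_le_div_iff₀ (by positivity) (by positivity)]
    have h3 : (k + 1 : ℝ) * √(k + 1 : ℝ) ≤ (2 * v) * (2 * √v) :=
      mul_le_mul h1 h2 hsk.le (by positivity)
    nlinarith

section wts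

variable {I Θ : Type} [Fintype I] [DecidableEq Θ] {a : I → ℤ} {ty : I → Θ} {k : Θ → ℕ} {v : ℝ}
  {vv : Θ → ℝ} {A : ℝ}

lemma Gau.approx (U : Gau a ty k vv A) (T : Set Θ) {x : ℝ} (hx : |x| ≤ Real.pi / 2) :
    |∑ i ∈ qq ty T, Real.cos (a i * x) - ∑ i ∈ qq ty T, Real.exp (-(vv (ty i) * x ^ 2 / 2))| ≤
      ∑ i ∈ qq ty T, A * k (ty i) * x ^ 4 * Real.exp (-(((k (ty i) : ℝ) - 1) * x ^ 2 / 10)) := by
  have h1 : ∑ i ∈ qq ty T, Real.cos (a i * x) -
      ∑ i ∈ qq ty T, Real.exp (-(vv (ty i) * x ^ 2 / 2)) =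
      (∑ θ ∈ (qq ty T).image ty, (∑ i ∈ fib ty θ, Complex.exp (((a i : ℝ) * x : ℝ) * Complex.I) -
        (((fib ty θ).card * Real.exp (-(vv θ * x ^ 2 / 2)) : ℝ) : ℂ))).re := by
    rw [Complex.re_sum, sum_qq, sum_qq, ← sum_sub_distrib]
    refine sum_congr rfl fun θ _ => ?_
    rw [Complex.sub_re, Complex.re_sum, Complex.ofReal_re, ← nsmul_eq_mul, ← sum_const]
    congr 1
    · refine sum_congr rfl fun i _ => ?_
      rw [Complex.exp_ofReal_mul_I_re]
    · refine sum_congr rfl fun i hi => ?_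
      rw [mem_fib.1 hi]
  rw [h1]
  refine (Complex.abs_re_le_norm _).trans ((norm_sum_le _ _).trans ?_)
  rw [sum_qq]
  refine sum_le_sum fun θ _ => (U.gau θ x hx).trans (le_of_eq ?_)
  rw [← nsmul_eq_mul, ← sum_const]
  refine sum_congr rfl fun i hi => ?_
  rw [mem_fib.1 hi]

lemma near_bound (hA : 0 ≤ A) (k : ℕ) {x : ℝ} (hx : |x| ≤ Real.pi / 2) :
    A * k * x ^ 4 * Real.exp (-(((k : ℝ) - 1) * x ^ 2 / 10)) ≤ 250 * A * hb k x := by
  have hpi := Real.pi_pos
  have hpi2 : Real.pi ^ 2 ≤ 10 := by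
    have := Real.pi_lt_d2
    nlinarith
  set s := Real.sin x ^ 2 with hs
  have hs0 : 0 ≤ s := sq_nonneg _
  have h1 : x ^ 2 ≤ 5 / 2 * s := by
    have h2 := sin_lower hx
    have h3 : (4 : ℝ) / 10 ≤ 4 / Real.pi ^ 2 :=
      div_le_div_of_nonneg_left (by norm_num) (by positivity) hpi2
    have : (4 : ℝ) / 10 * x ^ 2 ≤ 4 / Real.pi ^ 2 * x ^ 2 :=
      mul_le_mul_of_nonneg_right h3 (sq_nonneg _)
    linarith
  have h2 : s ≤ x ^ 2 := by
    rw [hs, ← sq_abs, ← sq_abs x]
    exact pow_le_pow_left₀ (abs_nonneg _) (Real.abs_sin_le_abs) 2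
  have h3 : x ^ 2 ≤ 5 / 2 := h1.trans (by
    have := sin_sq_le x
    linarith)
  have hk : (0 : ℝ) ≤ k := Nat.cast_nonneg _
  have h4 : Real.exp (-(((k : ℝ) - 1) * x ^ 2 / 10)) ≤ 2 * Real.exp (-((k : ℝ) * s / 10)) := by
    have e1 : Real.exp (-(((k : ℝ) - 1) * x ^ 2 / 10)) =
        Real.exp (x ^ 2 / 10) * Real.exp (-((k : ℝ) * x ^ 2 / 10)) := by
      rw [← Real.exp_add]
      congr 1
      ring
    rw [e1]
    apply mul_le_mul _ _ (Real.exp_pos _).le (by norm_num)
    · have h7 : Real.exp (x ^ 2 / 10) ≤ Real.exp (1 / 2) := Real.exp_le_exp.2 (by linarith)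
      have h8 : Real.exp (1 / 2) * Real.exp (1 / 2) < 4 := by
        rw [← Real.exp_add]
        norm_num
        exact Real.exp_one_lt_d9.trans (by norm_num)
      have h9 : 0 < Real.exp (1 / 2) := Real.exp_pos _
      nlinarith
    · apply Real.exp_le_exp.2
      have := mul_le_mul_of_nonneg_left h2 hk
      linarith
  have h5 : x ^ 4 ≤ 25 / 4 * (s * s) := by
    have e1 : x ^ 4 = x ^ 2 * x ^ 2 := by ring
    rw [e1]
    calc x ^ 2 * x ^ 2 ≤ (5 / 2 * s) * (5 / 2 * s) := mul_le_mul h1 h1 (sq_nonneg _) (by positivity)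
      _ = _ := by ring
  have h6 : (k : ℝ) * s * Real.exp (-((k : ℝ) * s / 20)) ≤ 20 := mul_exp_le _ (by norm_num)
  have h7 : Real.exp (-((k : ℝ) * s / 10)) =
      Real.exp (-((k : ℝ) * s / 20)) * Real.exp (-((k : ℝ) * s / 20)) := by
    rw [← Real.exp_add]
    congr 1
    ring
  have hE : 0 < Real.exp (-((k : ℝ) * s / 20)) := Real.exp_pos _
  have hx4 : (0 : ℝ) ≤ x ^ 4 := by positivity
  calc A * k * x ^ 4 * Real.exp (-(((k : ℝ) - 1) * x ^ 2 / 10))
      ≤ A * k * (25 / 4 * (s * s)) * (2 * Real.exp (-((k : ℝ) * s / 10))) := by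
        apply mul_le_mul _ h4 (Real.exp_pos _).le (by positivity)
        exact mul_le_mul_of_nonneg_left h5 (by positivity)
    _ = A * (25 / 2) * (((k : ℝ) * s * Real.exp (-((k : ℝ) * s / 20))) *
          (s * Real.exp (-((k : ℝ) * s / 20)))) := by
        rw [h7]
        ring
    _ ≤ A * (25 / 2) * (20 * (s * Real.exp (-((k : ℝ) * s / 20)))) := by
        apply mul_le_mul_of_nonneg_left _ (by positivity)
        exact mul_le_mul_of_nonneg_right h6 (by positivity)
    _ = 250 * A * hb k x := by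
        rw [hb]
        ring

/-- **The local limit theorem.** -/
theorem lclt (hA : 0 ≤ A) (W : Wts a ty k v) (U : Gau a ty k vv A) (T : Set Θ) :
    |((cn a {i | ty i ∈ T} 0 : ℝ) + cn a {i | ty i ∈ T} (-1)) - ∑ i ∈ qq ty T, Gs (vv (ty i))| ≤
      ∑ i ∈ qq ty T, (5040 * (500 * A + 1) + 64) /
        ((k (ty i) + 1 : ℝ) * √(k (ty i) + 1 : ℝ)) := by
  classical
  have hpi := Real.pi_pos
  have hpi3 := Real.pi_gt_three
  set F : ℝ → ℝ := fun x => ∑ i ∈ qq ty T, Real.cos (a i * x) * (1 + Real.cos x) with hF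
  set Ga : ℝ → ℝ := fun x => ∑ i ∈ qq ty T, 2 * Real.exp (-(vv (ty i) * x ^ 2 / 2)) with hGa
  set H : ℝ → ℝ := fun x => ∑ i ∈ qq ty T, (500 * A + 1) * hb (k (ty i)) x with hH
  have hFc : Continuous F := by
    rw [hF]; fun_prop
  have hGc : Continuous Ga := by
    rw [hGa]; fun_prop
  have hHc : Continuous H := by
    rw [hH]
    exact continuous_finsetSum _ fun i _ => continuous_const.mul (hb_cont _)
  have h1 : ∫ x in (-Real.pi)..Real.pi, F x =
      2 * Real.pi * ((cn a {i | ty i ∈ T} 0 : ℝ) + cn a {i | ty i ∈ T} (-1)) := by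
    rw [hF, intervalIntegral.integral_finsetSum]
    · simp_rw [Pool.Agent.Y67.MW.C1.int_cos2]
      rw [← mul_sum, sum_add_distrib, sum_add_distrib, ← mul_sum, ← mul_sum]
      have e1 := cn_eq (a := a) (ty := ty) T 0
      have e2 := cn_eq (a := a) (ty := ty) T (-1)
      have e3 := cn_eq (a := a) (ty := ty) T 1
      rw [← e1, ← e2, ← e3, ← W.cn_neg T 1]
      ring
    · intro i _
      apply Continuous.intervalIntegrable
      fun_prop
  -- near the origin
  have near : ∀ x ∈ Set.Ioc (-(Real.pi / 2)) (Real.pi / 2), ‖F x - Ga x‖ ≤ H x := by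
    rintro x ⟨hx1, hx2⟩
    have hx : |x| ≤ Real.pi / 2 := abs_le.2 ⟨hx1.le, hx2⟩
    have hcos : 0 ≤ Real.cos x := Real.cos_nonneg_of_mem_Icc ⟨hx1.le, hx2⟩
    have hcos1 := Real.cos_le_one x
    have e1 : F x - Ga x = (∑ i ∈ qq ty T, Real.cos (a i * x) -
        ∑ i ∈ qq ty T, Real.exp (-(vv (ty i) * x ^ 2 / 2))) * (1 + Real.cos x) -
        ∑ i ∈ qq ty T, Real.exp (-(vv (ty i) * x ^ 2 / 2)) * (1 - Real.cos x) := by
      rw [hF, hGa]
      dsimp only
      rw [← sum_mul, ← mul_sum, ← sum_mul]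
      ring
    rw [Real.norm_eq_abs, e1]
    refine (abs_sub _ _).trans ?_
    have t1 : |(∑ i ∈ qq ty T, Real.cos (a i * x) -
        ∑ i ∈ qq ty T, Real.exp (-(vv (ty i) * x ^ 2 / 2))) * (1 + Real.cos x)| ≤
        ∑ i ∈ qq ty T, 500 * A * hb (k (ty i)) x := by
      rw [abs_mul, abs_of_nonneg (by linarith : 0 ≤ 1 + Real.cos x)]
      have h2 := U.approx T hx
      have h3 : ∑ i ∈ qq ty T, A * k (ty i) * x ^ 4 *
          Real.exp (-(((k (ty i) : ℝ) - 1) * x ^ 2 / 10)) ≤
          ∑ i ∈ qq ty T, 250 * A * hb (k (ty i)) x :=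
        sum_le_sum fun i _ => near_bound hA _ hx
      have h4 : 0 ≤ ∑ i ∈ qq ty T, 250 * A * hb (k (ty i)) x :=
        sum_nonneg fun i _ => mul_nonneg (by positivity) (hb_nonneg _ _)
      calc _ ≤ (∑ i ∈ qq ty T, 250 * A * hb (k (ty i)) x) * 2 :=
            mul_le_mul (h2.trans h3) (by linarith) (by linarith) h4
        _ = _ := by
          rw [sum_mul]
          refine sum_congr rfl fun i _ => ?_
          ring
    have t2 : |∑ i ∈ qq ty T, Real.exp (-(vv (ty i) * x ^ 2 / 2)) * (1 - Real.cos x)| ≤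
        ∑ i ∈ qq ty T, hb (k (ty i)) x := by
      rw [abs_of_nonneg (sum_nonneg fun i _ => mul_nonneg (Real.exp_pos _).le (by linarith))]
      refine sum_le_sum fun i _ => ?_
      rw [hb, mul_comm]
      have h2 : 1 - Real.cos x ≤ Real.sin x ^ 2 := by
        have := Real.sin_sq_add_cos_sq x
        nlinarith
      refine mul_le_mul h2 ?_ (Real.exp_pos _).le (sq_nonneg _)
      apply Real.exp_le_exp.2
      have h3 : Real.sin x ^ 2 ≤ x ^ 2 := by
        rw [← sq_abs, ← sq_abs x]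
        exact pow_le_pow_left₀ (abs_nonneg _) (Real.abs_sin_le_abs) 2
      have h4 := U.vk (ty i)
      have hk : (0 : ℝ) ≤ k (ty i) := Nat.cast_nonneg _
      have h5 : (k (ty i) : ℝ) * Real.sin x ^ 2 ≤ vv (ty i) * x ^ 2 :=
        mul_le_mul h4 h3 (sq_nonneg _) (hk.trans h4)
      have h6 : 0 ≤ (k (ty i) : ℝ) * Real.sin x ^ 2 := by positivity
      linarith
    refine (add_le_add t1 t2).trans (le_of_eq ?_)
    rw [hH]
    dsimp only
    rw [← sum_add_distrib]
    refine sum_congr rfl fun i _ => ?_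
    ring
  -- away from the origin
  have far : ∀ x : ℝ, Real.cos x ≤ 0 → ‖F x‖ ≤ H x := by
    intro x hx
    have hcos1 := Real.neg_one_le_cos x
    have e1 : F x = (∑ i ∈ qq ty T, Real.cos (a i * x)) * (1 + Real.cos x) := by
      rw [hF]
      dsimp only
      rw [← sum_mul]
    rw [e1, Real.norm_eq_abs, abs_mul, abs_of_nonneg (by linarith : 0 ≤ 1 + Real.cos x)]
    have h2 := W.norm_le T x
    have h3 : 1 + Real.cos x ≤ Real.sin x ^ 2 := by
      have := Real.sin_sq_add_cos_sq x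
      nlinarith
    have h4 : 0 ≤ ∑ i ∈ qq ty T, gg x ^ k (ty i) :=
      sum_nonneg fun i _ => pow_nonneg (gg_nonneg x) _
    refine (mul_le_mul h2 h3 (by linarith) h4).trans ?_
    rw [sum_mul, hH]
    refine sum_le_sum fun i _ => ?_
    have h5 : gg x ^ k (ty i) * Real.sin x ^ 2 ≤ hb (k (ty i)) x := by
      rw [hb, mul_comm]
      refine mul_le_mul_of_nonneg_left ?_ (sq_nonneg _)
      have h6 : gg x ^ k (ty i) ≤ Real.exp (-(Real.sin x ^ 2 / 3)) ^ k (ty i) :=
        pow_le_pow_left₀ (gg_nonneg x) (gg_le x) _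
      refine h6.trans ?_
      rw [← Real.exp_nat_mul]
      apply Real.exp_le_exp.2
      have : 0 ≤ (k (ty i) : ℝ) * Real.sin x ^ 2 := by positivity
      nlinarith
    have h6 := hb_nonneg (k (ty i)) x
    nlinarith
  -- the integrals
  have hii : ∀ (f : ℝ → ℝ) (_ : Continuous f) (r s : ℝ), IntervalIntegrable f volume r s :=
    fun f hf r s => hf.intervalIntegrable _ _
  have i1 : ‖∫ x in (-Real.pi)..(-(Real.pi / 2)), F x‖ ≤ ∫ x in (-Real.pi)..(-(Real.pi / 2)), H x := by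
    apply intervalIntegral.norm_integral_le_of_norm_le (by linarith) _ (hii H hHc _ _)
    refine Filter.Eventually.of_forall fun x hx => far x ?_
    rw [← Real.cos_neg]
    exact Real.cos_nonpos_of_pi_div_two_le_of_le (by linarith [hx.2]) (by linarith [hx.1])
  have i2 : ‖∫ x in (Real.pi / 2)..Real.pi, F x‖ ≤ ∫ x in (Real.pi / 2)..Real.pi, H x := by
    apply intervalIntegral.norm_integral_le_of_norm_le (by linarith) _ (hii H hHc _ _)
    refine Filter.Eventually.of_forall fun x hx => far x ?_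
    exact Real.cos_nonpos_of_pi_div_two_le_of_le (by linarith [hx.1]) (by linarith [hx.2])
  have i3 : ‖∫ x in (-(Real.pi / 2))..(Real.pi / 2), (F x - Ga x)‖ ≤
      ∫ x in (-(Real.pi / 2))..(Real.pi / 2), H x := by
    apply intervalIntegral.norm_integral_le_of_norm_le (by linarith) _ (hii H hHc _ _)
    exact Filter.Eventually.of_forall fun x hx => near x hx
  rw [Real.norm_eq_abs] at i1 i2 i3
  have a1 := intervalIntegral.integral_add_adjacent_intervals
    (hii F hFc (-Real.pi) (-(Real.pi / 2))) (hii F hFc (-(Real.pi / 2)) (Real.pi / 2))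
  have a2 := intervalIntegral.integral_add_adjacent_intervals
    (hii F hFc (-Real.pi) (Real.pi / 2)) (hii F hFc (Real.pi / 2) Real.pi)
  have b1 := intervalIntegral.integral_add_adjacent_intervals
    (hii H hHc (-Real.pi) (-(Real.pi / 2))) (hii H hHc (-(Real.pi / 2)) (Real.pi / 2))
  have b2 := intervalIntegral.integral_add_adjacent_intervals
    (hii H hHc (-Real.pi) (Real.pi / 2)) (hii H hHc (Real.pi / 2) Real.pi)
  have a3 : ∫ x in (-(Real.pi / 2))..(Real.pi / 2), (F x - Ga x) =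
      (∫ x in (-(Real.pi / 2))..(Real.pi / 2), F x) -
        ∫ x in (-(Real.pi / 2))..(Real.pi / 2), Ga x :=
    intervalIntegral.integral_sub (hii F hFc _ _) (hii Ga hGc _ _)
  have a4 : ∫ x in (-(Real.pi / 2))..(Real.pi / 2), Ga x = ∑ i ∈ qq ty T,
      ∫ x in (-(Real.pi / 2))..(Real.pi / 2), 2 * Real.exp (-(vv (ty i) * x ^ 2 / 2)) := by
    rw [hGa, intervalIntegral.integral_finsetSum]
    intro i _
    apply Continuous.intervalIntegrable
    fun_prop
  have b3 : ∫ x in (-Real.pi)..Real.pi, H x ≤ ∑ i ∈ qq ty T, (500 * A + 1) * (5040 /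
      ((k (ty i) + 1 : ℝ) * √(k (ty i) + 1 : ℝ))) := by
    rw [hH, intervalIntegral.integral_finsetSum]
    · refine sum_le_sum fun i _ => ?_
      rw [intervalIntegral.integral_const_mul]
      exact mul_le_mul_of_nonneg_left (int_hb _) (by positivity)
    · intro i _
      exact hii _ (continuous_const.mul (hb_cont _)) _ _
  have c1 : |2 * Real.pi * ∑ i ∈ qq ty T, Gs (vv (ty i)) -
      ∫ x in (-(Real.pi / 2))..(Real.pi / 2), Ga x| ≤
      ∑ i ∈ qq ty T, 64 / ((k (ty i) + 1 : ℝ) * √(k (ty i) + 1 : ℝ)) := by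
    rw [a4, mul_sum, ← sum_sub_distrib]
    refine (abs_sum_le_sum_abs _ _).trans (sum_le_sum fun i _ => ?_)
    exact int_gauss' (U.vk _) (U.vz _)
  set P := ((cn a {i | ty i ∈ T} 0 : ℝ) + cn a {i | ty i ∈ T} (-1)) with hP
  set Q := ∑ i ∈ qq ty T, Gs (vv (ty i)) with hQ
  have key : |2 * Real.pi * P - 2 * Real.pi * Q| ≤ ∑ i ∈ qq ty T, (5040 * (500 * A + 1) + 64) /
        ((k (ty i) + 1 : ℝ) * √(k (ty i) + 1 : ℝ)) := by
    have e : ∑ i ∈ qq ty T, (5040 * (500 * A + 1) + 64) /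
        ((k (ty i) + 1 : ℝ) * √(k (ty i) + 1 : ℝ)) =
        ∑ i ∈ qq ty T, (500 * A + 1) * (5040 /
          ((k (ty i) + 1 : ℝ) * √(k (ty i) + 1 : ℝ))) +
        ∑ i ∈ qq ty T, 64 / ((k (ty i) + 1 : ℝ) * √(k (ty i) + 1 : ℝ)) := by
      rw [← sum_add_distrib]
      refine sum_congr rfl fun i _ => ?_
      ring
    rw [e, ← h1]
    rw [a3] at i3
    rw [abs_le] at i1 i2 i3 c1 ⊢
    constructor <;> linarith [i1.1, i1.2, i2.1, i2.2, i3.1, i3.2, c1.1, c1.2]
  have hnn : 0 ≤ ∑ i ∈ qq ty T, (5040 * (500 * A + 1) + 64) /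
        ((k (ty i) + 1 : ℝ) * √(k (ty i) + 1 : ℝ)) :=
    sum_nonneg fun i _ => by positivity
  rw [← mul_sub, abs_mul, abs_of_pos (by positivity : 0 < 2 * Real.pi)] at key
  have h5 := abs_nonneg (P - Q)
  nlinarith

end wts

end Pool.Agent.H61.LS
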