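import Pool.Agent.H61.LS.Clt2

/-!
# A local limit theorem for the weights of representations of `sl(2)`, III
-/

set_option autoImplicit false
set_option linter.unusedSectionVars false

open Finset MeasureTheory

namespace Pool.Agent.H61.LS

open Pool.Agent.K7.H8.TH

/-! ### Concentration -/

lemma exists_chernoff {I : Type*} [Fintype I] (w : I → ℝ) (h : ∑ i, w i < 0) :
    ∃ l : ℝ, 0 < l ∧ ∑ i, Real.exp (l * w i) < Fintype.card I := by
  set S := ∑ i, w i with hS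
  set Q := ∑ i, w i ^ 2 with hQ
  set B := 1 + ∑ i, |w i| with hB
  have hQ0 : 0 ≤ Q := sum_nonneg fun i _ => sq_nonneg _
  have hB0 : 0 ≤ ∑ i, |w i| := sum_nonneg fun i _ => abs_nonneg _
  have hBp : 0 < B := by linarith
  refine ⟨min (1 / B) (-S / (2 * (Q + 1))), ?_, ?_⟩
  · refine lt_min (by positivity) (div_pos (by linarith) (by positivity))
  set l := min (1 / B) (-S / (2 * (Q + 1))) with hl
  have hl0 : 0 < l := lt_min (by positivity) (div_pos (by linarith) (by positivity))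
  have hl1 : l * B ≤ 1 := by
    have := min_le_left (1 / B) (-S / (2 * (Q + 1)))
    rw [← hl] at this
    rwa [le_div_iff₀ hBp] at this
  have hl2 : l * (2 * (Q + 1)) ≤ -S := by
    have := min_le_right (1 / B) (-S / (2 * (Q + 1)))
    rw [← hl] at this
    rwa [le_div_iff₀ (by positivity)] at this
  have h1 : ∀ i, Real.exp (l * w i) ≤ 1 + l * w i + l ^ 2 * w i ^ 2 := by
    intro i
    have h2 : |l * w i| ≤ 1 := by
      rw [abs_mul, abs_of_pos hl0]
      have h3 : |w i| ≤ ∑ i, |w i| :=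
        single_le_sum (f := fun i => |w i|) (fun _ _ => abs_nonneg _) (mem_univ i)
      calc l * |w i| ≤ l * B := mul_le_mul_of_nonneg_left (by linarith) hl0.le
        _ ≤ 1 := hl1
    have h3 := (abs_le.1 (Real.abs_exp_sub_one_sub_id_le h2)).2
    rw [mul_pow] at h3
    linarith
  calc ∑ i, Real.exp (l * w i) ≤ ∑ i, (1 + l * w i + l ^ 2 * w i ^ 2) :=
        sum_le_sum fun i _ => h1 i
    _ = Fintype.card I + l * S + l ^ 2 * Q := by
        rw [sum_add_distrib, sum_add_distrib, ← mul_sum, ← mul_sum, sum_const, card_univ,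
          nsmul_eq_mul, mul_one]
    _ < Fintype.card I := by
        have h4 : l * (S + l * Q) < 0 := by
          apply mul_neg_of_pos_of_neg hl0
          nlinarith
        nlinarith

/-- A generating function is concentrated near `σ2`. -/
structure Conc (b σ2 : ℝ) (M : ℝ → ℝ) : Prop where
  nn : ∀ l, 0 ≤ M l
  up : ∀ τ, σ2 < τ → ∃ l ρ : ℝ, 0 < l ∧ 0 < ρ ∧ ρ < b ∧ M l * Real.exp (-(l * τ)) ≤ ρ
  lo : ∀ τ, τ < σ2 → ∃ l ρ : ℝ, 0 < l ∧ 0 < ρ ∧ ρ < b ∧ M (-l) * Real.exp (l * τ) ≤ ρ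

lemma conc_base {I : Type*} [Fintype I] [Nonempty I] (v : I → ℝ) {σ2 : ℝ}
    (h : ∑ i, v i = σ2 * Fintype.card I) :
    Conc (Fintype.card I) σ2 (fun l => ∑ i, Real.exp (l * v i)) := by
  have hc : (0 : ℝ) < Fintype.card I := by exact_mod_cast Fintype.card_pos
  refine ⟨fun l => sum_nonneg fun i _ => (Real.exp_pos _).le, fun τ hτ => ?_, fun τ hτ => ?_⟩
  · obtain ⟨l, hl, h1⟩ := exists_chernoff (fun i => v i - τ) (by
      rw [sum_sub_distrib, h, sum_const, card_univ, nsmul_eq_mul]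
      nlinarith)
    refine ⟨l, ∑ i, Real.exp (l * (v i - τ)), hl, ?_, h1, le_of_eq ?_⟩
    · exact sum_pos (fun i _ => Real.exp_pos _) univ_nonempty
    · rw [sum_mul]
      refine sum_congr rfl fun i _ => ?_
      rw [← Real.exp_add]
      congr 1
      ring
  · obtain ⟨l, hl, h1⟩ := exists_chernoff (fun i => τ - v i) (by
      rw [sum_sub_distrib, h, sum_const, card_univ, nsmul_eq_mul]
      nlinarith)
    refine ⟨l, ∑ i, Real.exp (l * (τ - v i)), hl, ?_, h1, le_of_eq ?_⟩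
    · exact sum_pos (fun i _ => Real.exp_pos _) univ_nonempty
    · rw [sum_mul]
      refine sum_congr rfl fun i _ => ?_
      rw [← Real.exp_add]
      congr 1
      ring

lemma Gs_le_one {v : ℝ} (h : v = 0 ∨ 1 ≤ v) : Gs v ≤ 1 := by
  rcases h with h | h
  · rw [h, Gs]; simp
  · rw [Gs, Real.sqrt_le_left zero_le_one]
    have hpi := Real.pi_gt_three
    rw [one_pow, div_le_one (by positivity)]
    nlinarith

lemma Gs_mul {m : ℝ} (hm : 0 < m) (u : ℝ) : Gs (u * m) * √m = Gs u := by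
  rw [Gs, Gs, ← Real.sqrt_mul' _ hm.le]
  congr 1
  rcases eq_or_ne u 0 with h | h
  · rw [h]; simp
  · have hpi := Real.pi_pos.ne'
    field_simp

lemma Gs_cont {u : ℝ} (hu : 0 < u) : ContinuousAt Gs u := by
  unfold Gs
  have hpi := Real.pi_pos
  apply Real.continuous_sqrt.continuousAt.comp
  apply ContinuousAt.div continuousAt_const (by fun_prop)
  positivity

section main

/-- The sum of the small terms. -/
theorem sum_small (b : ℝ) (G : ℝ) (hG : 0 < G) (hGb : G < b) (M : ℕ) : ∃ C : ℝ, 0 < C ∧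
    ∀ m : ℕ, 0 < m → ∀ (I Θ : Type) [Fintype I] [DecidableEq Θ] (ty : I → Θ)
      (k : Θ → ℕ) (T : Set Θ),
      ∑ i, (1 / 2 : ℝ) ^ k (ty i) ≤ G ^ m → b ^ m ≤ (qq ty T).card * ((m : ℝ) + 2) ^ M →
      (∑ i ∈ qq ty T, 1 / ((k (ty i) + 1 : ℝ) * √(k (ty i) + 1 : ℝ))) * (m * √m) ≤
        C * (qq ty T).card := by
  have hb : 0 < b := hG.trans hGb
  set s := √(G / b) with hs
  have hs0 : 0 < s := Real.sqrt_pos.2 (div_pos hG hb)
  have hs1 : s < 1 := by
    rw [hs, Real.sqrt_lt' one_pos, one_pow, div_lt_one hb]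
    exact hGb
  have hss : s ^ 2 = G / b := Real.sq_sqrt (div_pos hG hb).le
  obtain ⟨A, hA, hA'⟩ := phi_le hs0 hs1
  obtain ⟨B, hB, hB'⟩ := poly_exp_bound M hs0 hs1
  refine ⟨A + B, by positivity, ?_⟩
  intro m hm I Θ _ _ ty k T hsum hq
  have hm' : (0 : ℝ) < m := by exact_mod_cast hm
  have hsm : 0 < √(m : ℝ) := Real.sqrt_pos.2 hm'
  have h1 : (∑ i ∈ qq ty T, (1 / 2 : ℝ) ^ k (ty i) * (s ^ m)⁻¹) * (m * √m) ≤
      B * (qq ty T).card := by
    rw [← sum_mul]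
    have h2 : ∑ i ∈ qq ty T, (1 / 2 : ℝ) ^ k (ty i) ≤ G ^ m :=
      (sum_le_sum_of_subset_of_nonneg (subset_univ _) fun _ _ _ => by positivity).trans hsum
    have h3 : G ^ m = b ^ m * (s ^ m * s ^ m) := by
      rw [← pow_add, ← two_mul, pow_mul, hss, div_pow]
      field_simp
    have h4 : (∑ i ∈ qq ty T, (1 / 2 : ℝ) ^ k (ty i)) * (s ^ m)⁻¹ ≤ b ^ m * s ^ m := by
      rw [mul_inv_le_iff₀ (by positivity)]
      refine h2.trans (le_of_eq ?_)
      rw [h3]
      ring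
    have h5 := hB' m
    calc (∑ i ∈ qq ty T, (1 / 2 : ℝ) ^ k (ty i)) * (s ^ m)⁻¹ * (m * √m)
        ≤ b ^ m * s ^ m * (m * √m) := mul_le_mul_of_nonneg_right h4 (by positivity)
      _ ≤ ((qq ty T).card * ((m : ℝ) + 2) ^ M) * s ^ m * (m * √m) := by
          gcongr
      _ = (((m : ℝ) + 2) ^ M * s ^ m * (m * √m)) * (qq ty T).card := by ring
      _ ≤ B * (qq ty T).card := mul_le_mul_of_nonneg_right h5 (Nat.cast_nonneg _)
  have h3 : ∑ i ∈ qq ty T, 1 / ((k (ty i) + 1 : ℝ) * √(k (ty i) + 1 : ℝ)) ≤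
      ((qq ty T).card * (A / (m * √m)) +
        ∑ i ∈ qq ty T, (1 / 2 : ℝ) ^ k (ty i) * (s ^ m)⁻¹) := by
    rw [← nsmul_eq_mul, ← sum_const, ← sum_add_distrib]
    exact sum_le_sum fun i _ => (hA' m hm (k (ty i))).1
  have h4 : (qq ty T).card * (A / (m * √m)) * (m * √m) = A * (qq ty T).card := by
    field_simp
  calc (∑ i ∈ qq ty T, 1 / ((k (ty i) + 1 : ℝ) * √(k (ty i) + 1 : ℝ))) * (m * √m)
      ≤ ((qq ty T).card * (A / (m * √m)) +
          ∑ i ∈ qq ty T, (1 / 2 : ℝ) ^ k (ty i) * (s ^ m)⁻¹) * (m * √m) :=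
        mul_le_mul_of_nonneg_right h3 (by positivity)
    _ = (qq ty T).card * (A / (m * √m)) * (m * √m) +
        (∑ i ∈ qq ty T, (1 / 2 : ℝ) ^ k (ty i) * (s ^ m)⁻¹) * (m * √m) := by ring
    _ ≤ A * (qq ty T).card + B * (qq ty T).card := by
        rw [h4]
        linarith
    _ = _ := by ring

/-- The variances are close to the typical one. -/
theorem sum_typ {b σ2 : ℝ} (hb : 0 < b) (hσ : 0 < σ2) {MX MZ : ℝ → ℝ} (hX : Conc b σ2 MX)
    (hZ : ∀ l, 0 ≤ MZ l) (M : ℕ) {ε : ℝ} (hε : 0 < ε) : ∃ m₀ : ℕ,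
    ∀ m : ℕ, m₀ ≤ m → 0 < m → ∀ (I Θ : Type) [Fintype I] [DecidableEq Θ] (ty : I → Θ)
      (vv : Θ → ℝ) (T : Set Θ), (∀ θ, vv θ = 0 ∨ 1 ≤ vv θ) →
      (∀ l, ∑ i, Real.exp (l * vv (ty i)) = MZ l * MX l ^ m) →
      b ^ m ≤ (qq ty T).card * ((m : ℝ) + 2) ^ M →
      (∑ i ∈ qq ty T, |Gs (vv (ty i)) - Gs (σ2 * m)|) * √m ≤ ε * (qq ty T).card := by
  obtain ⟨δ, hδ, hδ'⟩ := (Metric.continuousAt_iff.1 (Gs_cont hσ)) (ε / 2) (by positivity)
  obtain ⟨l1, ρ1, hl1, hρ1, hρb1, h1⟩ := hX.up (σ2 + δ) (by linarith)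
  obtain ⟨l2, ρ2, hl2, hρ2, hρb2, h2⟩ := hX.lo (σ2 - δ) (by linarith)
  set ρ := max ρ1 ρ2 with hρ
  have hρ0 : 0 < ρ := lt_max_of_lt_left hρ1
  have hρb : ρ < b := max_lt hρb1 hρb2
  set s := ρ / b with hs
  have hs0 : 0 < s := div_pos hρ0 hb
  have hs1 : s < 1 := by rw [hs, div_lt_one hb]; exact hρb
  obtain ⟨B, hB, hB'⟩ := poly_exp_bound M hs0 hs1
  set D : ℝ := (1 + Gs σ2) * (MZ l1 + MZ (-l2)) with hD
  have hD0 : 0 ≤ D := mul_nonneg (by linarith [Gs_nonneg σ2]) (add_nonneg (hZ _) (hZ _))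
  obtain ⟨m₀, hm₀⟩ := exists_nat_ge (D * B / (ε / 2))
  refine ⟨m₀, fun m hmm hm I Θ _ _ ty vv T hv hsum hq => ?_⟩
  have hm' : (0 : ℝ) < m := by exact_mod_cast hm
  have hm1 : (1 : ℝ) ≤ m := by exact_mod_cast hm
  have hsm : 0 < √(m : ℝ) := Real.sqrt_pos.2 hm'
  have hsm1 : 1 ≤ √(m : ℝ) := by rw [Real.one_le_sqrt]; exact hm1
  -- one term
  have hterm : ∀ i, |Gs (vv (ty i)) - Gs (σ2 * m)| ≤ (ε / 2) / √m +
      (1 + Gs σ2) * (Real.exp (l1 * vv (ty i)) * Real.exp (-(l1 * (σ2 + δ))) ^ m +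
        Real.exp (-l2 * vv (ty i)) * Real.exp (l2 * (σ2 - δ)) ^ m) := by
    intro i
    have hg : Gs (σ2 * m) = Gs σ2 / √m := by
      rw [eq_div_iff hsm.ne']
      exact Gs_mul hm' σ2
    have hgi : Gs (vv (ty i)) = Gs (vv (ty i) / m) / √m := by
      rw [eq_div_iff hsm.ne']
      have := Gs_mul hm' (vv (ty i) / m)
      rwa [div_mul_cancel₀ _ hm'.ne'] at this
    have e1 : Real.exp (l1 * vv (ty i)) * Real.exp (-(l1 * (σ2 + δ))) ^ m =
        Real.exp (l1 * (vv (ty i) - (σ2 + δ) * m)) := by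
      rw [← Real.exp_nat_mul, ← Real.exp_add]
      congr 1
      ring
    have e2 : Real.exp (-l2 * vv (ty i)) * Real.exp (l2 * (σ2 - δ)) ^ m =
        Real.exp (l2 * ((σ2 - δ) * m - vv (ty i))) := by
      rw [← Real.exp_nat_mul, ← Real.exp_add]
      congr 1
      ring
    rw [e1, e2]
    have p1 := Real.exp_pos (l1 * (vv (ty i) - (σ2 + δ) * m))
    have p2 := Real.exp_pos (l2 * ((σ2 - δ) * m - vv (ty i)))
    have hG := Gs_nonneg σ2
    by_cases hnear : |vv (ty i) / m - σ2| < δ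
    · have h3 := hδ' (show dist (vv (ty i) / m) σ2 < δ from hnear)
      rw [Real.dist_eq] at h3
      have h4 : |Gs (vv (ty i)) - Gs (σ2 * m)| ≤ (ε / 2) / √m := by
        rw [hg, hgi, ← sub_div, abs_div, abs_of_pos hsm]
        exact div_le_div_of_nonneg_right h3.le hsm.le
      have h5 : 0 ≤ (1 + Gs σ2) * (Real.exp (l1 * (vv (ty i) - (σ2 + δ) * m)) +
          Real.exp (l2 * ((σ2 - δ) * m - vv (ty i)))) := by positivity
      linarith
    · have h3 : |Gs (vv (ty i)) - Gs (σ2 * m)| ≤ 1 + Gs σ2 := by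
        refine (abs_sub _ _).trans ?_
        rw [abs_of_nonneg (Gs_nonneg _), abs_of_nonneg (Gs_nonneg _)]
        refine add_le_add (Gs_le_one (hv _)) ?_
        rw [hg]
        exact div_le_self (Gs_nonneg _) hsm1
      have h4 : 1 ≤ Real.exp (l1 * (vv (ty i) - (σ2 + δ) * m)) +
          Real.exp (l2 * ((σ2 - δ) * m - vv (ty i))) := by
        push Not at hnear
        rcases le_abs.1 hnear with h | h
        · have h5 : (σ2 + δ) * m ≤ vv (ty i) := by
            have h6 : σ2 + δ ≤ vv (ty i) / m := by linarith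
            rwa [le_div_iff₀ hm'] at h6
          have h6 : 1 ≤ Real.exp (l1 * (vv (ty i) - (σ2 + δ) * m)) :=
            Real.one_le_exp (mul_nonneg hl1.le (by linarith))
          linarith
        · have h5 : vv (ty i) ≤ (σ2 - δ) * m := by
            have h6 : vv (ty i) / m ≤ σ2 - δ := by linarith
            rwa [div_le_iff₀ hm'] at h6
          have h6 : 1 ≤ Real.exp (l2 * ((σ2 - δ) * m - vv (ty i))) :=
            Real.one_le_exp (mul_nonneg hl2.le (by linarith))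
          linarith
      have h5 : 0 ≤ (ε / 2) / √(m : ℝ) := by positivity
      nlinarith
  -- the sum
  have hsum1 : ∑ i ∈ qq ty T, |Gs (vv (ty i)) - Gs (σ2 * m)| ≤
      (qq ty T).card * ((ε / 2) / √m) + D * ρ ^ m := by
    refine (sum_le_sum fun i _ => hterm i).trans ?_
    rw [sum_add_distrib, sum_const, nsmul_eq_mul]
    apply add_le_add_right
    have h3 : ∑ i ∈ qq ty T, (1 + Gs σ2) *
        (Real.exp (l1 * vv (ty i)) * Real.exp (-(l1 * (σ2 + δ))) ^ m +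
        Real.exp (-l2 * vv (ty i)) * Real.exp (l2 * (σ2 - δ)) ^ m) ≤
        ∑ i, (1 + Gs σ2) *
        (Real.exp (l1 * vv (ty i)) * Real.exp (-(l1 * (σ2 + δ))) ^ m +
        Real.exp (-l2 * vv (ty i)) * Real.exp (l2 * (σ2 - δ)) ^ m) :=
      sum_le_sum_of_subset_of_nonneg (subset_univ _) fun i _ _ => by
        have := Gs_nonneg σ2
        positivity
    refine h3.trans ?_
    rw [← mul_sum, sum_add_distrib, ← sum_mul, ← sum_mul, hsum, hsum, hD,
      mul_assoc (1 + Gs σ2) (MZ l1 + MZ (-l2))]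
    apply mul_le_mul_of_nonneg_left _ (by linarith [Gs_nonneg σ2])
    have h4 : MZ l1 * MX l1 ^ m * Real.exp (-(l1 * (σ2 + δ))) ^ m ≤ MZ l1 * ρ ^ m := by
      rw [mul_assoc, ← mul_pow]
      apply mul_le_mul_of_nonneg_left _ (hZ _)
      apply pow_le_pow_left₀ (mul_nonneg (hX.nn _) (Real.exp_pos _).le)
      exact h1.trans (le_max_left _ _)
    have h5 : MZ (-l2) * MX (-l2) ^ m * Real.exp (l2 * (σ2 - δ)) ^ m ≤ MZ (-l2) * ρ ^ m := by
      rw [mul_assoc, ← mul_pow]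
      apply mul_le_mul_of_nonneg_left _ (hZ _)
      apply pow_le_pow_left₀ (mul_nonneg (hX.nn _) (Real.exp_pos _).le)
      exact h2.trans (le_max_right _ _)
    rw [add_mul]
    exact add_le_add h4 h5
  have h6 : ρ ^ m * √m ≤ B / m * (qq ty T).card := by
    have h7 : ρ ^ m = b ^ m * s ^ m := by
      rw [hs, div_pow]
      field_simp
    rw [h7, div_mul_eq_mul_div, le_div_iff₀ hm']
    calc b ^ m * s ^ m * √m * m ≤ ((qq ty T).card * ((m : ℝ) + 2) ^ M) * s ^ m * √m * m := by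
          gcongr
      _ = (((m : ℝ) + 2) ^ M * s ^ m * (m * √m)) * (qq ty T).card := by ring
      _ ≤ B * (qq ty T).card := mul_le_mul_of_nonneg_right (hB' m) (Nat.cast_nonneg _)
  have h7 : D * (B / m) ≤ ε / 2 := by
    have h8 : (m₀ : ℝ) ≤ m := by exact_mod_cast hmm
    have h9 : D * B / (ε / 2) ≤ m := hm₀.trans h8
    rw [div_le_iff₀ (by positivity)] at h9
    rw [← mul_div_assoc, div_le_iff₀ hm']
    linarith
  have hq0 : (0 : ℝ) ≤ (qq ty T).card := Nat.cast_nonneg _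
  calc (∑ i ∈ qq ty T, |Gs (vv (ty i)) - Gs (σ2 * m)|) * √m
      ≤ ((qq ty T).card * ((ε / 2) / √m) + D * ρ ^ m) * √m :=
        mul_le_mul_of_nonneg_right hsum1 hsm.le
    _ = (qq ty T).card * (ε / 2) + D * (ρ ^ m * √m) := by
        rw [add_mul]
        congr 1
        · field_simp
        · ring
    _ ≤ (qq ty T).card * (ε / 2) + D * (B / m * (qq ty T).card) := by
        gcongr
    _ = (qq ty T).card * (ε / 2) + (D * (B / m)) * (qq ty T).card := by ring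
    _ ≤ (qq ty T).card * (ε / 2) + (ε / 2) * (qq ty T).card := by
        gcongr
    _ = _ := by ring

/-- **The number of the strings is asymptotically determined.** -/
theorem clt_main {b σ2 G A : ℝ} (hG : 0 < G) (hGb : G < b) (hA : 0 ≤ A) (hσ : 0 < σ2)
    {MX MZ : ℝ → ℝ} (hX : Conc b σ2 MX)
    (hZ : ∀ l, 0 ≤ MZ l) (M : ℕ) {ε : ℝ} (hε : 0 < ε) : ∃ m₀ : ℕ,
    ∀ m : ℕ, m₀ ≤ m → 0 < m → ∀ (I Θ : Type) [Fintype I] [DecidableEq Θ] (a : I → ℤ)
      (ty : I → Θ) (k : Θ → ℕ) (vv : Θ → ℝ) (v : ℝ) (T : Set Θ), Wts a ty k v →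
      Gau a ty k vv A → (∀ l, ∑ i, Real.exp (l * vv (ty i)) = MZ l * MX l ^ m) →
      ∑ i, (1 / 2 : ℝ) ^ k (ty i) ≤ G ^ m →
      b ^ m ≤ (qq ty T).card * ((m : ℝ) + 2) ^ M →
      |((cn a {i | ty i ∈ T} 0 : ℝ) + cn a {i | ty i ∈ T} (-1)) * √m -
        Gs σ2 * (qq ty T).card| ≤ ε * (qq ty T).card := by
  have hb : 0 < b := hG.trans hGb
  obtain ⟨C, hC, hC'⟩ := sum_small b G hG hGb M
  obtain ⟨m₁, hm₁⟩ := sum_typ hb hσ hX hZ M (ε := ε / 2) (by positivity)
  set B : ℝ := 5040 * (500 * A + 1) + 64 with hB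
  have hB0 : 0 < B := by positivity
  obtain ⟨m₂, hm₂⟩ := exists_nat_ge (B * C / (ε / 2))
  refine ⟨max m₁ m₂, fun m hmm hm I Θ _ _ a ty k vv v T W U hsum hsum' hq => ?_⟩
  have hm' : (0 : ℝ) < m := by exact_mod_cast hm
  have hsm : 0 < √(m : ℝ) := Real.sqrt_pos.2 hm'
  have h1 := lclt hA W U T
  have h2 := hm₁ m ((le_max_left _ _).trans hmm) hm I Θ ty vv T (fun θ => by
    rcases Nat.eq_zero_or_pos (k θ) with h | h
    · exact Or.inl (U.vz θ h)
    · right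
      have h3 := U.vk θ
      have h4 : (1 : ℝ) ≤ k θ := by exact_mod_cast h
      linarith) hsum hq
  have h3 := hC' m hm I Θ ty k T hsum' hq
  have hq0 : (0 : ℝ) ≤ (qq ty T).card := Nat.cast_nonneg _
  -- the error of the local limit theorem
  have h4 : (∑ i ∈ qq ty T, B / ((k (ty i) + 1 : ℝ) * √(k (ty i) + 1 : ℝ))) * √m ≤
      (ε / 2) * (qq ty T).card := by
    have e1 : ∑ i ∈ qq ty T, B / ((k (ty i) + 1 : ℝ) * √(k (ty i) + 1 : ℝ)) =
        B * ∑ i ∈ qq ty T, 1 / ((k (ty i) + 1 : ℝ) * √(k (ty i) + 1 : ℝ)) := by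
      rw [mul_sum]
      refine sum_congr rfl fun i _ => ?_
      ring
    have h5 : (m₂ : ℝ) ≤ m := by exact_mod_cast (le_max_right _ _).trans hmm
    have h6 : B * C ≤ (ε / 2) * m := by
      have h7 : B * C / (ε / 2) ≤ m := hm₂.trans h5
      rw [div_le_iff₀ (by positivity)] at h7
      linarith
    set S := ∑ i ∈ qq ty T, 1 / ((k (ty i) + 1 : ℝ) * √(k (ty i) + 1 : ℝ)) with hS
    rw [e1]
    have h7 : (B * S * √m) * m ≤ ((ε / 2) * (qq ty T).card) * m := by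
      calc (B * S * √m) * m = B * (S * (m * √m)) := by ring
        _ ≤ B * (C * (qq ty T).card) := mul_le_mul_of_nonneg_left h3 hB0.le
        _ = (B * C) * (qq ty T).card := by ring
        _ ≤ ((ε / 2) * m) * (qq ty T).card := mul_le_mul_of_nonneg_right h6 hq0
        _ = _ := by ring
    exact le_of_mul_le_mul_right h7 hm'
  set P := ((cn a {i | ty i ∈ T} 0 : ℝ) + cn a {i | ty i ∈ T} (-1)) with hP
  set Q := ∑ i ∈ qq ty T, Gs (vv (ty i)) with hQ
  have e2 : Gs σ2 * (qq ty T).card = (∑ i ∈ qq ty T, Gs (σ2 * m)) * √m := by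
    rw [sum_const, nsmul_eq_mul, mul_assoc, Gs_mul hm' σ2]
    ring
  have h5 : |Q * √m - Gs σ2 * (qq ty T).card| ≤ (ε / 2) * (qq ty T).card := by
    rw [e2, ← sub_mul, abs_mul, abs_of_pos hsm, hQ, ← sum_sub_distrib]
    exact (mul_le_mul_of_nonneg_right (abs_sum_le_sum_abs _ _) hsm.le).trans h2
  have h6 : |P * √m - Q * √m| ≤ (ε / 2) * (qq ty T).card := by
    rw [← sub_mul, abs_mul, abs_of_pos hsm]
    exact (mul_le_mul_of_nonneg_right h1 hsm.le).trans h4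
  have h7 := abs_sub_le (P * √m) (Q * √m) (Gs σ2 * (qq ty T).card)
  linarith

end main

end Pool.Agent.H61.LS
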