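import Pool.Agent.H61.LS.Gal
import Pool.Agent.H61.LS.GalDefs
import Pool.Agent.H61.GX.Pole

/-!
# Dimensions and ranks of Tate classes of given codimension
-/

open CategoryTheory AlgebraicGeometry

universe u v w

namespace Pool.Agent.H61.LS

open Module Filter Topology
open Pool.Agent.H914 Pool.Agent.H914.VarClass Pool.Agent.H914.VarClass.Obj
  Pool.Agent.H914.WeilCohomology Pool.Agent.Y133.Half Pool.Agent.H61.GX Pool.Agent.H61.ZX
  Pool.Agent.Q55

variable {k : Type u} [Field k] {𝒱 : VarClass k} {ops : CycleOps 𝒱}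
  {W : WeilCohomology.{u, v} ops} {X Y Z : 𝒱.Obj} {Γ : Type w} [Group Γ]
  {G : GaloisAction W Γ}

lemma tateDimIn_eq (G : GaloisAction W Γ) (Y : 𝒱.Obj) (j : ℕ) :
    LS.tateDimIn G Y j = finrank W.K (GC (tatePred G).sys Y (j : ℤ)) := by
  have h : {c : W.H Y | IsTate G Y j c} = (GC (tatePred G).sys Y (j : ℤ) : Set (W.H Y)) := by
    ext c
    exact mem_gc_tatePred.symm
  rw [LS.tateDimIn, dimOf, Set.finrank, h, Submodule.span_eq]

lemma tateNullIn_eq {Y : 𝒱.Obj} {j : ℕ} (hj : j ≤ Y.dim) :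
    tateNullIn G Y j = (GNum (tatePred G).sys Y (j : ℤ) : Set (W.H Y)) := by
  ext c
  rw [SetLike.mem_coe, mem_gnum (sgr_tatePred G), mem_gc_tatePred,
    show (Y.dim : ℤ) - j = ((Y.dim - j : ℕ) : ℤ) by rw [Nat.cast_sub hj]]
  simp only [mem_gc_tatePred]
  rfl

lemma pairingRankIn_eq {Y : 𝒱.Obj} {j : ℕ} (hj : j ≤ Y.dim) :
    pairingRankIn G Y j = ag (tatePred G).sys Y j (Y.dim - j) := by
  have h1 := ag_add_gnum (sgr_tatePred G) Y j
  rw [pairingRankIn, tateDimIn_eq, dimOf, Set.finrank, tateNullIn_eq hj, Submodule.span_eq]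
  omega

/-- The codimensions near the middle are at most the dimension. -/
lemma le_of_near {Z X : 𝒱.Obj} (hd : 0 < X.dim) {n j J : ℕ} (hn : J ≤ n)
    (hJ : |2 * (j : ℤ) - (n + 1) * X.dim| ≤ J) : j ≤ (Z.prod (pw X n)).dim := by
  rw [dim_prod, dim_pw]
  have h1 := (abs_le.1 hJ).2
  have h2 : (J : ℤ) ≤ (n + 1) * X.dim := by
    have h3 : (J : ℤ) ≤ n := by exact_mod_cast hn
    have h4 : (1 : ℤ) ≤ X.dim := by exact_mod_cast hd
    nlinarith
  have h3 : (j : ℤ) ≤ Z.dim + (n + 1) * X.dim := by linarith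
  exact_mod_cast h3

end Pool.Agent.H61.LS
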