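import Pool.Agent.H61.GX.PropDefs
import Pool.Agent.H61.ZX.Defs

/-!
# Ranks of intersection forms on Tate classes of given codimension: definitions
-/

open CategoryTheory AlgebraicGeometry

universe u v

namespace Pool.Agent.H61.LS

open Pool.Agent.H914 Pool.Agent.H914.VarClass Pool.Agent.H914.VarClass.Obj
  Pool.Agent.H914.WeilCohomology Pool.Agent.W534

variable {k : Type u} [Field k] {𝒱 : VarClass k} {ops : CycleOps 𝒱}
  {W : WeilCohomology.{u, v} ops} {p : ℕ}

/-- The Tate classes of codimension `j` on `Y` which are orthogonal to all Tate classes of the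
complementary codimension. -/
def frobNullIn (Φ : FrobSystem W p) (Y : 𝒱.Obj) (j : ℕ) : Set (W.H Y) :=
  {c | IsTate Φ Y j c ∧ ∀ d, IsTate Φ Y (Y.dim - j) d → W.tr Y (c * d) = 0}

/-- The rank of the intersection pairing between the Tate classes of codimension `j` and those of
codimension `dim Y - j` on `Y`. -/
noncomputable def tateRankIn (Φ : FrobSystem W p) (Y : 𝒱.Obj) (j : ℕ) : ℕ :=
  GX.tateDimIn Φ Y j - Pool.Agent.Y133.Half.dimOf W (frobNullIn Φ Y j)

end Pool.Agent.H61.LS
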