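import Pool.Agent.H61.LS.Law
import Pool.Agent.H61.GX.Pole

/-!
# The law of the three integers in single codimensions
-/

open CategoryTheory AlgebraicGeometry

universe u v

namespace Pool.Agent.H61.LS

open Module Filter Topology
open Pool.Agent.H914 Pool.Agent.H914.VarClass Pool.Agent.H914.VarClass.Obj
  Pool.Agent.H914.WeilCohomology Pool.Agent.Y133.Half Pool.Agent.H61.GX Pool.Agent.H61.ZX

variable {k : Type u} [Field k] {𝒱 : VarClass k} {ops : CycleOps 𝒱}
  {W : WeilCohomology.{u, v} ops} {P Q X Y Z M : 𝒱.Obj} {S T : Sys W}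

lemma gnum_congr (h : S.C Q = T.C Q) (d : ℤ) : GNum S Q d = GNum T Q d := by
  have h3 : S.Num Q = T.Num Q := by
    ext x
    change (x ∈ S.C _ ∧ ∀ y ∈ S.C _, _) ↔ (x ∈ T.C _ ∧ ∀ y ∈ T.C _, _)
    rw [h]
  rw [GNum, GNum, h3]

lemma ag_congr (hgr : SGr S) (hgrT : SGr T) (h : S.C Q = T.C Q) (d : ℤ) :
    ag S Q d (Q.dim - d) = ag T Q d (Q.dim - d) := by
  have h1 := LS.ag_add_gnum hgr Q d
  have h2 := LS.ag_add_gnum hgrT Q d
  rw [gnum_congr h, gc_eq_of_c h] at h1
  omega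

lemma nrmg_congr (hgr : SGr S) (hgrT : SGr T) (h0 : ∀ n, S.C (pw X n) = T.C (pw X n)) (n : ℕ) :
    nrmg S X n = nrmg T X n := by
  have h : ∀ l, alc S X l = alc T X l := by
    intro l
    have e2 : (((pw X l).prod (pw X l))).dim = (pw X (l + l + 1)).dim := by
      simp only [dim_prod, dim_pw]; ring
    have e3 : ((pw X (l + l + 1)).dim : ℤ) - (pw X l).dim = (pw X l).dim := by
      rw [dim_pw, dim_pw]; push_cast; ring
    have h1 := ag_congr hgr hgrT (h0 (l + l + 1)) (pw X l).dim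
    rw [e3] at h1
    rw [alc, alc, ac, ac, ag_iso S (pwAdd X l l) e2, ag_iso T (pwAdd X l l) e2]
    exact h1
  rw [nrmg, nrmg, h]

/-- Two expressions with the same asymptotics. -/
lemma Asy.unique (hS : GBig S X) {f : ℕ → ℤ → ℕ} {a b : ℝ} (h1 : Asy X f a (nrmg S X))
    (h2 : Asy X f b (nrmg S X)) : a = b :=
  tendsto_nhds_unique (h1.tendsto (nrmg_pos hS) (nearMiddle_half X))
    (h2.tendsto (nrmg_pos hS) (nearMiddle_half X))

/-- Values at one codimension near the middle. -/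
lemma Asy.eventually {f : ℕ → ℤ → ℕ} {a : ℝ} {ν : ℕ → ℝ} (h : Asy X f a ν) {δ : ℝ}
    (hδ : 0 < δ) (J : ℕ) : ∃ n₀ : ℕ, ∀ n ≥ n₀, ∀ d : ℤ, |2 * d - (n + 1) * X.dim| ≤ J →
      (a - δ) * ν n ≤ f n d ∧ (f n d : ℝ) ≤ (a + δ) * ν n := by
  obtain ⟨n₀, hn₀⟩ := h δ hδ J
  refine ⟨n₀, fun n hn d hd => ?_⟩
  have h1 := abs_le.1 (hn₀ n hn d hd)
  constructor
  · linarith [h1.1]
  · linarith [h1.2]

/-- **The law of the three integers in single codimensions.** -/
theorem gthree (hgr : SGr S) (hgrT : SGr T) (hST : ∀ X, S.C X ≤ T.C X)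
    (h0 : ∀ n, S.C (pw X n) = T.C (pw X n)) (hnum : ∀ Q, S.Num Q = ⊥ → S.C Q = T.C Q)
    (hS : GBig S X) (hT : GBig T X) (hTn : ∀ Q d, GNondeg T Q d)
    (hZ : ∃ l ∈ GC S Z Z.dim, W.tr Z l = 1) :
    ∃ w u v : ℕ, 1 ≤ w ∧ w ≤ u ∧ u ≤ v ∧ v ≤ finrank W.K (W.H Z) ∧ 2 * u ≤ v + w ∧
      Asy X (fun n d => ag S (Z.prod (pw X n)) d (Z.dim + (n + 1) * X.dim - d)) w (nrmg T X) ∧
      Asy X (fun n d => finrank W.K (GC S (Z.prod (pw X n)) d)) u (nrmg T X) ∧
      Asy X (fun n d => finrank W.K (GC T (Z.prod (pw X n)) d)) v (nrmg T X) ∧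
      Asy X (fun n d => finrank W.K (GC T (pw X n) d)) 1 (nrmg T X) ∧
      (w = u ∨ u = v → ∀ n, S.C (Z.prod (pw X n)) = T.C (Z.prod (pw X n))) ∧
      ((∀ n, S.C (Z.prod (pw X n)) = T.C (Z.prod (pw X n))) → w = v) := by
  have hX : ∃ l ∈ GC S X X.dim, W.tr X l = 1 := by
    obtain ⟨a, ha, a', ha', h⟩ := hS.tw 0 (Nat.zero_le _)
    refine ⟨a * a', ?_, h⟩
    have := GC.mul ha ha'
    rwa [show ((0 : ℕ) : ℤ) + ((X.dim : ℤ) - (0 : ℕ)) = X.dim by push_cast; ring] at this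
  have hν : nrmg S X = nrmg T X := funext fun n => nrmg_congr hgr hgrT h0 n
  have hN : ∀ n, S.Num (pw X n) = ⊥ := by
    intro n
    rw [num_eq_bot_iff hgr]
    intro d
    rw [gnum_congr (h0 n), eq_bot_iff]
    intro x hx
    rw [mem_gnum hgrT] at hx
    exact (Submodule.mem_bot _).2 (hTn _ _ x hx.1 hx.2)
  obtain ⟨u, v, hu, huv, hv, a2, a3, hiff⟩ := glim (Z := Z) hST h0 hT hTn hX hZ
  obtain ⟨π, hπ, hmax, -⟩ := exists_gmax (S := S) (T := S) (Z := Z) (X := X) (fun _ => le_rfl)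
    GGood.zero
  set w := finrank W.K (LinearMap.range π) with hw
  have hw1 : 1 ≤ w := Sys.finrank_range_pos (gmaxi_ne_zero hX hZ hmax)
  have a1 : Asy X (fun n d => ag S (Z.prod (pw X n)) d (Z.dim + (n + 1) * X.dim - d)) w
      (nrmg T X) := by
    rw [← hν]
    refine (asy_of_low hπ.mem hπ.idem (hπ.low S hS fun _ => le_rfl)).congr fun n d => ?_
    exact (ag_le_rg hπ.mem hmax n (by ring)).symm
  have a4 : Asy X (fun n d => finrank W.K (GC T (pw X n) d)) 1 (nrmg T X) := by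
    refine (asy_pw hT).congr fun n d => ?_
    rw [ag_eq_of_gnondeg (hTn _ d)]
    rw [dim_pw]; push_cast; ring
  have hdimZ : ∀ n : ℕ, ((Z.prod (pw X n)).dim : ℤ) = Z.dim + (n + 1) * X.dim := by
    intro n
    rw [dim_prod, dim_pw]; push_cast; ring
  have hsum : ∀ (n : ℕ) (d : ℤ), ag S (Z.prod (pw X n)) d (Z.dim + (n + 1) * X.dim - d) +
      finrank W.K (GNum S (Z.prod (pw X n)) d) = finrank W.K (GC S (Z.prod (pw X n)) d) := by
    intro n d
    have := LS.ag_add_gnum hgr (Z.prod (pw X n)) d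
    rwa [hdimZ] at this
  -- `w ≤ u`
  have hwu : w ≤ u := by
    have h1 : (w : ℝ) ≤ u := by
      refine le_of_tendsto_of_tendsto' (a1.tendsto (nrmg_pos hT) (nearMiddle_half X))
        (a2.tendsto (nrmg_pos hT) (nearMiddle_half X)) fun n => ?_
      apply div_le_div_of_nonneg_right _ (nrmg_pos hT n).le
      have h2 := hsum n (((n + 1) * X.dim / 2 : ℕ) : ℤ)
      exact_mod_cast (by omega :
        ag S (Z.prod (pw X n)) (((n + 1) * X.dim / 2 : ℕ) : ℤ) (Z.dim + (n + 1) * X.dim -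
          (((n + 1) * X.dim / 2 : ℕ) : ℤ)) ≤
        finrank W.K (GC S (Z.prod (pw X n)) (((n + 1) * X.dim / 2 : ℕ) : ℤ)))
    exact_mod_cast h1
  -- the bound for the numerically trivial classes
  have h2u : 2 * u ≤ v + w := by
    have h1 : ∀ δ : ℝ, 0 < δ → 2 * (u : ℝ) ≤ v + w + 6 * δ := by
      intro δ hδ
      obtain ⟨J, hJ⟩ : ∃ J : ℕ, J = 2 * Z.dim + 1 := ⟨_, rfl⟩
      obtain ⟨n₁, hn₁⟩ := Asy.eventually a1 hδ J
      obtain ⟨n₂, hn₂⟩ := Asy.eventually a2 hδ J
      obtain ⟨n₃, hn₃⟩ := Asy.eventually a3 hδ J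
      obtain ⟨n₄, hn₄⟩ := hπ.low T hT hST δ hδ J
      obtain ⟨n, hn⟩ : ∃ n, n = max (max n₁ n₂) (max n₃ n₄) := ⟨_, rfl⟩
      have m1 : n₁ ≤ n := hn ▸ (le_max_left _ _).trans (le_max_left _ _)
      have m2 : n₂ ≤ n := hn ▸ (le_max_right _ _).trans (le_max_left _ _)
      have m3 : n₃ ≤ n := hn ▸ (le_max_left _ _).trans (le_max_right _ _)
      have m4 : n₄ ≤ n := hn ▸ (le_max_right _ _).trans (le_max_right _ _)
      obtain ⟨d, hd⟩ : ∃ d : ℤ, d = (((n + 1) * X.dim / 2 : ℕ) : ℤ) := ⟨_, rfl⟩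
      obtain ⟨d', hd'⟩ : ∃ d' : ℤ, d' = Z.dim + (n + 1) * X.dim - d := ⟨_, rfl⟩
      have hmid := abs_le.1 (mid_le X n)
      rw [← hd] at hmid
      push_cast at hmid
      have hdJ : |2 * d - (n + 1) * X.dim| ≤ J := by
        rw [abs_le, hJ]
        push_cast
        constructor
        · linarith [hmid.1]
        · linarith [hmid.2]
      have hdJ' : |2 * d' - (n + 1) * X.dim| ≤ J := by
        rw [abs_le, hJ, hd']
        push_cast
        constructor
        · linarith [hmid.2]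
        · linarith [hmid.1]
      have hdd : d + d' = Z.dim + (n + 1) * X.dim := by rw [hd']; ring
      have e1 := (hn₁ n m1 d hdJ).2
      have e1' := (hn₁ n m1 d' hdJ').2
      have e2 := (hn₂ n m2 d hdJ).1
      have e2' := (hn₂ n m2 d' hdJ').1
      have e3 := (hn₃ n m3 d hdJ).2
      have e4 := hn₄ n m4 d d' hdd hdJ
      have f1 := gnum_le_rg (T := T) hST hN (hdd.trans (hdimZ n).symm) (hTn _ d) (hTn _ d')
        hπ.mem hπ.gen
      have hmT : π ∈ GOp T Z Z 0 := GOp_mono hST _ _ _ hπ.mem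
      have hππ : π * π = π := hπ.idem
      have f2 := rg_add_orth T hmT (Submodule.sub_mem _ GOp.id hmT) hπ.idem
        (Sys.finrank_compl hπ.idem).1
        (show π * (1 - π) = 0 by rw [mul_sub, hππ, mul_one, sub_self])
        (show (1 - π) * π = 0 by rw [sub_mul, hππ, one_mul, sub_self]) (pw X n)
        (d := d) (e' := d') (by rw [hdd, dim_pw]; push_cast; ring)
      have f3 : π + (LinearMap.id - π) = 1 := by
        rw [add_sub_cancel]; rfl
      rw [f3, rg_one, ag_eq_of_gnondeg (hTn _ d) (by rw [hdimZ]; linarith)] at f2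
      have f4 := hsum n d
      have f5 := hsum n d'
      rw [← hd'] at f4
      have f6 : Z.dim + (n + 1) * X.dim - d' = d := by linarith
      rw [← hd'] at e1
      have hx := nrmg_pos hT n
      set x := nrmg T X n with hxdef
      have g1 : (rg T Z π (pw X n) d d' : ℝ) + finrank W.K (GNum S (Z.prod (pw X n)) d) +
          finrank W.K (GNum S (Z.prod (pw X n)) d') ≤ finrank W.K (GC T (Z.prod (pw X n)) d) := by
        have g2 : rg T Z π (pw X n) d d' + finrank W.K (GNum S (Z.prod (pw X n)) d) +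
            finrank W.K (GNum S (Z.prod (pw X n)) d') ≤
            finrank W.K (GC T (Z.prod (pw X n)) d) := by
          have g3 : rg T Z (1 - π) (pw X n) d d' = rg T Z (LinearMap.id - π) (pw X n) d d' := rfl
          rw [g3] at f1
          linarith
        exact_mod_cast g2
      have g4 : (finrank W.K (GNum S (Z.prod (pw X n)) d) : ℝ) =
          finrank W.K (GC S (Z.prod (pw X n)) d) - ag S (Z.prod (pw X n)) d d' := by
        rw [eq_sub_iff_add_eq, add_comm]
        exact_mod_cast f4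
      have g5 : (finrank W.K (GNum S (Z.prod (pw X n)) d') : ℝ) =
          finrank W.K (GC S (Z.prod (pw X n)) d') -
            ag S (Z.prod (pw X n)) d' (Z.dim + (n + 1) * X.dim - d') := by
        rw [eq_sub_iff_add_eq, add_comm]
        exact_mod_cast f5
      rw [g4, g5] at g1
      rw [← hw] at e4
      by_contra hcon
      push Not at hcon
      have g6 : ((w : ℝ) - δ) * x + ((u : ℝ) - δ) * x - ((w : ℝ) + δ) * x + ((u : ℝ) - δ) * x -
          ((w : ℝ) + δ) * x ≤ ((v : ℝ) + δ) * x := by linarith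
      have g7 : (2 * (u : ℝ) - w - v - 6 * δ) * x ≤ 0 := by linarith
      nlinarith
    have h2 : 2 * (u : ℝ) ≤ v + w := by
      by_contra hcon
      push Not at hcon
      have := h1 ((2 * u - (v + w)) / 12) (by linarith)
      linarith
    exact_mod_cast h2
  refine ⟨w, u, v, hw1, hwu, huv, hv, h2u, a1, a2, a3, a4, ?_, ?_⟩
  · rintro (h | h)
    · -- no numerically trivial classes
      by_contra hne
      push Not at hne
      obtain ⟨m, hm⟩ := hne
      have hm' : S.Num (Z.prod (pw X m)) ≠ ⊥ := fun h => hm (hnum _ h)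
      obtain ⟨n₁, hn₁⟩ := gnum_lower hgr hS hm' (δ := 1 / 2) (by norm_num) 1
      obtain ⟨n₂, hn₂⟩ := Asy.eventually a1 (show (0 : ℝ) < 1 / 8 by norm_num) 1
      obtain ⟨n₃, hn₃⟩ := Asy.eventually a2 (show (0 : ℝ) < 1 / 8 by norm_num) 1
      obtain ⟨n, hn⟩ : ∃ n, n = max n₁ (max n₂ n₃) := ⟨_, rfl⟩
      have m1 : n₁ ≤ n := hn ▸ le_max_left _ _
      have m2 : n₂ ≤ n := hn ▸ (le_max_left _ _).trans (le_max_right _ _)
      have m3 : n₃ ≤ n := hn ▸ (le_max_right _ _).trans (le_max_right _ _)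
      have hmid := mid_le X n
      have e1 := hn₁ n m1 _ hmid
      have e2 := (hn₂ n m2 _ hmid).1
      have e3 := (hn₃ n m3 _ hmid).2
      have f4 := hsum n (((n + 1) * X.dim / 2 : ℕ) : ℤ)
      have g4 : (ag S (Z.prod (pw X n)) (((n + 1) * X.dim / 2 : ℕ) : ℤ) (Z.dim + (n + 1) * X.dim -
          (((n + 1) * X.dim / 2 : ℕ) : ℤ)) : ℝ) +
          finrank W.K (GNum S (Z.prod (pw X n)) (((n + 1) * X.dim / 2 : ℕ) : ℤ)) =
          finrank W.K (GC S (Z.prod (pw X n)) (((n + 1) * X.dim / 2 : ℕ) : ℤ)) := by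
        exact_mod_cast f4
      rw [hν] at e1
      have hx := nrmg_pos hT n
      rw [h] at e2
      nlinarith
    · intro n
      exact c_eq_of_gc hgrT hST fun d => hiff.1 h n d
  · intro h
    have a5 : Asy X (fun n d => ag S (Z.prod (pw X n)) d (Z.dim + (n + 1) * X.dim - d)) v
        (nrmg T X) := by
      refine a3.congr fun n d => ?_
      have h1 := ag_congr hgr hgrT (h n) d
      rw [hdimZ] at h1
      rw [h1, ag_eq_of_gnondeg (hTn _ d) (by rw [hdimZ])]
    have := Asy.unique hT a1 a5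
    exact_mod_cast this

end Pool.Agent.H61.LS
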