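import Pool.Agent.H61.LS.Gal
import Pool.Agent.H61.LS.Three
import Pool.Agent.H61.LS.FrobDefs
import Pool.Agent.H61.GX.Prop
import Pool.Agent.H61.ZX.TrueTate

/-!
# The Tate classes of Frobenius endomorphisms, codimension by codimension
-/

open CategoryTheory AlgebraicGeometry

universe u v

namespace Pool.Agent.H61.LS

open Module Filter Topology
open Pool.Agent.H914 Pool.Agent.H914.VarClass Pool.Agent.H914.VarClass.Obj
  Pool.Agent.H914.WeilCohomology Pool.Agent.Y133.Half Pool.Agent.H61.GX Pool.Agent.H61.ZX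
  Pool.Agent.W534 Pool.Agent.H281R3.HT Pool.Agent.W458.MF Pool.Agent.W536.RR

variable {k : Type u} [Field k] {𝒱 : VarClass k} {ops : CycleOps 𝒱}
  {W : WeilCohomology.{u, v} ops} {X Y Z Q : 𝒱.Obj} {p : ℕ} {Φ : FrobSystem W p}

/-- Some power of the Frobenius endomorphism commutes with the operator `1 ⊗ par`. -/
lemma exists_frob_ext (Φ : FrobSystem W p) (X Y : 𝒱.Obj) : ∃ m, 0 < m ∧ ∀ (t : ℕ)
    (x : W.H (X.prod Y)), frob Φ (X.prod Y) (m * t) (extOp W 1 (par (W.isInternal Y)) x) =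
      extOp W 1 (par (W.isInternal Y)) (frob Φ (X.prod Y) (m * t) x) := by
  obtain ⟨a, b, ha, hb, hab, h⟩ := frob_comm Φ (fst X Y)
  obtain ⟨c, d, hc, hd, hcd, h'⟩ := frob_comm Φ (snd X Y)
  refine ⟨a * c, Nat.mul_pos ha hc, fun t x => ?_⟩
  have key : ∀ (x : W.H X) (y : W.H Y),
      frob Φ (X.prod Y) (a * c * t) (W.map (fst X Y) x * W.map (snd X Y) y) =
      W.map (fst X Y) (frob Φ X (b * (c * t)) x) * W.map (snd X Y) (frob Φ Y (d * (a * t)) y) := by
    intro x y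
    have e3 : a * c * t = a * (c * t) := by ring
    have e4 : a * c * t = c * (a * t) := by ring
    rw [frob_mul_apply]
    congr 1
    · rw [e3]; exact h (c * t) x
    · rw [e4]; exact h' (a * t) y
  refine W.kunneth_induction (p := fun x => frob Φ (X.prod Y) (a * c * t)
    (extOp W 1 (par (W.isInternal Y)) x) =
    extOp W 1 (par (W.isInternal Y)) (frob Φ (X.prod Y) (a * c * t) x)) ?_ ?_ x
  · intro u v hu hv
    rw [map_add, map_add, hu, hv, map_add, map_add]
  · intro i j x hx y hy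
    have hx' : frob Φ X (b * (c * t)) x ∈ W.gr X i := W.map_mem _ hx
    have hy' : frob Φ Y (d * (a * t)) y ∈ W.gr Y j := W.map_mem _ hy
    rw [ext_par_tmul hx hy, map_smul, key, ext_par_tmul hx' hy']

/-- The operator `1 ⊗ par` preserves Tate classes. -/
lemma frob_isTate_ext_par {j : ℕ} {c : W.H (X.prod Y)} (hc : IsTate Φ (X.prod Y) j c) :
    IsTate Φ (X.prod Y) j (extOp W 1 (par (W.isInternal Y)) c) := by
  rw [isTate_iff] at *
  obtain ⟨h1, s, hs, h2⟩ := hc
  obtain ⟨m, hm, h⟩ := exists_frob_ext Φ X Y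
  refine ⟨ext_par_mem h1, m * s, Nat.mul_pos hm hs, ?_⟩
  rw [h s c, eig_mul' h2 m, map_smul]

lemma frob_isTate_diag (Φ : FrobSystem W p) (X : 𝒱.Obj) :
    IsTate Φ (X.prod X) X.dim (W.push (diag X) 1) := by
  have h1 : IsTate Φ X 0 (1 : W.H X) := isTate_iff.2 ⟨W.one_mem X, 1, one_pos, by
    rw [frob_one, pow_zero, one_smul]⟩
  have h2 := IsTate.push' (diag X) h1 (by rw [dim_prod]; omega)
  rwa [show 0 + (X.prod X).dim - X.dim = X.dim by rw [dim_prod]; omega] at h2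

lemma gc_trueTate (Q : 𝒱.Obj) (j : ℕ) {c : W.H Q} (hc : IsTate Φ Q j c) :
    c ∈ GC (trueTateSys Φ) Q (j : ℤ) :=
  ⟨TSpan.of hc, by rw [gz_nat]; exact hc.1⟩

/-- The parity operator is given by a Tate class. -/
theorem par_mem_true (Φ : FrobSystem W p) (X : 𝒱.Obj) :
    par (W.isInternal X) ∈ GOp (trueTateSys Φ) X X 0 := by
  have h1 := gc_trueTate _ _ (frob_isTate_ext_par (frob_isTate_diag Φ X))
  have h2 := GOp.corr (S := trueTateSys Φ) (s := 0) h1 (by ring)
  have hev : Ev W (par (W.isInternal X)) := by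
    intro b x hx
    rw [PH.par hx]
    exact Submodule.smul_mem _ _ hx
  rwa [corr_one_ext hev, Sys.corr_diag_one, LinearMap.comp_id] at h2

lemma sgr_trueTate (Φ : FrobSystem W p) : SGr (trueTateSys Φ) := by
  refine sgr_of_le fun Q c hc => ?_
  refine TSpan.ind (Φ := Φ)
    (q := fun c => c ∈ ⨆ j : ℕ, GC (trueTateSys Φ) Q (j : ℤ)) ?_ ?_ ?_ ?_ hc
  · intro j x hx
    exact Submodule.mem_iSup_of_mem j (gc_trueTate Q j hx)
  · exact Submodule.zero_mem _
  · intro a b ha hb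
    exact Submodule.add_mem _ ha hb
  · intro c a ha
    exact Submodule.smul_mem _ _ ha

lemma isTate_zero (Q : 𝒱.Obj) (j : ℕ) : IsTate Φ Q j 0 :=
  isTate_iff.2 ⟨Submodule.zero_mem _, 1, one_pos, by rw [map_zero, smul_zero]⟩

lemma isTate_add {j : ℕ} {x y : W.H Q} (hx : IsTate Φ Q j x) (hy : IsTate Φ Q j y) :
    IsTate Φ Q j (x + y) := by
  rw [isTate_iff] at *
  obtain ⟨h1, s, hs, h2⟩ := hx
  obtain ⟨h3, t, ht, h4⟩ := hy
  refine ⟨Submodule.add_mem _ h1 h3, s * t, Nat.mul_pos hs ht, ?_⟩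
  rw [map_add, eig_mul h2 t, eig_mul' h4 s, smul_add]

lemma isTate_smul {j : ℕ} (c : W.K) {x : W.H Q} (hx : IsTate Φ Q j x) :
    IsTate Φ Q j (c • x) := by
  rw [isTate_iff] at *
  obtain ⟨h1, s, hs, h2⟩ := hx
  refine ⟨Submodule.smul_mem _ _ h1, s, hs, ?_⟩
  rw [map_smul, h2, smul_comm]

/-- The space of the Tate classes of codimension `j`. -/
lemma mem_gc_trueTate {j : ℕ} {c : W.H Q} :
    c ∈ GC (trueTateSys Φ) Q (j : ℤ) ↔ IsTate Φ Q j c := by
  constructor
  · rintro ⟨h1, h2⟩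
    rw [gz_nat] at h2
    have h3 : IsTate Φ Q j (H914.proj (W.isInternal Q) (2 * j) c) := by
      refine TSpan.ind (Φ := Φ)
        (q := fun c => IsTate Φ Q j (H914.proj (W.isInternal Q) (2 * j) c)) ?_ ?_ ?_ ?_ h1
      · intro l x hx
        by_cases hl : l = j
        · subst hl
          rw [proj_same _ hx.1]
          exact hx
        · rw [proj_ne _ hx.1 (by omega)]
          exact isTate_zero Q j
      · rw [map_zero]; exact isTate_zero Q j
      · intro a b ha hb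
        rw [map_add]; exact isTate_add ha hb
      · intro t a ha
        rw [map_smul]; exact isTate_smul t ha
    rw [proj_same _ h2] at h3
    exact h3
  · exact gc_trueTate Q j

lemma gxTateDimIn_eq (Φ : FrobSystem W p) (Y : 𝒱.Obj) (j : ℕ) :
    GX.tateDimIn Φ Y j = finrank W.K (GC (trueTateSys Φ) Y (j : ℤ)) := by
  have h : {c : W.H Y | IsTate Φ Y j c} = (GC (trueTateSys Φ) Y (j : ℤ) : Set (W.H Y)) := by
    ext c
    exact mem_gc_trueTate.symm
  rw [GX.tateDimIn, dimOf, Set.finrank, h, Submodule.span_eq]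

lemma frobNullIn_eq {Y : 𝒱.Obj} {j : ℕ} (hj : j ≤ Y.dim) :
    frobNullIn Φ Y j = (GNum (trueTateSys Φ) Y (j : ℤ) : Set (W.H Y)) := by
  ext c
  rw [SetLike.mem_coe, mem_gnum (sgr_trueTate Φ), mem_gc_trueTate,
    show (Y.dim : ℤ) - j = ((Y.dim - j : ℕ) : ℤ) by rw [Nat.cast_sub hj]]
  simp only [mem_gc_trueTate]
  rfl

lemma tateRankIn_eq {Y : 𝒱.Obj} {j : ℕ} (hj : j ≤ Y.dim) :
    tateRankIn Φ Y j = ag (trueTateSys Φ) Y j (Y.dim - j) := by
  have h1 := LS.ag_add_gnum (sgr_trueTate Φ) Y j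
  rw [tateRankIn, gxTateDimIn_eq, dimOf, Set.finrank, frobNullIn_eq hj, Submodule.span_eq]
  omega

end Pool.Agent.H61.LS
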