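import Pool.Agent.H61.LS.Law
import Pool.Graph.R_pool_sql_team_seeded_3997aac3.Q57.SS.Law

/-!
# The Tate classes of actions of Galois groups, codimension by codimension
-/

open CategoryTheory AlgebraicGeometry

universe u v w

namespace Pool.Agent.H61.LS

open Module Filter Topology
open Pool.Agent.H914 Pool.Agent.H914.VarClass Pool.Agent.H914.VarClass.Obj
  Pool.Agent.H914.WeilCohomology Pool.Agent.Y133.Half Pool.Agent.H61.GX Pool.Agent.H61.ZX
  Pool.Agent.Q55

variable {k : Type u} [Field k] {𝒱 : VarClass k} {ops : CycleOps 𝒱}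
  {W : WeilCohomology.{u, v} ops} {X Y Z : 𝒱.Obj} {Γ : Type w} [Group Γ]
  {G : GaloisAction W Γ}

lemma ext_par_tmul {i j : ℕ} {a : W.H X} (_ : a ∈ W.gr X i) {b : W.H Y} (hb : b ∈ W.gr Y j) :
    extOp W 1 (par (W.isInternal Y)) (W.map (fst X Y) a * W.map (snd X Y) b) =
      (-1 : W.K) ^ j • (W.map (fst X Y) a * W.map (snd X Y) b) := by
  rw [extOp_tmul, par, scal_apply _ _ hb, map_smul, mul_smul_comm]
  rfl

/-- The operator `1 ⊗ par` preserves degrees. -/
lemma ext_par_mem {n : ℕ} {x : W.H (X.prod Y)} (hx : x ∈ W.gr (X.prod Y) n) :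
    extOp W 1 (par (W.isInternal Y)) x ∈ W.gr (X.prod Y) n := by
  have h1 : ∀ x : W.H (X.prod Y), H914.proj (W.isInternal (X.prod Y)) n
      (extOp W 1 (par (W.isInternal Y)) x) =
      extOp W 1 (par (W.isInternal Y)) (H914.proj (W.isInternal (X.prod Y)) n x) := by
    intro x
    refine W.kunneth_induction (p := fun x => H914.proj (W.isInternal (X.prod Y)) n
      (extOp W 1 (par (W.isInternal Y)) x) =
      extOp W 1 (par (W.isInternal Y)) (H914.proj (W.isInternal (X.prod Y)) n x)) ?_ ?_ x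
    · intro a b ha hb
      rw [map_add, map_add, map_add, map_add, ha, hb]
    · intro i j a ha b hb
      have h2 := W.mul_mem (W.map_mem (fst X Y) ha) (W.map_mem (snd X Y) hb)
      rw [ext_par_tmul ha hb, map_smul]
      by_cases hn : n = i + j
      · subst hn
        rw [proj_same _ h2, ext_par_tmul ha hb]
      · rw [proj_ne _ h2 (Ne.symm hn), map_zero, smul_zero]
  have h2 := proj_mem (W.isInternal (X.prod Y)) n (extOp W 1 (par (W.isInternal Y)) x)
  rw [h1, proj_same _ hx] at h2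
  exact h2

/-- The operator `1 ⊗ par` preserves Tate classes. -/
lemma isTate_ext_par {j : ℕ} {c : W.H (X.prod Y)} (hc : IsTate G (X.prod Y) j c) :
    IsTate G (X.prod Y) j (extOp W 1 (par (W.isInternal Y)) c) := by
  obtain ⟨hc1, Δ, hΔ, h⟩ := hc
  obtain ⟨Δ₁, hΔ₁, h₁⟩ := G.map_act (fst X Y)
  obtain ⟨Δ₂, hΔ₂, h₂⟩ := G.map_act (snd X Y)
  have := (G.isGalois X).finiteIndex
  have := (G.isGalois Y).finiteIndex
  refine ⟨ext_par_mem hc1, Δ ⊓ Δ₁ ⊓ Δ₂ ⊓ (G.ρ X).dom ⊓ (G.ρ Y).dom, inferInstance,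
    fun g hg hXY => ?_⟩
  obtain ⟨⟨⟨⟨g1, g2⟩, g3⟩, g4⟩, g5⟩ := hg
  have key : ∀ x : W.H (X.prod Y), (G.ρ (X.prod Y)).act g (extOp W 1 (par (W.isInternal Y)) x) =
      extOp W 1 (par (W.isInternal Y)) ((G.ρ (X.prod Y)).act g x) := by
    intro x
    refine W.kunneth_induction (p := fun x => (G.ρ (X.prod Y)).act g
      (extOp W 1 (par (W.isInternal Y)) x) =
      extOp W 1 (par (W.isInternal Y)) ((G.ρ (X.prod Y)).act g x)) ?_ ?_ x
    · intro a b ha hb
      rw [map_add, map_add, ha, hb, map_add, map_add]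
    · intro i j a ha b hb
      rw [ext_par_tmul ha hb, map_smul, map_mul, ← h₁ g g2 hXY g4, ← h₂ g g3 hXY g5,
        ext_par_tmul ((G.isGalois X).gr_mem g g4 i a ha) ((G.isGalois Y).gr_mem g g5 j b hb)]
  rw [key, h g g1 hXY, map_smul]

lemma isTate_diag (G : GaloisAction W Γ) (X : 𝒱.Obj) :
    IsTate G (X.prod X) X.dim (W.push (diag X) 1) := by
  have h1 : IsTate G X 0 (1 : W.H X) := by
    have := (tatePred G).cl (X := X) (j := 0) (z := X.V.fundCycle) X.V.fundCycle_mem
    rwa [W.cl_fund] at this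
  exact (tatePred G).push (diag X) (j := 0) (l := X.dim) (by rw [dim_prod]; ring) h1

lemma gc_tatePred (Q : 𝒱.Obj) (j : ℕ) {c : W.H Q} (hc : IsTate G Q j c) :
    c ∈ GC (tatePred G).sys Q (j : ℤ) :=
  ⟨ClassPred.sp_of (Q := tatePred G) hc, by rw [gz_nat]; exact hc.1⟩

/-- The parity operator is given by a Tate class. -/
theorem par_mem (G : GaloisAction W Γ) (X : 𝒱.Obj) :
    par (W.isInternal X) ∈ GOp (tatePred G).sys X X 0 := by
  have h1 := gc_tatePred _ _ (isTate_ext_par (isTate_diag G X))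
  have h2 := GOp.corr (S := (tatePred G).sys) (s := 0) h1 (by ring)
  have hev : Ev W (par (W.isInternal X)) := by
    intro b x hx
    rw [PH.par hx]
    exact Submodule.smul_mem _ _ hx
  rwa [corr_one_ext hev, Sys.corr_diag_one, LinearMap.comp_id] at h2

lemma sgr_tatePred (G : GaloisAction W Γ) : SGr (tatePred G).sys := by
  refine sgr_of_le fun Q c hc => ?_
  refine ClassPred.sp_ind (Q := tatePred G)
    (q := fun c => c ∈ ⨆ j : ℕ, GC (tatePred G).sys Q (j : ℤ)) ?_ ?_ ?_ hc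
  · intro j x hx
    exact Submodule.mem_iSup_of_mem j (gc_tatePred Q j hx)
  · exact Submodule.zero_mem _
  · intro a b ha hb
    exact Submodule.add_mem _ ha hb

lemma alg_le_tatePred (G : GaloisAction W Γ) (Q : 𝒱.Obj) :
    (algSys W).C Q ≤ (tatePred G).sys.C Q := fun _ hc => ClassPred.alg_le hc

/-- The space of the Tate classes of codimension `j`. -/
lemma mem_gc_tatePred {Q : 𝒱.Obj} {j : ℕ} {c : W.H Q} :
    c ∈ GC (tatePred G).sys Q (j : ℤ) ↔ IsTate G Q j c := by
  constructor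
  · rintro ⟨h1, h2⟩
    rw [gz_nat] at h2
    have h3 := ClassPred.sp_proj (Q := tatePred G) h1 j
    rw [proj_same _ h2] at h3
    exact h3
  · exact gc_tatePred Q j

end Pool.Agent.H61.LS
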