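import Pool.Agent.H61.GX.Prop
import Pool.Graph.R_seed8.Y163.Wed

/-!
# The growth of the homogeneous classes, for systems which contain the parity operator
-/

open CategoryTheory AlgebraicGeometry

universe u v

namespace Pool.Agent.H61.LS

open Module
open Pool.Agent.H914 Pool.Agent.H914.VarClass Pool.Agent.H914.VarClass.Obj
  Pool.Agent.H914.WeilCohomology Pool.Agent.Y133.Half Pool.Agent.H61.GX

variable {k : Type u} [Field k] {𝒱 : VarClass k} {ops : CycleOps 𝒱}
  {W : WeilCohomology.{u, v} ops} {X Y Z M : 𝒱.Obj} (S : Sys W)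

lemma par_pw_mem (hX : par (W.isInternal X) ∈ GOp S X X 0) :
    ∀ n, par (W.isInternal (pw X n)) ∈ GOp S (pw X n) (pw X n) 0
  | 0 => hX
  | n + 1 => by
    have h := GOp.ext (par_pw_mem hX n) hX
    rw [← Y163.par_prod] at h
    exact h

/-- A semisimple algebra of operators of degree zero of the system is at most as large as the rank
of the intersection form in the middle codimension. -/
theorem rep_le_ac (hp : par (W.isInternal M) ∈ GOp S M M 0) {N : ℕ}
    (ρ : Equiv.Perm (Fin N) →* Module.End W.K (W.H M)) (hρ : ∀ σ, ρ σ ∈ GOp S M M 0) :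
    finrank W.K (Submodule.span W.K (Set.range ρ)) ≤ ac S M := by
  have hR : Subalgebra.toSubmodule (repAlg ρ) = Submodule.span W.K (Set.range ρ) := by
    apply le_antisymm (repAlg_le ρ)
    rw [Submodule.span_le]
    rintro _ ⟨σ, rfl⟩
    exact rep_mem ρ σ
  have hle : Submodule.span W.K (Set.range ρ) ≤ GOp S M M 0 := by
    rw [Submodule.span_le]
    rintro _ ⟨σ, rfl⟩
    exact hρ σ
  have hle' : Subalgebra.toSubmodule (repAlg ρ) ≤ GOp S M M 0 := hR ▸ hle
  have hid : Ev W (1 : Module.End W.K (W.H M)) := Ev.id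
  have hadj : Adj W (1 : Module.End W.K (W.H M)) 1 := fun _ _ => rfl
  have h1 := rk_BG S (M := M) (N := M) hid hid hadj 0 0
  rw [extOp_one, add_zero] at h1
  change rk (A := GOp S M M 0) (B := GOp S M M 0) (BG S M M 1 1 0 0) = ac S M at h1
  rw [← h1, ← hR]
  -- the two embeddings
  let i : Subalgebra.toSubmodule (repAlg ρ) →ₗ[W.K] GOp S M M 0 := Submodule.inclusion hle'
  let j : Subalgebra.toSubmodule (repAlg ρ) →ₗ[W.K] GOp S M M 0 :=
    { toFun := fun v => ⟨(v : Module.End W.K (W.H M)) ∘ₗ par (W.isInternal M),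
        GOp.comp' (hle' v.2) hp (by ring)⟩
      map_add' := fun a b => Subtype.ext (by
        change ((a : Module.End W.K (W.H M)) + (b : Module.End W.K (W.H M))) ∘ₗ _ = _
        rw [LinearMap.add_comp]; rfl)
      map_smul' := fun c a => Subtype.ext (by
        change (c • (a : Module.End W.K (W.H M))) ∘ₗ _ = _
        rw [LinearMap.smul_comp]; rfl) }
  have h2 := rk_comp_le (A := GOp S M M 0) (B := GOp S M M 0)
    (A' := Subalgebra.toSubmodule (repAlg ρ)) (B' := Subalgebra.toSubmodule (repAlg ρ))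
    (BG S M M 1 1 0 0) i j
  refine le_trans ?_ h2
  -- the trace form is nondegenerate
  have hpp : par (W.isInternal M) * par (W.isInternal M) = 1 := H914.par_mul_par _
  have hform : ∀ u v : Subalgebra.toSubmodule (repAlg ρ),
      ((BG S M M 1 1 0 0).compl₁₂ i j) u v = LinearMap.trace W.K (W.H M)
        ((u : Module.End W.K (W.H M)) * v) := by
    intro u v
    rw [LinearMap.compl₁₂_apply, BG_apply]
    change LinearMap.trace W.K (W.H M) (par (W.isInternal M) * (1 *
      ((u : Module.End W.K (W.H M)) * (1 * ((v : Module.End W.K (W.H M)) *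
        par (W.isInternal M)))))) = _
    rw [one_mul, one_mul, LinearMap.trace_mul_comm, mul_assoc, mul_assoc, hpp, mul_one]
  have hinj : Function.Injective ((BG S M M 1 1 0 0).compl₁₂ i j) := by
    intro u u' huu
    have h3 : (u : Module.End W.K (W.H M)) - (u' : Module.End W.K (W.H M)) ∈
        Y163.rad (repAlg ρ) := by
      refine ⟨Subalgebra.sub_mem _ u.2 u'.2, fun y hy => ?_⟩
      have h4 := hform u ⟨y, hy⟩
      have h4' := hform u' ⟨y, hy⟩
      rw [huu, h4'] at h4
      change LinearMap.trace W.K (W.H M) ((u' : Module.End W.K (W.H M)) * y) =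
        LinearMap.trace W.K (W.H M) ((u : Module.End W.K (W.H M)) * y) at h4
      rw [sub_mul, map_sub, ← h4, sub_self]
    have h5 := (Y163.mem_rad_iff (repAlg ρ) ⟨_, h3.1⟩).1 h3
    rw [IsSemisimpleRing.jacobson_eq_bot] at h5
    have h6 : (⟨_, h3.1⟩ : repAlg ρ) = 0 := h5
    exact Subtype.ext (sub_eq_zero.1 (congrArg Subtype.val h6))
  unfold rk
  rw [LinearMap.finrank_range_of_inj hinj]

/-- **The growth of the rank of the intersection form in the middle codimension.** -/
theorem alc_growth (hX : par (W.isInternal X) ∈ GOp S X X 0) (n : ℕ) :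
    (finrank W.K (W.H X) ^ 2) ^ (n + 1) ≤ alc S X n * (n + 2) ^ (finrank W.K (W.H X) ^ 2) := by
  classical
  obtain ⟨e, he⟩ := exists_hbasis W X
  have h := span_perm (wb e n) (rho W X n) (tau_wb e he n)
  have h3 := rep_le_ac S (par_pw_mem S hX n) (rho W X n) (fun σ => GOp.map _)
  rw [Pool.Agent.Y133.Half.finrank_pw, ← pow_mul, Fintype.card_fin] at h
  calc (finrank W.K (W.H X) ^ 2) ^ (n + 1) = finrank W.K (W.H X) ^ ((n + 1) * 2) := by
        rw [← pow_mul, mul_comm]
    _ ≤ _ := h
    _ ≤ _ := Nat.mul_le_mul_right _ h3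

/-- A system which contains the parity operator and a divisor of nonvanishing degree is big. -/
theorem gbig_of_par (hX : par (W.isInternal X) ∈ GOp S X X 0) (hd : 0 < X.dim)
    (hlow : ∀ X, (algSys W).C X ≤ S.C X) {D : X.Cycles} (hD : X.IsCyc 1 D)
    (h : W.tr X (W.cl X D ^ X.dim) ≠ 0) : GBig S X := by
  have hH : 0 < finrank W.K (W.H X) := by
    have : Nontrivial (W.H X) := by
      by_contra hcon
      rw [not_nontrivial_iff_subsingleton] at hcon
      apply h
      rw [Subsingleton.elim (W.cl X D ^ X.dim) 0, map_zero]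
    exact finrank_pos
  refine gbig_of_growth (fun i hi => ?_) hH hd (e := finrank W.K (W.H X) ^ 2)
    fun n => alc_growth S hX n
  obtain ⟨a, ha, a', ha', e⟩ := alg_tw hD h i hi
  exact ⟨a, GC_mono hlow _ _ ha, a', GC_mono hlow _ _ ha', e⟩

end Pool.Agent.H61.LS
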