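import Pool.Agent.H61.LS.Grow
import Pool.Agent.H61.ZX.HN

/-!
# The rank of the intersection form on homogeneous classes on mixed products
-/

open CategoryTheory AlgebraicGeometry

universe u v

namespace Pool.Agent.H61.LS

open Module Filter Topology
open Pool.Agent.H914 Pool.Agent.H914.VarClass Pool.Agent.H914.VarClass.Obj
  Pool.Agent.H914.WeilCohomology Pool.Agent.Y133.Half Pool.Agent.H61.GX Pool.Agent.H61.ZX

variable {k : Type u} [Field k] {𝒱 : VarClass k} {ops : CycleOps 𝒱}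
  {W : WeilCohomology.{u, v} ops} {P Q X Y Z M : 𝒱.Obj} {S T : Sys W}

/-- A numerically trivial operator of degree `r` from `Z` to `P` yields many numerically trivial
operators. -/
lemma exists_g_of_gnum {r : ℤ} {t : W.H Z →ₗ[W.K] W.H P} (ht : t ∈ S.NOp Z P)
    (htr : t ∈ GOp S Z P r) (ht0 : t ≠ 0) (Q : 𝒱.Obj) {d e₁ e₂ : ℤ}
    (h1 : e₁ = Q.dim + (Z.dim + r - d)) (h2 : e₂ = P.dim + (d - Z.dim - r)) :
    ∃ g ∈ GOp S P P 0, g ∘ₗ g = g ∧ g ≠ 0 ∧
      rg S P g Q e₁ e₂ ≤ finrank W.K (GNum S (Z.prod Q) d) := by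
  let X' : Fin 2 → 𝒱.Obj := ![P, Q]
  let α : Fin 2 → ℤ := ![0, d - Z.dim - r]
  obtain ⟨g, hg, hgg, hg0, hB⟩ := exists_of_op (gcat S X' α) (i := 0) (U := W.H Z) (t := t) ht0
  have hg' : g ∈ GOp S P P 0 :=
    GOp.cast (S := S) (X := P) (Y := P) hg (show (0 : ℤ) - 0 = 0 by ring)
  refine ⟨g, hg', hgg, hg0, ?_⟩
  have e := rBg S X' α 0 1 (g := g) (GOp.ev hg')
    (show e₁ = (Q.dim : ℤ) + (0 - (d - Z.dim - r)) by rw [h1]; ring)
    (show e₂ = (P.dim : ℤ) + ((d - Z.dim - r) - 0) by rw [h2]; ring)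
  have h3 := hB 1 ((GNum S (Z.prod Q) d).map (corrL W Z Q)) (fun v hv => by
    have hv' : v ∈ GOp S P Q ((d - Z.dim - r) - 0) := hv
    have h4 : v ∘ₗ t ∈ S.NOp Z Q := Sys.NOp.comp_left (S := S) (GOp.op hv') ht
    have h5 : v ∘ₗ t ∈ GOp S Z Q (d - Z.dim) := GOp.comp' hv' htr (by ring)
    obtain ⟨c, hc, hcv⟩ := h4
    obtain ⟨c', hc', hcv'⟩ := mem_GOp.1 h5
    have h6 : c = c' := by
      refine sub_eq_zero.1 (corr_inj (W := W) ?_)
      change corrL W Z Q (c - c') = 0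
      rw [map_sub]
      exact sub_eq_zero.2 (hcv.trans hcv'.symm)
    refine ⟨c, ⟨hc, ?_⟩, hcv⟩
    rw [h6]
    have := hc'.2
    rwa [show (Z.dim : ℤ) + (d - Z.dim) = d by ring] at this)
  refine le_trans (le_of_eq e.symm) (h3.trans ?_)
  exact Submodule.finrank_map_le (corrL W Z Q) _

/-- Numerically trivial classes on one product `Z × X^m` yield many of them of all codimensions
near the middle. -/
theorem gnum_lower (hgr : SGr S) (hS : GBig S X) {m : ℕ} (h : S.Num (Z.prod (pw X m)) ≠ ⊥)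
    {δ : ℝ} (hδ : 0 < δ) (J : ℕ) : ∃ n₀ : ℕ, ∀ n ≥ n₀, ∀ d : ℤ, |2 * d - (n + 1) * X.dim| ≤ J →
      (1 - δ) * nrmg S X n ≤ finrank W.K (GNum S (Z.prod (pw X n)) d) := by
  rw [Ne, num_eq_bot_iff hgr] at h
  push Not at h
  obtain ⟨i, hi⟩ := h
  obtain ⟨c, hc, hc0⟩ := Submodule.exists_mem_ne_zero_of_ne_bot hi
  have ht : W.corr c ∈ S.NOp Z (pw X m) := Sys.NOp.corr hc.1
  have ht0 : W.corr c ≠ 0 := fun h => hc0 (corr_inj h)
  have htr : W.corr c ∈ GOp S Z (pw X m) ((i : ℤ) - Z.dim) :=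
    GOp.corr (gnum_le _ _ hc) (by ring)
  obtain ⟨n₀, hn₀⟩ := glow_pw hS m (δ := δ) hδ (J + 2 * i)
  refine ⟨n₀, fun n hn d hd => ?_⟩
  obtain ⟨g, hg, hgg, hg0, hr⟩ := exists_g_of_gnum ht htr ht0 (pw X n) (d := d)
    (e₁ := (n + 1) * X.dim + (i - d)) (e₂ := (pw X m).dim + (d - i))
    (by rw [dim_pw X n]; push_cast; ring) (by ring)
  have h1 := hn₀ n hn (pw X m) (Iso.refl _) g hg hgg ((n + 1) * X.dim + (i - d))
    ((pw X m).dim + (d - i)) (by ring) (by
      have h3 := abs_le.1 hd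
      rw [abs_le]
      push_cast
      constructor
      · linarith [h3.2]
      · linarith [h3.1])
  have h2 : (1 : ℝ) ≤ finrank W.K (LinearMap.range g) := by
    exact_mod_cast Sys.finrank_range_pos hg0
  have h3 := nrmg_nonneg (S := S) (X := X) n
  have h4 : (rg S (pw X m) g (pw X n) ((n + 1) * X.dim + (i - d)) ((pw X m).dim + (d - i)) : ℝ) ≤
      finrank W.K (GNum S (Z.prod (pw X n)) d) := by
    exact_mod_cast hr
  nlinarith

/-- The rank of a maximal idempotent, if there are numerically trivial classes. -/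
lemma grank_add_two_le (hN : ∀ n, S.Num (pw X n) = ⊥) {π : Module.End W.K (W.H Z)}
    (hπ : GGood S S X Z π) {m : ℕ} (h : S.Num (Z.prod (pw X m)) ≠ ⊥) :
    finrank W.K (LinearMap.range π) + 2 ≤ finrank W.K (W.H Z) := by
  have hgen : π ∈ idl S S X Z := gidl_le_idl S X Z hπ.gen
  obtain ⟨c, hc, hc0⟩ := Submodule.exists_mem_ne_zero_of_ne_bot h
  have ht : W.corr c ∈ S.NOp Z (pw X m) := Sys.NOp.corr hc
  have ht0 : W.corr c ≠ 0 := fun h => hc0 (corr_inj h)
  have hs : W.corr (W.map (swap (pw X m) Z) c) ∈ S.NOp (pw X m) Z :=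
    Sys.NOp.corr (Sys.Num.map _ hc)
  have hadj := tr_corr' (W := W) (c := c) (S.even hc.1)
  set t := W.corr c with htdef
  set s := W.corr (W.map (swap (pw X m) Z) c) with hsdef
  have hs0 : s ≠ 0 := by
    intro h0
    apply ht0
    apply LinearMap.ext
    intro a
    apply W.tr_ext
    intro b
    rw [hadj, h0, LinearMap.zero_apply, LinearMap.zero_apply, mul_zero, zero_mul, map_zero,
      map_zero]
  have e1 : t ∘ₗ π = 0 := N_comp_idl hN hgen ht
  have e2 : π ∘ₗ s = 0 := idl_comp_N hN hgen hs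
  have e3 : t ∘ₗ s = 0 := NOp_eq_zero hN (Sys.NOp.comp_right ht (Sys.NOp.op hs))
  have h1 : LinearMap.range π ⊔ LinearMap.range s ≤ LinearMap.ker t := by
    refine sup_le ?_ ?_
    · rintro _ ⟨x, rfl⟩
      exact congrArg (fun f => f x) e1
    · rintro _ ⟨x, rfl⟩
      exact congrArg (fun f => f x) e3
  have h2 : LinearMap.range π ⊓ LinearMap.range s = ⊥ := by
    rw [eq_bot_iff]
    rintro x ⟨⟨y, hy⟩, ⟨w, hw⟩⟩
    rw [Submodule.mem_bot]
    have h3 : π x = x := by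
      rw [← hy]
      exact congrArg (fun f => f y) hπ.idem
    have h4 : π x = 0 := by
      rw [← hw]
      exact congrArg (fun f => f w) e2
    rw [← h3, h4]
  have h3 := Submodule.finrank_sup_add_finrank_inf_eq (LinearMap.range π) (LinearMap.range s)
  rw [h2, finrank_bot, add_zero] at h3
  have h4 := Submodule.finrank_mono h1
  have h5 := LinearMap.finrank_range_add_finrank_ker t
  have h6 : 1 ≤ finrank W.K (LinearMap.range s) := by
    rw [Nat.one_le_iff_ne_zero]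
    intro h
    exact hs0 (LinearMap.range_eq_bot.1 (Submodule.finrank_eq_zero.1 h))
  have h7 : 1 ≤ finrank W.K (LinearMap.range t) := by
    rw [Nat.one_le_iff_ne_zero]
    intro h
    exact ht0 (LinearMap.range_eq_bot.1 (Submodule.finrank_eq_zero.1 h))
  omega

/-- Dimension, rank and numerically trivial classes of given codimension. -/
lemma ag_add_gnum (hgr : SGr S) (Q : 𝒱.Obj) (d : ℤ) :
    ag S Q d (Q.dim - d) + finrank W.K (GNum S Q d) = finrank W.K (GC S Q d) := by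
  rw [← gnum_ker hgr Q d]
  exact LinearMap.finrank_range_add_finrank_ker _

/-- The multiples of the pull-backs. -/
lemma finrank_GC_snd_le (hZ : (1 : W.H Z) ≠ 0) (S : Sys W) (Q : 𝒱.Obj) (d : ℤ) :
    finrank W.K (GC S Q d) ≤ finrank W.K (GC S (Z.prod Q) d) := by
  refine LinearMap.finrank_le_finrank_of_injective (f := mapG S (snd Z Q) d) ?_
  rintro ⟨x, hx⟩ ⟨y, hy⟩ hxy
  apply Subtype.ext
  have h1 : W.map (snd Z Q) x = W.map (snd Z Q) y := congrArg Subtype.val hxy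
  have h3 : xp W (1 : W.H Z) (x - y) = 0 := by
    rw [xp, map_one, one_mul, map_sub, h1, sub_self]
  exact sub_eq_zero.1 (xp_eq_zero_left hZ h3)

/-- **The zero law in single codimensions.** -/
theorem gzero_law (hgr : SGr S) (hS : GBig S X) (hZ : (1 : W.H Z) ≠ 0)
    (h : ¬ ∀ n, S.Num (pw X n) = ⊥) (N J : ℕ) : ∃ n₀ : ℕ, ∀ n ≥ n₀, ∀ d d' : ℤ,
      d + d' = Z.dim + (n + 1) * X.dim → |2 * d - (n + 1) * X.dim| ≤ J →
      N * ag S (Z.prod (pw X n)) d d' ≤ finrank W.K (GC S (Z.prod (pw X n)) d) := by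
  rcases gnum_or hgr (fun _ => le_rfl) hS with h1 | h1
  · exact absurd h1 h
  set β := finrank W.K (W.H Z) with hβ
  obtain ⟨n₀, hn₀⟩ := h1 (N * β) J
  refine ⟨max n₀ 2, fun n hn d d' hd hJ => ?_⟩
  have h2 := hn₀ n ((le_max_left _ _).trans hn) d hJ
  have h3 := rg_nrm S (Z := Z) (X := X) (e := 1) GOp.id rfl n ((le_max_right _ _).trans hn) hd
  rw [rg_one, Sys.rank_one] at h3
  have h4 : (N * ag S (Z.prod (pw X n)) d d' : ℝ) ≤ finrank W.K (GC S (pw X n) d) := by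
    calc (N * ag S (Z.prod (pw X n)) d d' : ℝ) ≤ N * (β * nrmg S X n) :=
          mul_le_mul_of_nonneg_left h3 (Nat.cast_nonneg _)
      _ = ((N * β : ℕ) : ℝ) * nrmg S X n := by push_cast; ring
      _ ≤ _ := h2
  have h5 : N * ag S (Z.prod (pw X n)) d d' ≤ finrank W.K (GC S (pw X n) d) := by
    exact_mod_cast h4
  exact h5.trans (finrank_GC_snd_le hZ S _ _)

/-- **The limit law and the gap in single codimensions**, if there are no numerically trivial
classes on the powers of `X`. -/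
theorem glimit_gap (hgr : SGr S) (hS : GBig S X) (hN : ∀ n, S.Num (pw X n) = ⊥)
    (hZ : ∃ l ∈ GC S Z Z.dim, W.tr Z l = 1) :
    ∃ w : ℕ, 1 ≤ w ∧ w ≤ finrank W.K (W.H Z) ∧
      Asy X (fun n d => ag S (Z.prod (pw X n)) d (Z.dim + (n + 1) * X.dim - d)) w (nrmg S X) ∧
      Asy X (fun n d => finrank W.K (GC S (pw X n) d)) 1 (nrmg S X) ∧
      ((∀ n, S.Num (Z.prod (pw X n)) = ⊥) ∨ (w + 2 ≤ finrank W.K (W.H Z) ∧
        ∀ ε : ℝ, 0 < ε → ∀ J : ℕ, ∃ n₀ : ℕ, ∀ n ≥ n₀, ∀ d : ℤ, |2 * d - (n + 1) * X.dim| ≤ J →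
          (ag S (Z.prod (pw X n)) d (Z.dim + (n + 1) * X.dim - d) : ℝ) ≤
            (1 - 1 / ((finrank W.K (W.H Z) : ℝ) - 1) + ε) *
              finrank W.K (GC S (Z.prod (pw X n)) d))) := by
  have hX : ∃ l ∈ GC S X X.dim, W.tr X l = 1 := by
    obtain ⟨a, ha, a', ha', h⟩ := hS.tw 0 (Nat.zero_le _)
    refine ⟨a * a', ?_, h⟩
    have := GC.mul ha ha'
    rwa [show ((0 : ℕ) : ℤ) + ((X.dim : ℤ) - (0 : ℕ)) = X.dim by push_cast; ring] at this
  obtain ⟨π, hπ, hmax, -⟩ := exists_gmax (S := S) (T := S) (Z := Z) (X := X) (fun _ => le_rfl)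
    GGood.zero
  set w := finrank W.K (LinearMap.range π) with hw
  have hw1 : 1 ≤ w := Sys.finrank_range_pos (gmaxi_ne_zero hX hZ hmax)
  have a1 : Asy X (fun n d => ag S (Z.prod (pw X n)) d (Z.dim + (n + 1) * X.dim - d)) w
      (nrmg S X) := by
    refine (asy_of_low hπ.mem hπ.idem (hπ.low S hS fun _ => le_rfl)).congr fun n d => ?_
    exact (ag_le_rg hπ.mem hmax n (by ring)).symm
  have a2 : Asy X (fun n d => finrank W.K (GC S (pw X n) d)) 1 (nrmg S X) := by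
    refine (asy_pw hS).congr fun n d => ?_
    have h1 := ag_add_gnum hgr (pw X n) d
    have h2 : GNum S (pw X n) d = ⊥ := by rw [GNum, hN, bot_inf_eq]
    rw [h2, finrank_bot, add_zero, dim_pw] at h1
    push_cast at h1
    exact h1
  refine ⟨w, hw1, Submodule.finrank_le _, a1, a2, ?_⟩
  by_cases hall : ∀ n, S.Num (Z.prod (pw X n)) = ⊥
  · exact Or.inl hall
  right
  push Not at hall
  obtain ⟨m, hm⟩ := hall
  have h1 := grank_add_two_le hN hπ hm
  rw [← hw] at h1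
  refine ⟨h1, fun ε hε J => ?_⟩
  set β : ℝ := (finrank W.K (W.H Z) : ℝ) with hβ
  have hu2 : (w : ℝ) + 2 ≤ β := by rw [hβ]; exact_mod_cast h1
  have hu0 : (0 : ℝ) ≤ w := Nat.cast_nonneg _
  have hβ1 : 0 < β - 1 := by linarith
  -- choose `δ` small
  set δ : ℝ := min (1 / 2) (ε / 4) with hδ
  have hδ0 : 0 < δ := lt_min (by norm_num) (by positivity)
  have hδh : δ ≤ 1 / 2 := min_le_left _ _
  have hδε : δ ≤ ε / 4 := min_le_right _ _
  obtain ⟨n₁, hn₁⟩ := gnum_lower hgr hS hm hδ0 J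
  obtain ⟨n₂, hn₂⟩ := a1 δ hδ0 J
  refine ⟨max n₁ n₂, fun n hn d hd => ?_⟩
  have hlow := hn₁ n ((le_max_left _ _).trans hn) d hd
  have hup := (abs_le.1 (hn₂ n ((le_max_right _ _).trans hn) d hd)).2
  have h8 : (finrank W.K (GC S (Z.prod (pw X n)) d) : ℝ) =
      ag S (Z.prod (pw X n)) d (Z.dim + (n + 1) * X.dim - d) +
        finrank W.K (GNum S (Z.prod (pw X n)) d) := by
    have h9 := ag_add_gnum hgr (Z.prod (pw X n)) d
    rw [show (((Z.prod (pw X n)).dim : ℤ) - d) = Z.dim + (n + 1) * X.dim - d by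
      rw [dim_prod, dim_pw]; push_cast; ring] at h9
    exact_mod_cast h9.symm
  rw [h8]
  dsimp only at hup
  set a : ℝ := (ag S (Z.prod (pw X n)) d (Z.dim + (n + 1) * X.dim - d) : ℝ) with ha
  set ν : ℝ := (finrank W.K (GNum S (Z.prod (pw X n)) d) : ℝ) with hν
  set x := nrmg S X n with hx
  have hx0 : 0 ≤ x := nrmg_nonneg (S := S) (X := X) n
  have ha0 : 0 ≤ a := Nat.cast_nonneg _
  have hν0 : 0 ≤ ν := Nat.cast_nonneg _
  -- `a ≤ (w + δ) x`, `(1 - δ) x ≤ ν`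
  have h9 : a * (1 - δ) ≤ (w + δ) * ν := by
    have h10 : a * (1 - δ) ≤ (w + δ) * x * (1 - δ) :=
      mul_le_mul_of_nonneg_right (by linarith) (by linarith)
    have h11 : (w + δ) * ((1 - δ) * x) ≤ (w + δ) * ν :=
      mul_le_mul_of_nonneg_left hlow (by linarith)
    linarith
  have h12 : (w + δ) * ν ≤ (β - 2 + δ) * ν := mul_le_mul_of_nonneg_right (by linarith) hν0
  -- the claim
  have h13 : a ≤ (β - 2) * ν + δ * (a + ν) := by linarith
  have h14 : (1 - 1 / (β - 1) + ε) = (β - 2) / (β - 1) + ε := by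
    field_simp
    ring
  rw [h14]
  have h15 : a * (β - 1) ≤ (β - 2) * (a + ν) + δ * (a + ν) := by nlinarith
  have h16 : a ≤ ((β - 2) * (a + ν) + δ * (a + ν)) / (β - 1) := by
    rw [le_div_iff₀ hβ1]
    exact h15
  have h17 : δ * (a + ν) / (β - 1) ≤ ε * (a + ν) := by
    rw [div_le_iff₀ hβ1]
    have h18 : 1 ≤ β - 1 := by linarith
    have h19 : δ * (a + ν) ≤ ε * (a + ν) := by nlinarith
    have h21 : 0 ≤ ε * (a + ν) := by positivity
    nlinarith
  calc a ≤ ((β - 2) * (a + ν) + δ * (a + ν)) / (β - 1) := h16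
    _ = (β - 2) / (β - 1) * (a + ν) + δ * (a + ν) / (β - 1) := by ring
    _ ≤ (β - 2) / (β - 1) * (a + ν) + ε * (a + ν) := by linarith
    _ = _ := by ring

end Pool.Agent.H61.LS
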