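import Pool.Agent.H61.LS.RateG
import Pool.Agent.H61.LS.Frob
import Pool.Agent.H61.LS.Alg
import Pool.Graph.R_seed8.Y133.Half.DLaw

/-!
# Numbers of Tate classes in one codimension
-/

set_option autoImplicit false
set_option linter.unusedSectionVars false

open CategoryTheory AlgebraicGeometry

universe u v

namespace Pool.Agent.H61.LS

open Module
open Pool.Agent.H914 Pool.Agent.H914.VarClass Pool.Agent.H914.VarClass.Obj
  Pool.Agent.H914.WeilCohomology Pool.Agent.W534 Pool.Agent.Y163.MW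
  Pool.Agent.H281R3.HT Pool.Agent.H61.GX
open Pool.Agent.Y163 hiding pw dim_pw
open Pool.Agent.K7.H8.TH
open Pool.Agent.Y133.Half (pw FrobSemisimple tateSys trueTateSys algSys isTate_iff eig_mul)

variable {k : Type u} [Field k] {𝒱 : VarClass k} {ops : CycleOps 𝒱}
  {W : WeilCohomology.{u, v} ops} {p : ℕ}

lemma tateSpan_gc (Φ : FrobSystem W p) (Y : 𝒱.Obj) (j : ℕ) :
    tateSpan Φ Y j = GC (trueTateSys Φ) Y (j : ℤ) := by
  have h : {c : W.H Y | IsTate Φ Y j c} = (GC (trueTateSys Φ) Y (j : ℤ) : Set (W.H Y)) := by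
    ext c
    exact mem_gc_trueTate.symm
  rw [tateSpan, h, Submodule.span_eq]

/-- The rank of the pairing of the Tate classes. -/
theorem tate_rank {Φ : FrobSystem W p} {t0 : ℕ} {Y : 𝒱.Obj} {G v : ℝ} (D : FData Φ t0 Y G v)
    {j l : ℕ} (hjl : j + l = Y.dim) :
    tateRankIn Φ Y j + cn D.a (D.QQj j) (-2) ≤ cn D.a (D.QQj j) 0 := by
  obtain ⟨t2, ht2, h2⟩ := exists_eig_stable Φ Y l
  obtain ⟨t3, ht3, h3⟩ := exists_eig_stable Φ Y j
  obtain ⟨s, m, hs, hm, ⟨q, hq⟩, R, hT, hT'⟩ := D.exists_s j (Nat.mul_pos ht2 ht3)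
  obtain ⟨e, h, H⟩ := D.dat.sl2
  set μ : W.K := (card Φ Y s : W.K) ^ j with hμ
  have hμ0 : μ ≠ 0 := pow_ne_zero _ (card_ne Φ s)
  have hm0 : (m : W.K) ≠ 0 := Nat.cast_ne_zero.2 hm.ne'
  have L := lead_of_rel D.dat R hm0 hμ0 hT
  set f := (μ⁻¹ • frob Φ Y s - 1 : Module.End W.K (W.H Y)) with hf
  have hQ : {i | D.ty i ∈ D.TT j} = D.QQj j := rfl
  rw [hQ] at L
  have hfz : ∀ x, frob Φ Y s x = μ • x ↔ f x = 0 := by
    intro x
    rw [hf, LinearMap.sub_apply, LinearMap.smul_apply, Module.End.one_apply, sub_eq_zero]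
    constructor
    · intro h
      rw [h, smul_smul, inv_mul_cancel₀ hμ0, one_smul]
    · intro h
      conv_rhs => rw [← h]
      rw [smul_smul, mul_inv_cancel₀ hμ0, one_smul]
  have hnil : ∀ (n : ℕ) (x : W.H Y), x ∈ W.gr Y (2 * j) → (f ^ n) x = 0 →
      x ∈ sp D.b (D.QQj j) := by
    intro n x hx h0
    exact mem_of_nil D.dat R hμ0 (S := D.TT j) (S' := {θ | D.dg θ = 2 * j})
      (fun θ h5 h6 h7 => h6 (hT' θ h5 h7)) ((D.gr_eq (2 * j)).1 hx) h0
  have hcj : ∀ c, c ∈ tateSpan Φ Y j ↔ c ∈ eigS Φ Y s j := by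
    intro c
    have h6 := tateSpan_eq h3 (t2 * q) (by
      rw [show t3 * (t2 * q) = s by rw [hq]; ring]
      exact hs)
    rw [show t3 * (t2 * q) = s by rw [hq]; ring] at h6
    rw [h6]
  have hcl : ∀ c, c ∈ tateSpan Φ Y l ↔ c ∈ eigS Φ Y s l := by
    intro c
    have h6 := tateSpan_eq h2 (t3 * q) (by
      rw [show t2 * (t3 * q) = s by rw [hq]; ring]
      exact hs)
    rw [show t2 * (t3 * q) = s by rw [hq]; ring] at h6
    rw [h6]
  have hle : tateSpan Φ Y j ≤ LinearMap.ker f ⊓ sp D.b (D.QQj j) := by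
    intro c hc
    obtain ⟨h5, h6⟩ := mem_eigS.1 ((hcj c).1 hc)
    have h7 := (hfz c).1 h5
    exact ⟨h7, hnil 1 c h6 (by rwa [pow_one])⟩
  have h5 := finrank_le_image H L (tateSpan Φ Y j) hle
  have h7 : finrank W.K (tateSpan Φ Y j ⊓
      (sp D.b (D.QQj j)).map f : Submodule W.K (W.H Y)) ≤
      finrank W.K (GNum (trueTateSys Φ) Y (j : ℤ)) := by
    apply Submodule.finrank_mono
    rintro x ⟨hx, y, hy, hxy⟩
    rw [mem_gnum (sgr_trueTate Φ)]
    refine ⟨by rw [← tateSpan_gc]; exact hx, fun c hc => ?_⟩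
    have hl : (Y.dim : ℤ) - j = (l : ℤ) := by
      have : ((j + l : ℕ) : ℤ) = Y.dim := by exact_mod_cast hjl
      push_cast at this
      linarith
    rw [hl, ← tateSpan_gc, hcl] at hc
    obtain ⟨hc1, -⟩ := mem_eigS.1 hc
    have hμμ : μ * (card Φ Y s : W.K) ^ l = (card Φ Y s : W.K) ^ Y.dim := by
      rw [hμ, ← pow_add, hjl]
    have h8 := tr_adj Φ (Z := Y) (s := s) hμμ y c
    have h9 : (frob Φ Y s - ((card Φ Y s : W.K) ^ l) • (1 : Module.End W.K (W.H Y))) c = 0 := by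
      rw [LinearMap.sub_apply, LinearMap.smul_apply, Module.End.one_apply, hc1, sub_self]
    rw [h9, mul_zero, map_zero] at h8
    have h10 : W.tr Y ((frob Φ Y s - μ • (1 : Module.End W.K (W.H Y))) y * c) = 0 := by
      have h11 : -(card Φ Y s : W.K) ^ l ≠ 0 := neg_ne_zero.2 (pow_ne_zero _ (card_ne Φ s))
      exact (mul_eq_zero.1 h8.symm).resolve_left h11
    have h12 : (frob Φ Y s - μ • (1 : Module.End W.K (W.H Y))) y = μ • x := by
      rw [← hxy]
      have := f_pow_eq (frob Φ Y s) hμ0 1 y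
      rwa [pow_one, pow_one, pow_one] at this
    rw [h12, smul_mul_assoc, map_smul, smul_eq_mul] at h10
    exact (mul_eq_zero.1 h10).resolve_left hμ0
  have h8 := LS.ag_add_gnum (sgr_trueTate Φ) Y j
  rw [tateRankIn_eq (by omega)]
  have h9 : finrank W.K (tateSpan Φ Y j) = finrank W.K (GC (trueTateSys Φ) Y (j : ℤ)) := by
    rw [tateSpan_gc]
  omega

/-- The growth of the generalised Tate classes near the middle. -/
theorem gen_growth (Φ : FrobSystem W p) {X Z : 𝒱.Obj} (hT : GBig (tateSys Φ) X)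
    (hp : par (W.isInternal X) ∈ GOp (tateSys Φ) X X 0) (hZ1 : (1 : W.H Z) ≠ 0) (J : ℕ) :
    ∃ n₀ : ℕ, ∀ n ≥ n₀, ∀ j : ℕ, |2 * (j : ℤ) - (n + 1) * X.dim| ≤ J →
      (finrank W.K (W.H X) : ℝ) ^ (n + 1) ≤
        (finrank W.K (genU Φ (Z.prod (pw X n)) j) : ℝ) *
          (((n + 1 : ℕ) : ℝ) + 2) ^ (finrank W.K (W.H X) ^ 2 + 1) := by
  obtain ⟨n₀, hn₀⟩ := asy_pw hT (1 / 2) (by norm_num) J
  refine ⟨max n₀ 2, fun n hn j hj => ?_⟩
  have h2n : 2 ≤ n := (le_max_right _ _).trans hn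
  have h1 := hn₀ n ((le_max_left _ _).trans hn) (j : ℤ) hj
  set b := finrank W.K (W.H X) with hb
  set x := nrmg (tateSys Φ) X n with hx
  have hx0 : 0 < x := nrmg_pos hT n
  have h2 : (ag (tateSys Φ) (pw X n) (j : ℤ) ((n + 1) * X.dim - j) : ℝ) ≤
      finrank W.K (GC (tateSys Φ) (pw X n) (j : ℤ)) := by
    have h3 := LS.ag_add_gnum (sgr_tate Φ) (pw X n) (j : ℤ)
    have h4 : ((pw X n).dim : ℤ) - j = (n + 1) * X.dim - j := by
      rw [dim_pw]
      push_cast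
      ring
    rw [h4] at h3
    have h5 : ag (tateSys Φ) (pw X n) (j : ℤ) ((n + 1) * X.dim - j) ≤
        finrank W.K (GC (tateSys Φ) (pw X n) (j : ℤ)) := by omega
    exact_mod_cast h5
  have h3 : (finrank W.K (GC (tateSys Φ) (pw X n) (j : ℤ)) : ℝ) ≤
      finrank W.K (genU Φ (Z.prod (pw X n)) j) := by
    rw [← gc_tate]
    exact_mod_cast finrank_GC_snd_le hZ1 (tateSys Φ) (pw X n) (j : ℤ)
  have h4 : x ≤ 2 * finrank W.K (genU Φ (Z.prod (pw X n)) j) := by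
    have h5 := (abs_le.1 h1).1
    dsimp only at h5
    linarith
  have h5 : (b : ℝ) ^ (n + 1) ≤ x * ((n : ℝ) + 2) ^ (b ^ 2) := by
    set l := (n - n % 2 - 2) / 2 with hl
    have h6 := alc_growth (tateSys Φ) hp l
    rw [← hb] at h6
    have h7 : ((b : ℝ) ^ 2) ^ (l + 1) ≤ alc (tateSys Φ) X l * ((l : ℝ) + 2) ^ (b ^ 2) := by
      exact_mod_cast h6
    have e1 : n + 1 = (n % 2 + 1) + 2 * (l + 1) := by omega
    have h8 : ((l : ℝ) + 2) ≤ (n : ℝ) + 2 := by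
      have : l ≤ n := by omega
      have : (l : ℝ) ≤ n := by exact_mod_cast this
      linarith
    rw [hx, nrmg, ← hb, ← hl]
    conv_lhs => rw [e1, pow_add, pow_mul]
    calc (b : ℝ) ^ (n % 2 + 1) * ((b : ℝ) ^ 2) ^ (l + 1)
        ≤ (b : ℝ) ^ (n % 2 + 1) * (alc (tateSys Φ) X l * ((l : ℝ) + 2) ^ (b ^ 2)) :=
          mul_le_mul_of_nonneg_left h7 (by positivity)
      _ ≤ (b : ℝ) ^ (n % 2 + 1) * (alc (tateSys Φ) X l * ((n : ℝ) + 2) ^ (b ^ 2)) := by
          gcongr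
      _ = _ := by ring
  have h6 : (0 : ℝ) ≤ finrank W.K (genU Φ (Z.prod (pw X n)) j) := Nat.cast_nonneg _
  have hn0 : (0 : ℝ) ≤ n := Nat.cast_nonneg _
  calc (b : ℝ) ^ (n + 1) ≤ x * ((n : ℝ) + 2) ^ (b ^ 2) := h5
    _ ≤ (2 * finrank W.K (genU Φ (Z.prod (pw X n)) j)) * ((n : ℝ) + 2) ^ (b ^ 2) :=
        mul_le_mul_of_nonneg_right h4 (by positivity)
    _ = finrank W.K (genU Φ (Z.prod (pw X n)) j) * (((n : ℝ) + 2) ^ (b ^ 2) * 2) := by ring
    _ ≤ finrank W.K (genU Φ (Z.prod (pw X n)) j) *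
          ((((n + 1 : ℕ) : ℝ) + 2) ^ (b ^ 2) * (((n + 1 : ℕ) : ℝ) + 2)) := by
        apply mul_le_mul_of_nonneg_left _ h6
        apply mul_le_mul _ _ (by norm_num) (by positivity)
        · apply pow_le_pow_left₀ (by positivity)
          push_cast
          linarith
        · push_cast
          linarith
    _ = _ := by rw [← pow_succ]

end Pool.Agent.H61.LS
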