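import Pool.Agent.H61.LS.Clt3

/-!
# The data of the products with the powers of a variety
-/

set_option autoImplicit false
set_option linter.unusedSectionVars false

open CategoryTheory AlgebraicGeometry

universe u v

namespace Pool.Agent.H61.LS

open Module
open Pool.Agent.H914 Pool.Agent.H914.VarClass Pool.Agent.H914.VarClass.Obj
  Pool.Agent.H914.WeilCohomology Pool.Agent.W534 Pool.Agent.Y163.MW
open Pool.Agent.K7.H8.TH
open Pool.Agent.Y133.Half (pw FrobSemisimple)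

section lin

variable {K : Type u} [Field K] [CharZero K] {V : Type v} [AddCommGroup V] [Module K V]
  {I Θ : Type} {b : Basis I K V} {a : I → ℤ} {ty : I → Θ} {N T : Module.End K V}
  {c : Θ → K} {t : K}

lemma dat_smul {r : K} (hr : r ≠ 0) (D : Dat b a ty N) : Dat b a ty (r • N) := by
  obtain ⟨e, h, H⟩ := D.sl2
  refine ⟨⟨r⁻¹ • e, h, ⟨H.wt, ?_, ?_, ?_⟩⟩, fun i => ?_⟩
  · rw [smul_mul_smul_comm, smul_mul_smul_comm, inv_mul_cancel₀ hr, mul_inv_cancel₀ hr, one_smul,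
      one_smul]
    exact H.eN
  · rw [mul_smul_comm, smul_mul_assoc, ← smul_sub, H.hN, smul_comm]
  · rw [mul_smul_comm, smul_mul_assoc, ← smul_sub, H.he, smul_comm]
  · rw [LinearMap.smul_apply]
    exact Submodule.smul_mem _ _ (D.N_mem i)

/-- A Jordan basis of an invertible operator: the operator is `al s • (1 + N)` on the block `s`, of
size `len s + 1`, where `N` shifts the vectors of the block. -/
structure IsJordanBasis {ι : Type} (F : Module.End K V) (len : ι → ℕ) (al : ι → K)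
    (b : Basis (Σ s : ι, Fin (len s + 1)) K V) : Prop where
  ne : ∀ s, al s ≠ 0
  step : ∀ s (i : Fin (len s)), F (b ⟨s, i.castSucc⟩) = al s • (b ⟨s, i.castSucc⟩ + b ⟨s, i.succ⟩)
  last : ∀ s, F (b ⟨s, Fin.last (len s)⟩) = al s • b ⟨s, Fin.last (len s)⟩

lemma sum_exp_prod {I J : Type} [Fintype I] [Fintype J] (f : I → ℝ) (g : J → ℝ) (l : ℝ) :
    ∑ q : I × J, Real.exp (l * (f q.1 + g q.2)) =
      (∑ i, Real.exp (l * f i)) * ∑ j, Real.exp (l * g j) := by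
  rw [Finset.sum_mul_sum, Fintype.sum_prod_type]
  refine Finset.sum_congr rfl fun i _ => Finset.sum_congr rfl fun j _ => ?_
  rw [← Real.exp_add]
  congr 1
  ring

end lin

variable {k : Type u} [Field k] {𝒱 : VarClass k} {ops : CycleOps 𝒱}
  {W : WeilCohomology.{u, v} ops} {p : ℕ}

/-- The data with variances. -/
structure GData (Φ : FrobSystem W p) (t0 : ℕ) (Y : 𝒱.Obj) (G v A : ℝ) (M : ℝ → ℝ) extends
    FData Φ t0 Y G v where
  vv : Θ → ℝ
  gau : Gau a ty kk vv A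
  mgf : ∀ l, ∑ i, Real.exp (l * vv (ty i)) = M l

namespace GData

variable {Φ : FrobSystem W p} {t0 : ℕ} {Y Y1 Y2 : 𝒱.Obj} {G v G1 v1 G2 v2 A : ℝ}
  {M M1 M2 : ℝ → ℝ}

/-- Change of the exponent. -/
theorem rescale (D : GData Φ t0 Y G v A M) {r : ℕ} (hr : 0 < r) :
    Nonempty (GData Φ (t0 * r) Y G v A M) := by
  have hr' : (r : W.K) ≠ 0 := Nat.cast_ne_zero.2 hr.ne'
  refine ⟨⟨⟨D.I, D.Θ, D.fI, D.fΘ, D.dΘ, D.b, D.a, D.ty, D.kk, (r : W.K) • D.N,
    fun θ => D.al θ ^ r, D.dg, dat_smul hr' D.dat, D.wts, D.sum, D.deg,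
    fun θ => pow_ne_zero _ (D.al_ne θ), D.m0, D.m0_pos, ?_⟩, D.vv, D.gau, D.mgf⟩⟩
  intro l hl hml
  obtain ⟨s, hs, hs', R⟩ := D.rel (r * l) (Nat.mul_pos hr hl) (Dvd.dvd.mul_left hml r)
  refine ⟨s, hs, by rw [hs']; ring, fun i => ?_⟩
  have h := R i
  dsimp only at h ⊢
  rw [← pow_mul, LinearMap.smul_apply, smul_smul, mul_comm (l : W.K) (r : W.K)]
  rwa [Nat.cast_mul] at h

/-- The data of a product. -/
theorem prod (hA : 0 ≤ A) (D1 : GData Φ t0 Y1 G1 v1 A M1) (D2 : GData Φ t0 Y2 G2 v2 A M2) :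
    Nonempty (GData Φ t0 (Y1.prod Y2) (G1 * G2) (v1 + v2) A (fun l => M1 l * M2 l)) := by
  set κ := kappa W Y1 Y2 with hκ
  obtain ⟨a, b, ha, hb, hab, hf⟩ := W534.frob_comm (W := W) Φ (fst Y1 Y2)
  obtain ⟨a', b', ha', hb', hab', hf'⟩ := W534.frob_comm (W := W) Φ (snd Y1 Y2)
  have hrel : ∀ l : ℕ, 0 < l → D1.m0 * D2.m0 * Φ.e (Y1.prod Y2) * a * a' ∣ l →
      ∃ s, 0 < s ∧ Φ.e (Y1.prod Y2) * s = t0 * l ∧
        Rel ((D1.b.tensorProduct D2.b).map κ) (fun q : D1.I × D2.I => D1.a q.1 + D2.a q.2)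
          (fun q : D1.I × D2.I => (D1.ty q.1, D2.ty q.2))
          (κ.conj (TensorProduct.map D1.N LinearMap.id + TensorProduct.map LinearMap.id D2.N))
          (frob Φ (Y1.prod Y2) s) (fun θ => (D1.al θ.1 * D2.al θ.2) ^ l) (l : W.K) := by
    rintro l hl ⟨r, rfl⟩
    have hr : 0 < r := Nat.pos_of_ne_zero fun h => by simp [h] at hl
    obtain ⟨s1, hs1, hs1', R1⟩ := D1.rel _ hl ⟨D2.m0 * Φ.e (Y1.prod Y2) * a * a' * r, by ring⟩
    obtain ⟨s2, hs2, hs2', R2⟩ := D2.rel _ hl ⟨D1.m0 * Φ.e (Y1.prod Y2) * a * a' * r, by ring⟩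
    have ht0 : 0 < t0 := by
      have h := Nat.mul_pos (Φ.e_pos Y1) hs1
      rw [hs1'] at h
      exact Nat.pos_of_ne_zero (left_ne_zero_of_mul h.ne')
    refine ⟨t0 * (D1.m0 * D2.m0 * a * a' * r), ?_, by ring, ?_⟩
    · exact Nat.mul_pos ht0 (Nat.mul_pos (Nat.mul_pos (Nat.mul_pos (Nat.mul_pos D1.m0_pos
        D2.m0_pos) ha) ha') hr)
    · have e1 : s1 = b * (t0 * D1.m0 * D2.m0 * a' * r) := by
        have h1 : Φ.e Y1 * s1 = Φ.e Y1 * (b * (t0 * D1.m0 * D2.m0 * a' * r)) := by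
          calc Φ.e Y1 * s1 = (a * Φ.e (Y1.prod Y2)) * (t0 * D1.m0 * D2.m0 * a' * r) := by
                rw [hs1']; ring
            _ = _ := by rw [hab]; ring
        exact Nat.eq_of_mul_eq_mul_left (Φ.e_pos Y1) h1
      have e2 : s2 = b' * (t0 * D1.m0 * D2.m0 * a * r) := by
        have h1 : Φ.e Y2 * s2 = Φ.e Y2 * (b' * (t0 * D1.m0 * D2.m0 * a * r)) := by
          calc Φ.e Y2 * s2 = (a' * Φ.e (Y1.prod Y2)) * (t0 * D1.m0 * D2.m0 * a * r) := by
                rw [hs2']; ring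
            _ = _ := by rw [hab']; ring
        exact Nat.eq_of_mul_eq_mul_left (Φ.e_pos Y2) h1
      have R := Rel.tensor D1.dat D2.dat R1 R2
      have e3 : t0 * (D1.m0 * D2.m0 * a * a' * r) = a * (t0 * D1.m0 * D2.m0 * a' * r) := by ring
      have e4 : t0 * (D1.m0 * D2.m0 * a * a' * r) = a' * (t0 * D1.m0 * D2.m0 * a * r) := by ring
      have hT := FData.frob_kappa (Φ := Φ) (Y1 := Y1) (Y2 := Y2)
        (s := t0 * (D1.m0 * D2.m0 * a * a' * r)) (s1 := s1) (s2 := s2)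
        (fun y => by rw [e3, e1]; exact hf _ y) (fun y => by rw [e4, e2]; exact hf' _ y)
      have R' := R.map κ (T'' := frob Φ (Y1.prod Y2) (t0 * (D1.m0 * D2.m0 * a * a' * r))) hT
      simp only [mul_pow]
      exact R'
  refine ⟨⟨⟨D1.I × D2.I, D1.Θ × D2.Θ, inferInstance, inferInstance, inferInstance,
    (D1.b.tensorProduct D2.b).map κ, fun q => D1.a q.1 + D2.a q.2,
    fun q => (D1.ty q.1, D2.ty q.2), fun θ => D1.kk θ.1 + D2.kk θ.2,
    κ.conj (TensorProduct.map D1.N LinearMap.id + TensorProduct.map LinearMap.id D2.N),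
    fun θ => D1.al θ.1 * D2.al θ.2, fun θ => D1.dg θ.1 + D2.dg θ.2,
    (D1.dat.tensor D2.dat).map κ, D1.wts.prod D2.wts, ?_, ?_,
    fun θ => mul_ne_zero (D1.al_ne _) (D2.al_ne _),
    D1.m0 * D2.m0 * Φ.e (Y1.prod Y2) * a * a', ?_, hrel⟩,
    fun θ => D1.vv θ.1 + D2.vv θ.2, ?_, ?_⟩⟩
  · exact (sum_pow_prod D1.kk D2.kk D1.ty D2.ty (1 / 2)).trans
      (congrArg₂ (· * ·) D1.sum D2.sum)
  · rintro ⟨i, j⟩
    rw [Basis.map_apply, Basis.tensorProduct_apply, hκ, kappa_tmul]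
    exact W.mul_mem (W.map_mem _ (D1.deg i)) (W.map_mem _ (D2.deg j))
  · exact Nat.mul_pos (Nat.mul_pos (Nat.mul_pos (Nat.mul_pos D1.m0_pos D2.m0_pos) (Φ.e_pos _))
      ha) ha'
  · exact Gau.prod hA D2.wts D1.gau D2.gau
  · intro l
    exact (sum_exp_prod (fun i => D1.vv (D1.ty i)) (fun j => D2.vv (D2.ty j)) l).trans
      (congrArg₂ (· * ·) (D1.mgf l) (D2.mgf l))

end GData

/-- The data of a variety with nonvanishing cohomology. -/
theorem exists_gbase [IsAlgClosed W.K] (Φ : FrobSystem W p) (X : 𝒱.Obj)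
    (hX : Nontrivial (W.H X)) :
    ∃ (ι : Type) (_ : Fintype ι) (len : ι → ℕ) (al : ι → W.K)
      (b : Basis (Σ s : ι, Fin (len s + 1)) W.K (W.H X)),
      IsJordanBasis (frob Φ X 1) len al b ∧
      ((∀ s, len s = 0) → FrobSemisimple Φ X) ∧
      ∃ G v A₀ : ℝ, 0 < G ∧ ((∃ s, len s ≠ 0) → G < finrank W.K (W.H X)) ∧ 0 ≤ v ∧ 0 ≤ A₀ ∧
        ∀ A ≥ A₀, Nonempty (GData Φ (Φ.e X) X G v A
          (fun l => ∑ i : (Σ s : ι, Fin (len s + 1)), Real.exp (l * var1 (len i.1)))) := by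
  classical
  obtain ⟨ι, hι, len, al, dg, b, N, h1, h2, h3, h4, h5, h6⟩ := base_lin (W.gr X)
    (W.isInternal X) (frob Φ X 1) (fun r x hx => W.map_mem _ hx) (by
      have := frob_pow_injective (Φ := Φ) (Z := X) 1 1
      rwa [pow_one] at this)
  have D := dat_strings len b N h2 h3
  have hW := wts_strings len
  obtain ⟨A₀, hA₀, hA₀'⟩ := gau_strings len
  have hne : Nonempty (Σ s : ι, Fin (len s + 1)) := by
    by_contra hcon
    rw [not_nonempty_iff] at hcon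
    have h7 := Module.finrank_eq_card_basis b
    rw [Fintype.card_eq_zero] at h7
    have h8 : 0 < finrank W.K (W.H X) := finrank_pos
    omega
  refine ⟨ι, hι, len, al, b, ⟨h4, fun s i => ?_, fun s => ?_⟩, fun hlen => ?_,
    ∑ i : (Σ s : ι, Fin (len s + 1)), (1 / 2 : ℝ) ^ (if len i.1 = 0 then 0 else 1),
    ∑ s, (len s : ℝ) ^ 2, A₀, ?_, ?_, ?_, hA₀, ?_⟩
  · rw [h5, h2]
  · rw [h5, h3, add_zero]
  · have h7 := h6 hlen
    unfold FrobSemisimple
    have h8 : frob Φ X 1 = (W.map (Φ.Fr X)).toLinearMap := by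
      have : W534.iter (Φ.Fr X) 1 = Φ.Fr X := Category.id_comp _
      unfold frob
      rw [this]
    rw [← h8]
    exact h7
  · exact Finset.sum_pos (fun _ _ => by positivity) Finset.univ_nonempty
  · rintro ⟨s₀, hs₀⟩
    rw [Module.finrank_eq_card_basis b, Fintype.card, ← nsmul_one, ← Finset.sum_const]
    refine Finset.sum_lt_sum (fun i _ => ?_) ⟨⟨s₀, 0⟩, Finset.mem_univ _, ?_⟩
    · split_ifs <;> norm_num
    · rw [if_neg hs₀]
      norm_num
  · exact Finset.sum_nonneg fun _ _ => sq_nonneg _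
  · intro A hA
    refine ⟨⟨⟨(Σ s : ι, Fin (len s + 1)), ι, inferInstance, hι, inferInstance, b, _, _, _, N, al,
      dg, D, hW, rfl, fun i => h1 i.1 i.2, h4, 1, one_pos, ?_⟩, fun s => var1 (len s),
      hA₀' A hA, fun l => rfl⟩⟩
    intro l hl _
    refine ⟨l, hl, rfl, ?_⟩
    have R := rel_strings (b := b) (a := fun p => (len p.1 : ℤ) - 2 * (p.2 : ℕ))
      (ty := fun p => p.1) (N := N) (F := frob Φ X 1) al h5
    have R' := R.pow D l
    rw [mul_one, ← frob_mul_eq, one_mul] at R'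
    exact R'

/-- The data of the powers. -/
theorem exists_gpw {Φ : FrobSystem W p} {t0 : ℕ} {X : 𝒱.Obj} {G v A : ℝ} {M : ℝ → ℝ}
    (hA : 0 ≤ A) (D : GData Φ t0 X G v A M)
    (n : ℕ) : Nonempty (GData Φ t0 (pw X n) (G ^ (n + 1)) ((n + 1 : ℕ) * v) A
      (fun l => M l ^ (n + 1))) := by
  induction n with
  | zero =>
    have e : (fun l => M l ^ (0 + 1)) = M := by
      funext l
      rw [zero_add, pow_one]
    rw [e, zero_add, pow_one, Nat.cast_one, one_mul]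
    exact ⟨D⟩
  | succ n ih =>
    obtain ⟨E⟩ := ih
    have h := GData.prod hA E D
    rw [← pow_succ] at h
    have e : ((n + 1 : ℕ) : ℝ) * v + v = ((n + 1 + 1 : ℕ) : ℝ) * v := by push_cast; ring
    have e' : (fun l => M l ^ (n + 1) * M l) = fun l => M l ^ (n + 1 + 1) := by
      funext l
      rw [← pow_succ]
    rw [e, e'] at h
    exact h

/-- The data of the products with the powers. -/
theorem exists_gprod {Φ : FrobSystem W p} {X Z : 𝒱.Obj} {G v A GZ vZ : ℝ} {M MZ : ℝ → ℝ}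
    (hA : 0 ≤ A) (D : GData Φ (Φ.e X) X G v A M) (E : GData Φ (Φ.e Z) Z GZ vZ A MZ)
    (n : ℕ) : Nonempty (GData Φ (Φ.e X * Φ.e Z) (Z.prod (pw X n)) (GZ * G ^ (n + 1))
      (vZ + (n + 1 : ℕ) * v) A (fun l => MZ l * M l ^ (n + 1))) := by
  obtain ⟨D'⟩ := D.rescale (Φ.e_pos Z)
  obtain ⟨E'⟩ := E.rescale (Φ.e_pos X)
  rw [mul_comm (Φ.e Z) (Φ.e X)] at E'
  obtain ⟨P⟩ := exists_gpw hA D' n
  exact GData.prod hA E' P

end Pool.Agent.H61.LS
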