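import Pool.Agent.H61.LS.RateF

/-!
# The number of the Tate classes in one codimension: asymptotics
-/

set_option autoImplicit false
set_option linter.unusedSectionVars false

open CategoryTheory AlgebraicGeometry

universe u v

namespace Pool.Agent.H61.LS

open Module
open Pool.Agent.H914 Pool.Agent.H914.VarClass Pool.Agent.H914.VarClass.Obj
  Pool.Agent.H914.WeilCohomology Pool.Agent.W534 Pool.Agent.Y163.MW
  Pool.Agent.H281R3.HT Pool.Agent.H61.GX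
open Pool.Agent.Y163 hiding pw dim_pw
open Pool.Agent.K7.H8.TH
open Pool.Agent.Y133.Half (pw FrobSemisimple tateSys trueTateSys algSys isTate_iff eig_mul
  alg_le_trueTate)

/-- The variance of the sizes `m s = len s + 1` of the blocks of a Jordan basis:
`∑ (m ^ 3 - m) / (3 ∑ m)`. -/
noncomputable def jordanVar {ι : Type} [Fintype ι] (len : ι → ℕ) : ℝ :=
  (∑ s, (((len s : ℝ) + 1) ^ 3 - ((len s : ℝ) + 1))) / (3 * ∑ s, ((len s : ℝ) + 1))

lemma sum_var {ι : Type} [Fintype ι] (len : ι → ℕ) :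
    ∑ i : (Σ s : ι, Fin (len s + 1)), var1 (len i.1) =
      (∑ s, (((len s : ℝ) + 1) ^ 3 - ((len s : ℝ) + 1))) / 3 := by
  rw [Fintype.sum_sigma, Finset.sum_div]
  refine Finset.sum_congr rfl fun s _ => ?_
  dsimp only
  rw [Finset.sum_const, Finset.card_univ, Fintype.card_fin, nsmul_eq_mul, var1]
  push_cast
  ring

lemma card_len {ι : Type} [Fintype ι] (len : ι → ℕ) :
    (Fintype.card (Σ s : ι, Fin (len s + 1)) : ℝ) = ∑ s, ((len s : ℝ) + 1) := by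
  rw [Fintype.card_sigma]
  push_cast
  refine Finset.sum_congr rfl fun s _ => ?_
  rw [Fintype.card_fin]
  push_cast
  rfl

lemma jordanVar_pos {ι : Type} [Fintype ι] (len : ι → ℕ) (h : ∃ s, len s ≠ 0) :
    0 < jordanVar len := by
  obtain ⟨s₀, hs₀⟩ := h
  have h1 : ∀ s, 0 ≤ ((len s : ℝ) + 1) ^ 3 - ((len s : ℝ) + 1) := by
    intro s
    have : (0 : ℝ) ≤ len s := Nat.cast_nonneg _
    nlinarith [pow_nonneg this 3, sq_nonneg (len s : ℝ)]
  have h2 : 0 < ((len s₀ : ℝ) + 1) ^ 3 - ((len s₀ : ℝ) + 1) := by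
    have : (0 : ℝ) < len s₀ := by exact_mod_cast Nat.pos_of_ne_zero hs₀
    nlinarith [pow_pos this 3, pow_pos this 2]
  unfold jordanVar
  apply div_pos
  · exact lt_of_lt_of_le h2 (Finset.single_le_sum
      (f := fun s => ((len s : ℝ) + 1) ^ 3 - ((len s : ℝ) + 1)) (fun s _ => h1 s)
      (Finset.mem_univ s₀))
  · have h3 : (0 : ℝ) < (len s₀ : ℝ) + 1 := by positivity
    have h4 := Finset.single_le_sum (f := fun s => (len s : ℝ) + 1)
      (fun s _ => by positivity) (Finset.mem_univ s₀)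
    have h5 : 0 < ∑ s, ((len s : ℝ) + 1) := lt_of_lt_of_le h3 h4
    positivity

variable {k : Type u} [Field k] {𝒱 : VarClass k} {ops : CycleOps 𝒱}
  {W : WeilCohomology.{u, v} ops} {p : ℕ}

/-- The analysis of one codimension. -/
theorem deg_rate (Φ : FrobSystem W p) {b σ2 G : ℝ} (hG : 0 < G) (hGb : G < b)
    (hσ : 0 < σ2) {MX : ℝ → ℝ} (hX : Conc b σ2 MX) (M : ℕ) :
    ∃ C : ℝ, 0 < C ∧ ∀ (A : ℝ), 0 ≤ A → ∀ (MZ : ℝ → ℝ), (∀ l, 0 ≤ MZ l) → ∀ ε : ℝ, 0 < ε →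
      ∃ m₀ : ℕ, ∀ m : ℕ, m₀ ≤ m → 0 < m → ∀ (t0 : ℕ) (Y : 𝒱.Obj) (G₀ v₀ : ℝ), G₀ ≤ G ^ m →
      Nonempty (GData Φ t0 Y G₀ v₀ A (fun l => MZ l * MX l ^ m)) → ∀ j, j ≤ Y.dim →
      b ^ m ≤ (finrank W.K (genU Φ Y j) : ℝ) * ((m : ℝ) + 2) ^ M →
      |(finrank W.K (tateSpan Φ Y j) : ℝ) * √(m : ℝ) -
          Gs σ2 * (finrank W.K (genU Φ Y j) : ℝ)| ≤ ε * (finrank W.K (genU Φ Y j) : ℝ) ∧
      (tateRankIn Φ Y j : ℝ) * ((m : ℝ) * √(m : ℝ)) ≤
        C * (finrank W.K (genU Φ Y j) : ℝ) ∧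
      (tateRankIn Φ Y j : ℝ) * (m : ℝ) ≤ C * (finrank W.K (tateSpan Φ Y j) : ℝ) := by
  obtain ⟨C, hC, hCu⟩ := upper b G hG hGb M
  have hκ : 0 < Gs σ2 := by
    unfold Gs
    have hpi := Real.pi_pos
    exact Real.sqrt_pos.2 (by positivity)
  refine ⟨C + C * (2 / Gs σ2), by positivity, fun A hA MZ hMZ ε hε => ?_⟩
  obtain ⟨m₁, hm₁⟩ := clt_main hG hGb hA hσ hX hMZ M (ε := min ε (Gs σ2 / 2))
    (lt_min hε (by positivity))
  refine ⟨m₁, ?_⟩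
  rintro m hmm hm t0 Y G₀ v₀ hG₀ ⟨D⟩ j hj hgrow
  obtain ⟨l, hl⟩ := Nat.exists_eq_add_of_le hj
  obtain ⟨-, h2, h3, h4, -⟩ := D.toFData.one_degree hl.symm
  have h1 := tate_rank D.toFData hl.symm
  have hn : (0 : ℝ) < (m : ℝ) := by exact_mod_cast hm
  have hsn : 0 < √(m : ℝ) := Real.sqrt_pos.2 hn
  have hcard : ((qq D.ty (D.TT j)).card : ℝ) = (finrank W.K (genU Φ Y j) : ℝ) := by
    rw [h2, card_qq]
    rfl
  have hQ : {i | D.ty i ∈ D.TT j} = D.QQj j := rfl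
  have hsum : ∑ i, (1 / 2 : ℝ) ^ D.kk (D.ty i) ≤ G ^ m := (le_of_eq D.sum).trans hG₀
  have hneg := D.wts.cn_neg (D.TT j) 1
  rw [hQ] at hneg
  have hm1 := hm₁ m hmm hm D.I D.Θ D.a D.ty D.kk D.vv v₀ (D.TT j) D.wts D.gau D.mgf hsum
    (by rw [hcard]; exact hgrow)
  obtain ⟨hu1, -⟩ := hCu m hm D.I D.Θ D.a D.ty D.kk v₀ (D.TT j) D.wts hsum
    (by rw [hcard]; exact hgrow)
  rw [hcard, hQ] at hm1 hu1
  set g : ℝ := (finrank W.K (genU Φ Y j) : ℝ) with hg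
  have hg0 : 0 ≤ g := Nat.cast_nonneg _
  have ht : (finrank W.K (tateSpan Φ Y j) : ℝ) =
      (cn D.a (D.QQj j) 0 : ℝ) + cn D.a (D.QQj j) (-1) := by
    rw [hneg] at h4 ⊢
    have h5 := le_antisymm h4 h3
    rw [h5]
    push_cast
    rfl
  rw [← ht] at hm1
  set t : ℝ := (finrank W.K (tateSpan Φ Y j) : ℝ) with htdef
  have ht0 : 0 ≤ t := Nat.cast_nonneg _
  set r : ℝ := (tateRankIn Φ Y j : ℝ) with hr
  have hr0 : 0 ≤ r := Nat.cast_nonneg _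
  have h1' : r ≤ (cn D.a (D.QQj j) 0 : ℝ) - cn D.a (D.QQj j) (-2) := by
    have h5 : (tateRankIn Φ Y j : ℝ) + cn D.a (D.QQj j) (-2) ≤ cn D.a (D.QQj j) 0 := by
      exact_mod_cast h1
    rw [hr]
    linarith
  have h5 : r * ((m : ℝ) * √(m : ℝ)) ≤ C * g :=
    (mul_le_mul_of_nonneg_right h1' (by positivity)).trans hu1
  have h6 : g ≤ (2 / Gs σ2) * (t * √(m : ℝ)) := by
    have h7 := (abs_le.1 hm1).1
    have h8 : min ε (Gs σ2 / 2) * g ≤ (Gs σ2 / 2) * g :=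
      mul_le_mul_of_nonneg_right (min_le_right _ _) hg0
    have h9 : Gs σ2 / 2 * g ≤ t * √(m : ℝ) := by linarith
    rw [div_mul_eq_mul_div, le_div_iff₀ hκ]
    linarith
  have hCC : 0 ≤ C * (2 / Gs σ2) := by positivity
  refine ⟨?_, ?_, ?_⟩
  · exact hm1.trans (mul_le_mul_of_nonneg_right (min_le_left _ _) hg0)
  · refine h5.trans (mul_le_mul_of_nonneg_right (by linarith) hg0)
  · have h7 : (r * (m : ℝ)) * √(m : ℝ) ≤ (C * (2 / Gs σ2) * t) * √(m : ℝ) := by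
      calc (r * (m : ℝ)) * √(m : ℝ) = r * ((m : ℝ) * √(m : ℝ)) := by ring
        _ ≤ C * g := h5
        _ ≤ C * ((2 / Gs σ2) * (t * √(m : ℝ))) := mul_le_mul_of_nonneg_left h6 hC.le
        _ = _ := by ring
    have h8 := le_of_mul_le_mul_right h7 hsn
    exact h8.trans (mul_le_mul_of_nonneg_right (by linarith) ht0)

/-- **The asymptotics.** -/
theorem rate_main [IsAlgClosed W.K] (Φ : FrobSystem W p) (X : 𝒱.Obj) (hd : 0 < X.dim)
    (hDX : ∃ D, X.IsCyc 1 D ∧ Big ops X D) :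
    FrobSemisimple Φ X ∨
    ∃ (ι : Type) (_ : Fintype ι) (len : ι → ℕ) (al : ι → W.K)
      (b : Basis (Σ s : ι, Fin (len s + 1)) W.K (W.H X)),
      IsJordanBasis (frob Φ X 1) len al b ∧ 0 < jordanVar len ∧
      ∃ C : ℝ, 0 < C ∧ ∀ Z : 𝒱.Obj, (1 : W.H Z) ≠ 0 → ∀ (J : ℕ) (ε : ℝ), 0 < ε → ∃ n₀ : ℕ,
        ∀ n ≥ n₀, ∀ j : ℕ, |2 * (j : ℤ) - (n + 1) * X.dim| ≤ J →
          |(GX.tateDimIn Φ (Z.prod (pw X n)) j : ℝ) * √(n + 1 : ℝ) -
              √(2 / (Real.pi * jordanVar len)) * genTateDimIn Φ (Z.prod (pw X n)) j| ≤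
            ε * genTateDimIn Φ (Z.prod (pw X n)) j ∧
          numRank ops (Z.prod (pw X n)) j ≤ tateRankIn Φ (Z.prod (pw X n)) j ∧
          (tateRankIn Φ (Z.prod (pw X n)) j : ℝ) * ((n + 1 : ℝ) * √(n + 1 : ℝ)) ≤
            C * genTateDimIn Φ (Z.prod (pw X n)) j ∧
          (tateRankIn Φ (Z.prod (pw X n)) j : ℝ) * (n + 1 : ℝ) ≤
            C * GX.tateDimIn Φ (Z.prod (pw X n)) j := by
  obtain ⟨D, hD, hD'⟩ := hDX
  have htr : W.tr X (W.cl X D ^ X.dim) ≠ 0 := hD'.tr hD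
  have hpT : par (W.isInternal X) ∈ GOp (tateSys Φ) X X 0 :=
    GOp_mono (fun Q => Pool.Agent.Y133.Half.TSpan_le Φ Q) _ _ _ (par_mem_true Φ X)
  have hT : GBig (tateSys Φ) X := gbig_of_par (tateSys Φ) hpT hd
    (Pool.Agent.Y133.Half.alg_le_tate Φ) hD htr
  have hXn : Nontrivial (W.H X) := by
    by_contra hcon
    rw [not_nontrivial_iff_subsingleton] at hcon
    apply htr
    rw [Subsingleton.elim (W.cl X D ^ X.dim) 0, map_zero]
  obtain ⟨ι, hι, len, al, b, hJ, hss, G, v, A₀, hG, hGb, hv, hA₀, hdata⟩ :=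
    exists_gbase Φ X hXn
  by_cases hlen : ∀ s, len s = 0
  · exact Or.inl (hss hlen)
  right
  push Not at hlen
  have hσ := jordanVar_pos len hlen
  have hGb' := hGb hlen
  set B : ℝ := (finrank W.K (W.H X) : ℝ) with hB
  have hcard : (Fintype.card (Σ s : ι, Fin (len s + 1)) : ℝ) = B := by
    rw [hB, Module.finrank_eq_card_basis b]
  have hne : Nonempty (Σ s : ι, Fin (len s + 1)) := by
    obtain ⟨s₀, -⟩ := hlen
    exact ⟨⟨s₀, 0⟩⟩
  have hconc : Conc B (jordanVar len)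
      (fun l => ∑ i : (Σ s : ι, Fin (len s + 1)), Real.exp (l * var1 (len i.1))) := by
    have h1 := conc_base (fun i : (Σ s : ι, Fin (len s + 1)) => var1 (len i.1))
      (σ2 := jordanVar len) (by
        rw [sum_var, jordanVar, card_len]
        have h2 : (∑ s, ((len s : ℝ) + 1)) ≠ 0 := by
          rw [← card_len, hcard]
          exact (hG.trans hGb').ne'
        field_simp)
    rwa [hcard] at h1
  -- the intermediate constant
  set G' := (G + B) / 2 with hG'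
  have hGG' : G < G' := by rw [hG']; linarith
  have hG'b : G' < B := by rw [hG']; linarith
  have hG'0 : 0 < G' := hG.trans hGG'
  refine ⟨ι, hι, len, al, b, hJ, hσ, ?_⟩
  obtain ⟨C, hC, hCm⟩ := deg_rate Φ hG'0 hG'b hσ hconc (finrank W.K (W.H X) ^ 2 + 1)
  refine ⟨C, hC, fun Z hZ1 J ε hε => ?_⟩
  have hZn : Nontrivial (W.H Z) := ⟨⟨1, 0, hZ1⟩⟩
  obtain ⟨ι', hι', len', al', b', -, -, GZ, vZ, A₁, hGZ, -, hvZ, hA₁, hdataZ⟩ :=
    exists_gbase Φ Z hZn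
  set A := max A₀ A₁ with hA
  have hA0 : 0 ≤ A := hA₀.trans (le_max_left _ _)
  obtain ⟨DX⟩ := hdata A (le_max_left _ _)
  obtain ⟨DZ⟩ := hdataZ A (le_max_right _ _)
  obtain ⟨m₀, hm₀⟩ := hCm A hA0 _ (fun l => Finset.sum_nonneg fun i _ => (Real.exp_pos
    (l * var1 (len' (Sigma.fst (β := fun s : ι' => Fin (len' s + 1)) i)))).le) ε hε
  obtain ⟨n₁, hn₁⟩ := gen_growth Φ hT hpT hZ1 J
  -- the base
  obtain ⟨n₂, hn₂⟩ : ∃ n₂ : ℕ, ∀ n ≥ n₂, GZ * G ^ (n + 1) ≤ G' ^ (n + 1) := by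
    have h1 : 1 < G' / G := by rw [one_lt_div hG]; exact hGG'
    obtain ⟨n₂, hn₂⟩ := pow_unbounded_of_one_lt GZ h1
    refine ⟨n₂, fun n hn => ?_⟩
    have h2 : (G' / G) ^ n₂ ≤ (G' / G) ^ (n + 1) := pow_le_pow_right₀ h1.le (by omega)
    have h3 : GZ ≤ (G' / G) ^ (n + 1) := hn₂.le.trans h2
    rw [div_pow, le_div_iff₀ (by positivity)] at h3
    exact h3
  refine ⟨max (max m₀ n₁) (max n₂ J), fun n hn j hj => ?_⟩
  have e1 : m₀ ≤ n := (le_max_left _ _).trans ((le_max_left _ _).trans hn)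
  have e2 : n₁ ≤ n := (le_max_right _ _).trans ((le_max_left _ _).trans hn)
  have e3 : n₂ ≤ n := (le_max_left _ _).trans ((le_max_right _ _).trans hn)
  have e4 : J ≤ n := (le_max_right _ _).trans ((le_max_right _ _).trans hn)
  have hjd := le_of_near' (Z := Z) hd e4 hj
  obtain ⟨k1, k2, k3⟩ := hm₀ (n + 1) (by omega) (Nat.succ_pos n) _ (Z.prod (pw X n)) _ _
    (hn₂ n e3) (exists_gprod hA0 DX DZ n) j hjd (by
      have h1 := hn₁ n e2 j hj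
      rw [hB]
      exact h1)
  have hg : (finrank W.K (genU Φ (Z.prod (pw X n)) j) : ℝ) =
      genTateDimIn Φ (Z.prod (pw X n)) j := by
    rw [genTateDimIn_eq, gc_tate]
  have ht : (finrank W.K (tateSpan Φ (Z.prod (pw X n)) j) : ℝ) =
      GX.tateDimIn Φ (Z.prod (pw X n)) j := by
    rw [gxTateDimIn_eq, tateSpan_gc]
  have hn1 : (((n + 1 : ℕ)) : ℝ) = (n + 1 : ℝ) := by push_cast; rfl
  rw [hg, ht, hn1] at k1
  rw [hg, hn1] at k2
  rw [ht, hn1] at k3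
  refine ⟨k1, ?_, k2, k3⟩
  rw [rr_eq W hjd, tateRankIn_eq hjd]
  exact ag_mono (alg_le_trueTate Φ) _ _ _

end Pool.Agent.H61.LS
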